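import Pool.Agent.Helper42.CKC.Val
set_option autoImplicit false
open Complex MeasureTheory Metric Set
open scoped Real ComplexConjugate

/-!
# Project CKY: data of a certificate in the coordinates `y = (1 + i τ) x`, `W = 2 x + q`

The point is pt7 l η W y; a vertex is an integer vector  (c₀, …, c_n) for  (1, τ, …, τ^n),
`n = 2 m + 2`; the target of a vertex and a side is `2 M D^K (1 + τ²)^(m + 1) F`.  A polynomial
`p` in `τ` is the list of its coefficients, and `dt p c` is the value at the vertex.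
-/

namespace Pool.Agent.Helper65.CKY

open Pool.Sos71 Pool.EK71
open Pool.Agent.Helper69.EK3 (AP aev af apE ader ash)
open Pool.Agent.Helper99.CKC
open Pool.Agent.Helper11.CKC (CL MSc)
open Pool.Agent.Helper42.CKC

/-! ### polynomials in `τ` and vertices -/

/-- the value of the polynomial `p` at the vertex `c` -/
def dt : List ℤ → List ℤ → ℤ
  | p :: ps, c :: cs => Int.add (Int.mul p c) (dt ps cs)
  | [], _ => 0
  | _ :: _, [] => 0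

/-- entry `k` of a list -/
def nz : List ℤ → ℕ → ℤ
  | [], _ => 0
  | c :: _, 0 => c
  | _ :: cs, k + 1 => nz cs k

/-- sum of two lists -/
def padd : List ℤ → List ℤ → List ℤ
  | [], b => b
  | a :: as, [] => a :: as
  | a :: as, b :: bs => Int.add a b :: padd as bs

/--  (1 + τ²)^m -/
def P1 : ℕ → List ℤ
  | 0 => [1]
  | m + 1 => padd (P1 m) (0 :: 0 :: P1 m)

/-- a vertex -/
structure Vy where
  id : ℕ
  c : List ℤ
  ka : ℤ
  gm : ℤ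
  cR : ℤ
  cI : ℤ
  fi : Fl
  fo : Fl
  HM : List HmC
  RI : List Rm
  RO : List Rm

/-- the data; `V`, `F` are lists of a polynomial in `τ` and a list of potentials -/
structure DatY where
  d : DC
  K : ℕ
  h : ℕ
  kL : ℕ
  m : ℕ
  M : ℤ
  Fd : ℤ
  Mt : ℤ
  rd : ℤ
  p0 : ℤ
  p1 : ℤ
  p2 : ℤ
  q0 : ℤ
  q1 : ℤ
  q2 : ℤ
  nu : List ℤ
  V : List (List ℤ × List GrC)
  F : List (List ℤ × List GrC)
  MI0 : CL
  MI1 : CL
  MO0 : CL
  MO1 : CL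

/-! ### expressions -/

/-- `w` in the rotating frame -/
def cW0 : CX := CX.add cE (CX.sc 4 cP)

/-- `1 + y` -/
def cY1 : CX := CX.add (cZ 1 0) cx

/-- `sin η y` -/
def cAy : CX := CX.rm (Ex.sc 2 xSC) cx

/--  (z0 + i z1) P - z0 sin η y -/
def cRz (z0 z1 : ℤ) : CX := CX.add (CX.sc2 z0 z1 cP) (CX.sc (-z0) cAy)

/-- the potentials of a group with `j = 0` -/
def EV (z0 z1 : ℤ) (d : DC) (K : ℕ) (G : GrC) : Ex :=
  (CX.add (CX.mI (CX.sc2 z0 z1 (CX.sum (fun t => CX.rm (apE (adC 0 t.1)) (hM d K G.k t)) G.l)))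
    (CX.mul (CX.cj (CX.mul (cRz z0 z1) cY1))
      (CX.sum (fun t => CX.rm (Ex.sc 2 (apE t.1)) (hN d K G.k t)) G.l))).r

/--  (z0 - z2 + 2 i z1) P - (z0 + i z1) sin η y -/
def cR2 (z0 z1 z2 : ℤ) : CX :=
  CX.add (CX.sc2 (Int.add z0 (Int.neg z2)) (Int.mul 2 z1) cP) (CX.sc2 (Int.neg z0) (Int.neg z1) cAy)

/--  (z0 + z2) |P|² + z0 |sin η y|² - 2 Re ((z0 + i z1) P conj (sin η y)) -/
def eRR (z0 z1 z2 : ℤ) : Ex :=
  Ex.add (Ex.add (Ex.sc (Int.add z0 z2) (CX.nsq cP)) (Ex.sc z0 (CX.nsq cAy)))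
    (Ex.sc (-2) (CX.mul (CX.sc2 z0 z1 cP) (CX.cj cAy)).r)

/-- the potentials of a group with `j = 1` -/
def EF (z0 z1 z2 : ℤ) (d : DC) (K : ℕ) (G : GrC) : Ex :=
  (CX.add (CX.mul (CX.mI (cR2 z0 z1 z2))
      (CX.sum (fun t => CX.rm (apE (adC 1 t.1)) (hM d K G.k t)) G.l))
    (CX.mul (CX.rm (eRR z0 z1 z2) (CX.cj cY1))
      (CX.sum (fun t => CX.rm (Ex.sc 2 (apE t.1)) (hN d K G.k t)) G.l))).r

/--  (conj w)^j e₀, j ≤ 2 -/
def cMw0 (j : ℕ) : CX := CX.mul (CX.pw cE (2 - j)) (CX.pw (CX.cj cW0) j)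

/-- `Re [(z0 - i z1) (re + i im) l^n (conj w)^j e₀ (y² + 2 y)]`, times `D^K` -/
def EMy (z0 z1 : ℤ) (d : DC) (K h : ℕ) (t : ℕ × ℕ × ℤ × ℤ) : Ex :=
  Ex.mul (Ex.mul (Ex.pow (Ex.va 0) t.1)
    (CX.mul (CX.sc2 z0 (Int.neg z1) (CX.sc2 t.2.2.1 t.2.2.2 (cMw0 t.2.1)))
      (CX.mul cx (CX.add (cZ 2 0) cx))).r)
    (Ex.mul (Ex.pow xo (h - 2)) (Ex.bp (Dk d K)))

/-- the field minus `e₀` in the rotating frame, times `Fd` -/
def cGv0 (Fd s gm cR cI : ℤ) (f : Fl) : CX :=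
  CX.add (CX.add (CX.add (CX.sc gm cW0) (CX.sc2 cR cI (CX.cj cE))) (CX.sc (-Fd) cE))
    (CX.rm (Ex.sc s (Ex.va 0)) (CX.add (CX.sc2 f.aR f.aI cW0) (CX.sc2 f.bR f.bI (CX.cj cE))))

/-- `rd (|w|² - 1) + s l ρ` -/
def eCn0 (rd s r0 r1 r2 : ℤ) : Ex :=
  Ex.add (Ex.sc rd (Ex.add (CX.nsq cW0) (Ex.sc (-1) (Ex.pow xo 2))))
    (Ex.mul (Ex.sc s (Ex.va 0)) (Ex.add (Ex.sc r0 (Ex.pow xo 2))
      (Ex.add (Ex.sc r1 (CX.nsq (CX.add cW0 (CX.cj cE)))) (Ex.sc r2 (CX.nsq cW0)))))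

/-- the potentials with `j = 0` -/
def sumV (c : List ℤ) (d : DC) (K : ℕ) : List (List ℤ × List GrC) → Ex → Ex
  | [], e => e
  | g :: L, e => sumX (EV (dt g.1 c) (dt (0 :: g.1) c) d K) (sumV c d K L e) g.2

/-- the potentials with `j = 1` -/
def sumF (c : List ℤ) (d : DC) (K : ℕ) : List (List ℤ × List GrC) → Ex → Ex
  | [], e => e
  | g :: L, e => sumX (EF (dt g.1 c) (dt (0 :: g.1) c) (dt (0 :: 0 :: g.1) c) d K)
      (sumF c d K L e) g.2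

namespace DatY
variable (D : DatY)

/-- the linear part `ka |y|² + ν (|y|² + y₁) + ν' y₂`, twice, times `D^K` -/
def eLin (v : Vy) : Ex :=
  let n := dt D.nu v.c
  let n' := dt (0 :: D.nu) v.c
  Ex.mul (Ex.pow xo D.h) (Ex.bp (mu2 [[0, Int.mul 2 n', Int.mul 2 (Int.add v.ka n)],
    [Int.mul 2 n], [Int.mul 2 (Int.add v.ka n)]] (Dk D.d D.K)))

/-- the part of the target without the relation -/
def eMain (v : Vy) (s : ℤ) (f : Fl) (L0 L1 : CL) : Ex :=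
  let P := P1 D.m
  let z0 := dt P v.c
  let z1 := dt (0 :: P) v.c
  let z2 := dt (0 :: 0 :: P) v.c
  Ex.add (Ex.mul (Ex.sc (Int.mul (-2) (Int.mul (Int.add z0 z2) D.Mt))
      (CX.nsq (cGv0 D.Fd s v.gm v.cR v.cI f))) (Ex.mul (Ex.pow xo (D.h - 2)) (Ex.bp (Dk D.d D.K))))
    (Ex.add (Ex.sc 2 (sumX (EHm D.d D.K) (Ex.mul (Ex.pow xo D.h) (Ex.lit 0)) v.HM))
      (Ex.add (Ex.sc 2 (sumV v.c D.d D.K D.V
          (sumF v.c D.d D.K D.F (Ex.mul (Ex.pow xo D.h) (Ex.lit 0)))))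
        (sumX (EMy z0 z1 D.d D.K D.h) (sumX (EMy z1 z2 D.d D.K D.h) (D.eLin v) L1) L0)))

/-- the target -/
def target (v : Vy) (s r0 r1 r2 : ℤ) (f : Fl) (L0 L1 : CL) (R : List Rm) : Ex :=
  Ex.add (D.eMain v s f L0 L1)
    (Ex.mul (eCn0 D.rd s r0 r1 r2) (sumX (eRm D.d (D.K - D.kL))
      (Ex.mul (Ex.pow xo (D.h - 2)) (Ex.lit 0)) R))

def tIn (v : Vy) : Ex := D.target v 1 D.p0 D.p1 D.p2 v.fi D.MI0 D.MI1 v.RI
def tOut (v : Vy) : Ex := D.target v (-1) D.q0 D.q1 D.q2 v.fo D.MO0 D.MO1 v.RO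

end DatY

/-! ### the discs -/

/-- the polynomial of the disc σ = s = ±1 for  (c₀, c₁, c₂) -/
def eDy (s c0 c1 c2 : ℤ) : Ex :=
  let A := Ex.sc 2 xSC
  let B := cE.i
  let o := Int.add c0 c2
  let g := Int.add 2 (Int.mul (-2) s)
  -- 2 σ sin η (c0 + i c1) + i cos η (c0 + 2 i c1 - c2)
  let U : CX := ⟨Ex.add (Ex.sc (Int.mul (Int.mul 2 s) c0) A) (Ex.sc (Int.mul (-2) c1) B),
    Ex.add (Ex.sc (Int.mul (Int.mul 2 s) c1) A) (Ex.sc (Int.add c0 (Int.neg c2)) B)⟩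
  -- 2 σ sin η c0 + i cos η (c0 + i c1)
  let V : CX := ⟨Ex.add (Ex.sc (Int.mul (Int.mul 2 s) c0) A) (Ex.sc (Int.neg c1) B),
    Ex.sc c0 B⟩
  Ex.add (Ex.sc (Int.mul 4 o) (Ex.pow xo 2))
    (Ex.sc (-1) (Ex.add
      (Ex.add (Ex.sc (Int.mul 4 o) (CX.nsq cP))
        (Ex.add (Ex.sc (Int.mul (-4) g) (CX.mul (CX.sc2 c0 (Int.neg c1) cAy) (CX.cj cP)).r)
          (Ex.sc (Int.mul (Int.mul g g) c0) (CX.nsq cAy))))
      (Ex.add (Ex.add (Ex.sc 4 (CX.mul cP U).r) (Ex.sc (Int.mul (-2) g) (CX.mul cAy V).r))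
        (Ex.add (Ex.sc (Int.mul 4 c0) (Ex.pow A 2)) (Ex.add (Ex.sc o (Ex.pow B 2))
          (Ex.sc (Int.mul (Int.mul (-4) s) c1) (Ex.mul A B)))))))

/-- the polynomial of the disc `s`, times the polynomial `p` in `τ`, at the vertex `c` -/
def eDv (s : ℤ) (p c : List ℤ) : Ex := eDy s (dt p c) (dt (0 :: p) c) (dt (0 :: 0 :: p) c)

end Pool.Agent.Helper65.CKY
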