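import Pool.Agent.Helper42.CKC.Side
import Pool.Agent.Helper65.CKY.Dat
set_option autoImplicit false

/-!
# Project CKY: bounds of the disc blocks on domains of radius `R` (after helper42)
-/

namespace Pool.Agent.Helper65.CKY.Bdd

open Pool.Sos71
open Pool.Agent.Helper42.CKC.Bdd (mob itb mob_iff rho rho_one rho_sq f_le g_le itb_cons)

/-- points of the domain -/
structure Dom0 (R L : ℝ) (x : Pnt) : Prop where
  a0 : 0 ≤ x.a
  a1 : x.a ≤ L
  b0 : 0 ≤ x.b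
  b1 : x.b ≤ 1
  c0 : 0 ≤ x.c
  c1 : x.c ≤ 1
  r : x.b * x.c * rho x ≤ R

/-- the key estimate -/
theorem pw_le {b c r R : ℝ} (hR : 1 ≤ R) (hb : 0 ≤ b) (hb1 : b ≤ 1) (hc : 0 ≤ c) (hc1 : c ≤ 1) (hr : 1 ≤ r)
    (h : b * c * r ≤ R) {K i j n : ℕ} (h1 : n ≤ K + i) (h2 : n ≤ K + j) :
    b ^ i * c ^ j * r ^ n ≤ R ^ i * r ^ K := by
  have hr0 : 0 ≤ r := by linarith
  rcases Nat.le_total n K with h3 | h3
  · have e1 : b ^ i ≤ 1 := pow_le_one₀ hb hb1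
    have e2 : c ^ j ≤ 1 := pow_le_one₀ hc hc1
    have e3 : r ^ n ≤ r ^ K := pow_le_pow_right₀ hr h3
    have e4 : (1:ℝ) ≤ R ^ i := one_le_pow₀ hR
    have e5 : b ^ i * c ^ j ≤ 1 := mul_le_one₀ e1 (pow_nonneg hc _) e2
    calc b ^ i * c ^ j * r ^ n ≤ 1 * r ^ K :=
          mul_le_mul e5 e3 (pow_nonneg hr0 _) zero_le_one
      _ ≤ R ^ i * r ^ K := mul_le_mul_of_nonneg_right e4 (pow_nonneg hr0 _)
  · obtain ⟨m, rfl⟩ := Nat.exists_eq_add_of_le h3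
    obtain ⟨i', rfl⟩ := Nat.exists_eq_add_of_le (by omega : m ≤ i)
    obtain ⟨j', rfl⟩ := Nat.exists_eq_add_of_le (by omega : m ≤ j)
    have e1 : b ^ i' ≤ 1 := pow_le_one₀ hb hb1
    have e2 : c ^ j' ≤ 1 := pow_le_one₀ hc hc1
    have e5 : b ^ i' * c ^ j' ≤ 1 := mul_le_one₀ e1 (pow_nonneg hc _) e2
    have e6 : (b * c * r) ^ m ≤ R ^ m := pow_le_pow_left₀ (by positivity) h m
    have hR0 : 0 ≤ R := by linarith
    have e7 : R ^ m ≤ R ^ (m + i') := pow_le_pow_right₀ hR (Nat.le_add_right _ _)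
    calc b ^ (m + i') * c ^ (m + j') * r ^ (K + m) =
          (b * c * r) ^ m * (b ^ i' * c ^ j') * r ^ K := by
          rw [pow_add, pow_add, pow_add, mul_pow, mul_pow]
          ring
      _ ≤ R ^ m * 1 * r ^ K := by
          refine mul_le_mul_of_nonneg_right ?_ (pow_nonneg hr0 _)
          exact mul_le_mul e6 e5 (by positivity) (pow_nonneg hR0 _)
      _ = R ^ m * r ^ K := by ring
      _ ≤ R ^ (m + i') * r ^ K := mul_le_mul_of_nonneg_right e7 (pow_nonneg hr0 _)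

theorem mon_le {K : ℕ} {R L : ℝ} (hR : 1 ≤ R) {x : Pnt} (hx : Dom0 R L x) {m : Mon}
    (h : mob K m = true) : |m.val x| ≤ L ^ m.a * R ^ m.b * rho x ^ K := by
  obtain ⟨hd, he, h1, h2⟩ := mob_iff h
  have hr := rho_one x
  have hr0 : 0 ≤ rho x := by linarith
  have hL0 : 0 ≤ L := hx.a0.trans hx.a1
  unfold Mon.val
  rw [hd, he, pow_zero, pow_zero, mul_one, mul_one]
  simp only [abs_mul, abs_pow]
  rw [abs_of_nonneg hx.a0, abs_of_nonneg hx.b0, abs_of_nonneg hx.c0]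
  have e1 : x.a ^ m.a ≤ L ^ m.a := pow_le_pow_left₀ hx.a0 hx.a1 _
  have e4 : |x.f| ^ m.f ≤ rho x ^ m.f := pow_le_pow_left₀ (abs_nonneg _) (f_le x) _
  have e5 : |x.g| ^ m.g ≤ rho x ^ m.g := pow_le_pow_left₀ (abs_nonneg _) (g_le x) _
  have e6 := pw_le hR hx.b0 hx.b1 hx.c0 hx.c1 hr hx.r h1 h2
  have hb := pow_nonneg hx.b0 m.b
  have hc := pow_nonneg hx.c0 m.c
  calc x.a ^ m.a * x.b ^ m.b * x.c ^ m.c * |x.f| ^ m.f * |x.g| ^ m.g
      ≤ L ^ m.a * x.b ^ m.b * x.c ^ m.c * rho x ^ m.f * rho x ^ m.g := by gcongr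
    _ = L ^ m.a * (x.b ^ m.b * x.c ^ m.c * rho x ^ (m.f + m.g)) := by rw [pow_add]; ring
    _ ≤ L ^ m.a * (R ^ m.b * rho x ^ K) := mul_le_mul_of_nonneg_left e6 (pow_nonneg hL0 _)
    _ = _ := by ring

/-- the bound of one element -/
noncomputable def cb (R L : ℝ) (i : Itm) : ℝ :=
  i.f.c * (L ^ (i.m.add i.f.m1).a * R ^ (i.m.add i.f.m1).b) +
    i.f.d * (L ^ (i.m.add i.f.m2).a * R ^ (i.m.add i.f.m2).b)

theorem cb_nonneg {R L : ℝ} (hR : 1 ≤ R) (hL : 0 ≤ L) (i : Itm) : 0 ≤ cb R L i := by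
  have : 0 ≤ R := by linarith
  unfold cb
  positivity

theorem itm_le {K : ℕ} {R L : ℝ} (hR : 1 ≤ R) {x : Pnt} (hx : Dom0 R L x) {i : Itm}
    (h1 : mob K (i.m.add i.f.m1) = true) (h2 : mob K (i.m.add i.f.m2) = true) :
    |i.re x| ≤ cb R L i * rho x ^ K := by
  have g1 := mon_le hR hx h1
  have g2 := mon_le hR hx h2
  have c1 : (0:ℝ) ≤ i.f.c := Nat.cast_nonneg _
  have c2 : (0:ℝ) ≤ i.f.d := Nat.cast_nonneg _
  have k1 := mul_le_mul_of_nonneg_left g1 c1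
  have k2 := mul_le_mul_of_nonneg_left g2 c2
  have e : ∀ s : ℝ, |s| ≤ 1 → |i.f.c * (i.m.add i.f.m1).val x + s * (i.f.d * (i.m.add i.f.m2).val x)| ≤
      cb R L i * rho x ^ K := by
    intro s hs
    refine (abs_add_le _ _).trans ?_
    rw [abs_mul, abs_mul s, abs_mul (i.f.d : ℝ), abs_of_nonneg c1, abs_of_nonneg c2]
    have : |s| * (i.f.d * |(i.m.add i.f.m2).val x|) ≤ i.f.d * |(i.m.add i.f.m2).val x| :=
      mul_le_of_le_one_left (mul_nonneg c2 (abs_nonneg _)) hs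
    unfold cb
    rw [add_mul]
    linarith
  unfold Itm.re Fac.re
  rcases i.f.s with _ | _
  · have := e 1 (by simp)
    rw [Mon.val_add, Mon.val_add] at this
    refine le_trans (le_of_eq ?_) this
    congr 1
    simp only
    ring
  · have := e (-1) (by simp)
    rw [Mon.val_add, Mon.val_add] at this
    refine le_trans (le_of_eq ?_) this
    congr 1
    simp only
    ring

theorem rab_bd {K : ℕ} {R L : ℝ} (hR : 1 ≤ R) (hL : 0 ≤ L) (it : List Itm) (h : itb K it = true) :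
    ∃ C : ℝ, 0 ≤ C ∧ ∀ x, Dom0 R L x → rab x it ≤ C * rho x ^ K := by
  induction it with
  | nil => exact ⟨0, le_rfl, fun x _ => by simp [rab]⟩
  | cons i it ih =>
    obtain ⟨h1, h2, h4⟩ := itb_cons h
    obtain ⟨C, hC, hC'⟩ := ih h4
    have hcb := cb_nonneg hR hL i
    refine ⟨cb R L i + C, by positivity, fun x hx => ?_⟩
    have := itm_le hR hx h1 h2
    have := hC' x hx
    rw [rab]
    linarith

theorem rz2_bd {K : ℕ} {R L : ℝ} (hR : 1 ≤ R) (hL : 0 ≤ L) (it : List Itm) (h : itb K it = true) :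
    ∃ C : ℝ, 0 ≤ C ∧ ∀ x, Dom0 R L x → rz2 x it ≤ C * (rho x ^ K) ^ 2 := by
  induction it with
  | nil => exact ⟨0, le_rfl, fun x _ => by simp [rz2]⟩
  | cons i it ih =>
    obtain ⟨h1, h2, h4⟩ := itb_cons h
    obtain ⟨C, hC, hC'⟩ := ih h4
    have hcb := cb_nonneg hR hL i
    refine ⟨(cb R L i) ^ 2 + C, by positivity, fun x hx => ?_⟩
    have h5 := itm_le hR hx h1 h2
    have h6 := hC' x hx
    have h7 : i.re x ^ 2 ≤ (cb R L i * rho x ^ K) ^ 2 := by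
      rw [← sq_abs]
      exact pow_le_pow_left₀ (abs_nonneg _) h5 2
    rw [rz2]
    nlinarith

theorem rsq_bd {B off : ℕ} (hB : B = 2 * off) (h0 : 0 < off) {K : ℕ} {R L : ℝ} (hR : 1 ≤ R)
    (hL : 0 ≤ L)
    (it : List Itm) (h : itb K it = true) (Ls : List ℕ) :
    ∃ C : ℝ, 0 ≤ C ∧ ∀ x, Dom0 R L x → rsq B off x it Ls ≤ C * (rho x ^ K) ^ 2 := by
  induction it generalizing Ls with
  | nil => exact ⟨0, le_rfl, fun x _ => by simp [rsq]⟩
  | cons i it ih =>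
    cases Ls with
    | nil => exact ⟨0, le_rfl, fun x _ => by simp [rsq]⟩
    | cons l Ls =>
      obtain ⟨C, hC, hC'⟩ := ih (itb_cons h).2.2 Ls
      obtain ⟨D, hD, hD'⟩ := rab_bd hR hL (i :: it) h
      refine ⟨(off * D) ^ 2 + C, by positivity, fun x hx => ?_⟩
      have h1 := rl_abs hB h0 x (i :: it) l
      have h2 := hD' x hx
      have h3 := hC' x hx
      have hoff : (0 : ℝ) ≤ off := Nat.cast_nonneg _
      have h4 : |rl B off x (i :: it) l| ≤ off * D * rho x ^ K := by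
        refine h1.trans ?_
        rw [mul_assoc]
        exact mul_le_mul_of_nonneg_left h2 hoff
      have h5 : rl B off x (i :: it) l ^ 2 ≤ (off * D * rho x ^ K) ^ 2 := by
        rw [← sq_abs]
        exact pow_le_pow_left₀ (abs_nonneg _) h4 2
      rw [rsq]
      nlinarith

/-- **the form of a block is bounded** -/
theorem q_bd {b : Blk} {k : ℕ} {r : Rad} (hb : b.ok k r = true) {K : ℕ}
    (hi : itb K b.its = true) {R L : ℝ} (hR : 1 ≤ R) (hL : 0 ≤ L) :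
    ∃ C : ℝ, 0 ≤ C ∧ ∀ x, Dom0 R L x → b.q x ≤ C * (1 + x.f ^ 2 + x.g ^ 2) ^ K := by
  simp only [Blk.ok, Bool.and_eq_true, Nat.blt_eq] at hb
  obtain ⟨⟨⟨⟨⟨⟨_, _⟩, h3⟩, h4⟩, h5⟩, h6⟩, _⟩ := hb
  have h3 := Nat.eq_of_beq_eq_true h3
  have h5 := Nat.eq_of_beq_eq_true h5
  obtain ⟨C, hC, hC'⟩ := rsq_bd h3 h4 hR hL b.its hi b.L
  obtain ⟨D, hD, hD'⟩ := rz2_bd hR hL b.its hi
  refine ⟨C + b.dl * D + (b.its.length + 1) * b.offE * D, by positivity, fun x hx => ?_⟩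
  have e : (rho x ^ K) ^ 2 = (1 + x.f ^ 2 + x.g ^ 2) ^ K := by
    rw [← rho_sq, ← pow_mul, ← pow_mul, mul_comm]
  have h7 := hC' x hx
  have h8 := hD' x hx
  have h9 := rex_abs h5 h6 x b.its b.E
  have h10 := le_abs_self (rex b.BE b.offE x b.its b.E)
  rw [e] at h7 h8
  have h11 : (b.dl : ℝ) * rz2 x b.its ≤ b.dl * (D * (1 + x.f ^ 2 + x.g ^ 2) ^ K) :=
    mul_le_mul_of_nonneg_left h8 (Nat.cast_nonneg _)
  have h12 : ((b.its.length : ℝ) + 1) * b.offE * rz2 x b.its ≤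
      ((b.its.length : ℝ) + 1) * b.offE * (D * (1 + x.f ^ 2 + x.g ^ 2) ^ K) :=
    mul_le_mul_of_nonneg_left h8 (by positivity)
  have h13 : 0 ≤ ((b.its.length : ℝ) + 1) * b.offE * (D * (1 + x.f ^ 2 + x.g ^ 2) ^ K) := by
    positivity
  rw [Blk.q]
  nlinarith

end Pool.Agent.Helper65.CKY.Bdd
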