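import Pool.Agent.Helper65.CKY.Bdd
set_option autoImplicit false

/-!
# Project CKY: from certificates of the vertices with common disc blocks to the inequalities
-/

namespace Pool.Agent.Helper65.CKY

open Pool.Sos71
open Pool.Agent.Helper42.CKC (mLc wm wm_q GoodC Goods brs_append bok_append cert_s xSC)

/-- the domain -/
structure DomY (R : ℝ) (Ln Ld : ℤ) (y : Pnt) : Prop where
  b0 : 0 ≤ y.b
  c0 : 0 ≤ y.c
  u1 : y.b ^ 2 + y.c ^ 2 = 1
  a0 : 0 ≤ y.a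
  a1 : (Ld : ℝ) * y.a ≤ Ln
  r : y.b * y.c * Pool.Agent.Helper42.CKC.Bdd.rho y ≤ R

variable {R : ℝ} {Ln Ld : ℤ}

theorem DomY.dom0 {y : Pnt} (h : DomY R Ln Ld y) (hd : 0 < Ld) :
    Bdd.Dom0 R ((Ln : ℝ) / Ld) y := by
  have hd' : (0 : ℝ) < Ld := by exact_mod_cast hd
  refine ⟨h.a0, ?_, h.b0, ?_, h.c0, ?_, h.r⟩
  · rw [le_div_iff₀ hd']
    linarith [h.a1]
  · nlinarith [h.u1, sq_nonneg y.c, h.b0]
  · nlinarith [h.u1, sq_nonneg y.b, h.c0]

theorem mLc_nonnegY {y : Pnt} (h : DomY R Ln Ld y) : 0 ≤ (mLc Ln Ld).re y := by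
  have e : (mLc Ln Ld).re y = y.a * (Ln - Ld * y.a) := by
    show y.a * ((Ln : ℝ) + ((-Ld : ℤ) : ℝ) * y.a) = _
    push_cast
    ring
  rw [e]
  exact mul_nonneg h.a0 (by linarith [h.a1])

theorem xSC_nonnegY {y : Pnt} (h : DomY R Ln Ld y) : 0 ≤ xSC.re y := mul_nonneg h.b0 h.c0

theorem goodC_nonnegY {b : Blk} (g : GoodC Ln Ld b) {y : Pnt} (h : DomY R Ln Ld y) :
    0 ≤ b.mult.re y := by
  rcases g with g | g | g | g
  · rw [g]
    show (0:ℝ) ≤ ((1 : ℤ) : ℝ)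
    norm_num
  · rw [g]
    exact xSC_nonnegY h
  · rw [g]
    exact mLc_nonnegY h
  · rw [g]
    exact mul_nonneg (xSC_nonnegY h) (mLc_nonnegY h)

theorem brs_nonnegY {k : ℕ} {r : Rad} {N : Bd} {bs : List Blk} (h : bok k r N bs = true)
    (hg : Goods Ln Ld bs) {y : Pnt} (hy : DomY R Ln Ld y) : 0 ≤ brs y bs := by
  induction bs with
  | nil => exact le_rfl
  | cons b bs ih =>
    simp only [bok, Bool.and_eq_true] at h
    exact add_nonneg (mul_nonneg (goodC_nonnegY hg.1 hy) (Blk.q_nonneg h.1.1 y)) (ih h.2 hg.2)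

/-- the inequalities of one side for the vertices `VT` (vertex, target), with the factors of the
discs `QL` (polynomial, the two factors), the polynomials are in `BS` -/
def SideY (K : ℕ) (Ln Ld : ℤ) (BS : List (List ℤ)) (VT : List (List ℤ × Ex)) : Prop :=
  ∃ QL : List (List ℤ × (Pnt → ℝ) × (Pnt → ℝ)), (∀ q ∈ QL, q.1 ∈ BS) ∧
    ∀ R : ℝ, 1 ≤ R → ∃ B : ℝ, 0 ≤ B ∧ ∀ y : Pnt, DomY R Ln Ld y →
      (∀ q ∈ QL, 0 ≤ q.2.1 y ∧ q.2.1 y ≤ B * (1 + y.f ^ 2 + y.g ^ 2) ^ (K + 1) ∧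
        0 ≤ q.2.2 y ∧ q.2.2 y ≤ B * (1 + y.f ^ 2 + y.g ^ 2) ^ (K + 1)) ∧
      ∀ vt ∈ VT, (QL.map fun q => q.2.1 y * (eDv 1 q.1 vt.1).re y +
        q.2.2 y * (eDv (-1) q.1 vt.1).re y).sum ≤ vt.2.re y

/-- the blocks of the discs at the vertex `c` -/
def dbl (c : List ℤ) : List (List ℤ × Blk × Blk) → List Blk
  | [] => []
  | q :: L => wm (eDv 1 q.1 c) q.2.1 :: wm (eDv (-1) q.1 c) q.2.2 :: dbl c L

theorem brs_dbl (y : Pnt) (c : List ℤ) (DL : List (List ℤ × Blk × Blk)) :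
    brs y (dbl c DL) = (DL.map fun q => (eDv 1 q.1 c).re y * q.2.1.q y +
      (eDv (-1) q.1 c).re y * q.2.2.q y).sum := by
  induction DL with
  | nil => rfl
  | cons q L ih =>
    rw [List.map_cons, List.sum_cons, ← ih]
    show (eDv 1 q.1 c).re y * q.2.1.q y + ((eDv (-1) q.1 c).re y * q.2.2.q y +
      brs y (dbl c L)) = _
    ring

/-- the certificate of one vertex -/
def CertY (Ln Ld : ℤ) (s : ℕ) (DL : List (List ℤ × Blk × Blk)) (vt : List ℤ × Ex) : Prop :=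
  ∃ (c : Cert) (bs : List Blk), c.check = true ∧ c.target = vt.2 ∧
    c.blocks = bs ++ dbl vt.1 DL ∧ Goods Ln Ld bs ∧ c.s = s

/-- the disc blocks are correct -/
theorem dbl_ok {k : ℕ} {r : Rad} {N : Bd} {c : List ℤ} {DL : List (List ℤ × Blk × Blk)}
    (h : bok k r N (dbl c DL) = true) : ∀ q ∈ DL, ∃ e1 e2 : Ex,
      (wm e1 q.2.1).ok k r = true ∧ (wm e2 q.2.2).ok k r = true := by
  induction DL with
  | nil => intro q hq; exact absurd hq List.not_mem_nil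
  | cons a L ih =>
    simp only [dbl, bok, Bool.and_eq_true] at h
    obtain ⟨⟨h1, _⟩, ⟨h2, _⟩, h3⟩ := h
    intro q hq
    rcases List.mem_cons.1 hq with rfl | hq
    · exact ⟨_, _, h1, h2⟩
    · exact ih h3 q hq

/-- the common bound of the disc blocks -/
theorem dbl_bd {k : ℕ} {r : Rad} {K : ℕ} {L : ℝ} (hR : 1 ≤ R) (hL : 0 ≤ L)
    (DL : List (List ℤ × Blk × Blk))
    (h : ∀ q ∈ DL, ∃ e1 e2 : Ex, (wm e1 q.2.1).ok k r = true ∧ (wm e2 q.2.2).ok k r = true)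
    (hi : ∀ q ∈ DL, Pool.Agent.Helper42.CKC.Bdd.itb K q.2.1.its = true ∧
      Pool.Agent.Helper42.CKC.Bdd.itb K q.2.2.its = true) :
    ∃ C : ℝ, 0 ≤ C ∧ ∀ q ∈ DL, ∀ x : Pnt, Bdd.Dom0 R L x →
      q.2.1.q x ≤ C * (1 + x.f ^ 2 + x.g ^ 2) ^ K ∧
      q.2.2.q x ≤ C * (1 + x.f ^ 2 + x.g ^ 2) ^ K := by
  induction DL with
  | nil => exact ⟨0, le_rfl, fun q hq => absurd hq List.not_mem_nil⟩
  | cons a DL ih =>
    obtain ⟨C, hC, hC'⟩ := ih (fun q hq => h q (List.mem_cons_of_mem _ hq))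
      fun q hq => hi q (List.mem_cons_of_mem _ hq)
    obtain ⟨e1, e2, k1, k2⟩ := h a List.mem_cons_self
    obtain ⟨i1, i2⟩ := hi a List.mem_cons_self
    obtain ⟨C1, hC1, q1⟩ := Bdd.q_bd k1 i1 hR hL
    obtain ⟨C2, hC2, q2⟩ := Bdd.q_bd k2 i2 hR hL
    refine ⟨C1 + C2 + C, by positivity, fun q hq x hx => ?_⟩
    have hp : 0 ≤ (1 + x.f ^ 2 + x.g ^ 2) ^ K := by positivity
    have m1 := mul_nonneg hC hp
    have m2 := mul_nonneg hC1 hp
    have m3 := mul_nonneg hC2 hp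
    rw [add_mul, add_mul]
    rcases List.mem_cons.1 hq with rfl | hq
    · have a1 : q.2.1.q x ≤ C1 * (1 + x.f ^ 2 + x.g ^ 2) ^ K := q1 x hx
      have a2 : q.2.2.q x ≤ C2 * (1 + x.f ^ 2 + x.g ^ 2) ^ K := q2 x hx
      exact ⟨by linarith, by linarith⟩
    · obtain ⟨a1, a2⟩ := hC' q hq x hx
      exact ⟨by linarith, by linarith⟩

theorem sum_map_div {ι : Type} (L : List ι) (f : ι → ℝ) (s : ℝ) :
    (L.map fun i => f i / s).sum = (L.map f).sum / s := by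
  induction L with
  | nil => simp
  | cons i L ih =>
    rw [List.map_cons, List.sum_cons, ih, List.map_cons, List.sum_cons]
    ring

/-- one certificate -/
theorem le_of_certY {s : ℕ} {DL : List (List ℤ × Blk × Blk)} {vt : List ℤ × Ex}
    (h : CertY Ln Ld s DL vt) {y : Pnt} (hy : DomY R Ln Ld y) :
    (DL.map fun q => q.2.1.q y / s * (eDv 1 q.1 vt.1).re y +
      q.2.2.q y / s * (eDv (-1) q.1 vt.1).re y).sum ≤ vt.2.re y := by
  obtain ⟨c, bs, h1, h2, h3, h4, h5⟩ := h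
  obtain ⟨hs, hk⟩ := cert_s h1
  have key := Cert.sound h1 y
  rw [h5] at hs key
  rw [h3] at hk
  obtain ⟨k5, -⟩ := bok_append hk
  have k4 := brs_nonnegY k5 h4 hy
  rw [h3, brs_append, brs_dbl, h2] at key
  have e : (DL.map fun q => q.2.1.q y / s * (eDv 1 q.1 vt.1).re y +
      q.2.2.q y / s * (eDv (-1) q.1 vt.1).re y).sum =
      (DL.map fun q => (eDv 1 q.1 vt.1).re y * q.2.1.q y +
      (eDv (-1) q.1 vt.1).re y * q.2.2.q y).sum / s := by
    rw [← sum_map_div]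
    congr 1
    exact List.map_congr_left fun q _ => by ring
  rw [e, div_le_iff₀ hs]
  linarith

/-- **one side from the certificates of the vertices** -/
theorem side_ofY {K : ℕ} (hd : 0 < Ld) {DL : List (List ℤ × Blk × Blk)} {s : ℕ}
    {VT : List (List ℤ × Ex)} (H : ∀ vt ∈ VT, CertY Ln Ld s DL vt)
    (hi : ∀ q ∈ DL, Pool.Agent.Helper42.CKC.Bdd.itb (K + 1) q.2.1.its = true ∧
      Pool.Agent.Helper42.CKC.Bdd.itb (K + 1) q.2.2.its = true) :
    SideY K Ln Ld (DL.map Prod.fst) VT := by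
  cases VT with
  | nil =>
    exact ⟨[], fun q hq => absurd hq List.not_mem_nil, fun R hR => ⟨0, le_rfl, fun y hy =>
      ⟨fun q hq => absurd hq List.not_mem_nil, fun vt hvt => absurd hvt List.not_mem_nil⟩⟩⟩
  | cons vt0 VT =>
    obtain ⟨c, bs, h1, h2, h3, h4, h5⟩ := H vt0 List.mem_cons_self
    obtain ⟨hs, hk⟩ := cert_s h1
    rw [h5] at hs
    rw [h3] at hk
    obtain ⟨-, hk2⟩ := bok_append hk
    have hok := dbl_ok hk2
    refine ⟨DL.map fun q => (q.1, (fun y => q.2.1.q y / s), (fun y => q.2.2.q y / s)),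
      fun q hq => ?_, fun R hR => ?_⟩
    · obtain ⟨q', hq', rfl⟩ := List.mem_map.1 hq
      exact List.mem_map.2 ⟨q', hq', rfl⟩
    · by_cases hL : 0 ≤ (Ln : ℝ) / Ld
      · obtain ⟨C, hC, hC'⟩ := dbl_bd hR hL DL hok hi
        refine ⟨C / s, by positivity, fun y hy => ⟨fun q hq => ?_, fun vt hvt => ?_⟩⟩
        · obtain ⟨q', hq', rfl⟩ := List.mem_map.1 hq
          obtain ⟨a1, a2⟩ := hC' q' hq' y (hy.dom0 hd)
          obtain ⟨e1, e2, k1, k2⟩ := hok q' hq'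
          have p1 : 0 ≤ q'.2.1.q y := Blk.q_nonneg k1 y
          have p2 : 0 ≤ q'.2.2.q y := Blk.q_nonneg k2 y
          refine ⟨div_nonneg p1 hs.le, ?_, div_nonneg p2 hs.le, ?_⟩
          · rw [div_mul_eq_mul_div]
            exact div_le_div_of_nonneg_right a1 hs.le
          · rw [div_mul_eq_mul_div]
            exact div_le_div_of_nonneg_right a2 hs.le
        · have k := le_of_certY (H vt hvt) hy
          simp only [List.map_map, Function.comp_def]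
          exact k
      · refine ⟨0, le_rfl, fun y hy => ?_⟩
        exact absurd ((hy.dom0 hd).a0.trans (hy.dom0 hd).a1) hL

/-- a side without discs -/
theorem side_ofY0 {K : ℕ} (hd : 0 < Ld) {s : ℕ} {VT : List (List ℤ × Ex)}
    (H : ∀ vt ∈ VT, CertY Ln Ld s [] vt) (BS : List (List ℤ)) : SideY K Ln Ld BS VT := by
  obtain ⟨QL, h1, h2⟩ := side_ofY (K := K) hd H fun q hq => absurd hq List.not_mem_nil
  exact ⟨QL, fun q hq => absurd (h1 q hq) List.not_mem_nil, h2⟩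

end Pool.Agent.Helper65.CKY
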