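import Pool.Agent.Helper65.CKY.Point
import Pool.Agent.Helper65.CKY.Side
import Pool.Agent.Helper11.CKC.FastH
import Pool.Agent.Helper65.CKC.SecI
set_option autoImplicit false
open Complex MeasureTheory Metric Set
open scoped Real ComplexConjugate

/-!
# Project CKY: the inequality `PtX` in a direction of the cone
-/

namespace Pool.Agent.Helper65.CKY

open Pool.Sos71 Pool.EK71 Pool.Agent.Helper2.EK
open Pool.Agent.Helper52.EK hiding ee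
open Pool.Agent.Helper69.EK3 (AP aev af rF rF_eq)
open Pool.Agent.Helper71.CK (LIn LOut)
open Pool.Agent.Helper20.EK7 (InL OutL OutD)
open Pool.Agent.Helper99.CKC
open Pool.Agent.Helper11.CKC (CL MSc Mqc MqA)
open Pool.Agent.Helper42.CKC

theorem rF_div' (p0 p1 p2 r : ℝ) (w : ℂ) :
    rF (p0 / r) (p1 / r) (p2 / r) w = rF p0 p1 p2 w / r := by
  unfold rF
  ring

/-- the radius of the domain in `y` -/
noncomputable def RY (τ : ℝ) : ℝ := 1 + 5 * ‖(1 : ℂ) + I * τ‖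

theorem one_le_RY (τ : ℝ) : 1 ≤ RY τ := by
  unfold RY
  have := norm_nonneg ((1 : ℂ) + I * τ)
  linarith

theorem dom_ptY {Ln Ld : ℤ} {l η τ : ℝ} {x : ℂ} (W : ℂ) (hη : η ∈ Icc (0:ℝ) π)
    (hx : Real.sin η * ‖x‖ ≤ 10) (h0 : 0 ≤ l) (h1 : (Ld : ℝ) * l ≤ Ln) :
    DomY (RY τ) Ln Ld (pt7 l η W (yx τ x)) := by
  obtain ⟨s0, s1, c0, c1⟩ := half_bd hη
  have hs := sin_half η
  have hr : Pool.Agent.Helper42.CKC.Bdd.rho (pt7 l η W (yx τ x)) ≤ 1 + ‖yx τ x‖ := by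
    have e2 : ‖yx τ x‖ ^ 2 = (yx τ x).re ^ 2 + (yx τ x).im ^ 2 := by
      rw [← Complex.normSq_eq_norm_sq, Complex.normSq_apply]
      ring
    unfold Pool.Agent.Helper42.CKC.Bdd.rho
    show Real.sqrt (1 + (yx τ x).re ^ 2 + (yx τ x).im ^ 2) ≤ _
    rw [Real.sqrt_le_left (by positivity)]
    nlinarith [norm_nonneg (yx τ x)]
  refine ⟨s0, c0, Real.sin_sq_add_cos_sq _, h0, h1, ?_⟩
  have h3 : 0 ≤ Real.sin (η / 2) * Real.cos (η / 2) := mul_nonneg s0 c0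
  have h4 := mul_le_mul_of_nonneg_left hr h3
  refine h4.trans ?_
  have h5 : Real.sin (η / 2) * Real.cos (η / 2) * (1 + ‖yx τ x‖) =
      Real.sin η / 2 + Real.sin η * ‖x‖ * ‖(1 : ℂ) + I * τ‖ / 2 := by
    rw [hs, norm_yx]
    ring
  rw [h5]
  have h6 := mul_le_mul_of_nonneg_right hx (norm_nonneg ((1 : ℂ) + I * τ))
  unfold RY
  linarith [Real.sin_le_one η]

/-- the bound of the factors of the discs -/
theorem k_bdY {B N Dk M Q t Z : ℝ} {K : ℕ} (hB : 0 ≤ B) (hM : 0 < M) (hZ : 0 < Z) (ht : 1 ≤ t)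
    (hD : 0 < Dk) (hN : t ≤ N * Dk) (hQ : Q ≤ B * t ^ (K + 1)) :
    Q / (2 * M * Z * Dk ^ K) ≤ B * N ^ K / (2 * M * Z) * t := by
  have h0 : 0 < t := by linarith
  have hDK : 0 < Dk ^ K := pow_pos hD K
  rw [div_le_iff₀ (by positivity)]
  have h1 : t ^ K ≤ (N * Dk) ^ K := pow_le_pow_left₀ h0.le hN K
  have h2 : B * t * t ^ K ≤ B * t * (N * Dk) ^ K := mul_le_mul_of_nonneg_left h1 (by positivity)
  have e : B * N ^ K / (2 * M * Z) * t * (2 * M * Z * Dk ^ K) = B * t * (N * Dk) ^ K := by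
    rw [mul_pow]
    field_simp
  rw [e]
  refine hQ.trans (le_trans (le_of_eq ?_) h2)
  rw [pow_succ]
  ring

/-- sums of bounded terms -/
theorem sum_bd {ι : Type} (L : List ι) (a q : ι → ℝ) {B : ℝ} (ha : ∀ i ∈ L, 0 ≤ a i)
    (hq : ∀ i ∈ L, 0 ≤ q i ∧ q i ≤ B) :
    0 ≤ (L.map fun i => a i * q i).sum ∧ (L.map fun i => a i * q i).sum ≤ (L.map a).sum * B := by
  induction L with
  | nil => simp
  | cons i L ih =>
    obtain ⟨h1, h2⟩ := ih (fun j hj => ha j (List.mem_cons_of_mem _ hj))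
      fun j hj => hq j (List.mem_cons_of_mem _ hj)
    obtain ⟨h3, h4⟩ := hq i List.mem_cons_self
    have h5 := ha i List.mem_cons_self
    rw [List.map_cons, List.sum_cons, List.map_cons, List.sum_cons]
    have h6 := mul_nonneg h5 h3
    have h7 := mul_le_mul_of_nonneg_left h4 h5
    constructor
    · linarith
    · rw [add_mul]
      linarith

namespace DatY

/-- conditions on the data: `BS` polynomials of the discs, `VS` vertices -/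
structure Ok (D : DatY) (VS : List Vy) (BS : List (List ℤ)) (Ln Ld Ln' Ld' : ℤ) : Prop where
  wf : D.wf = true
  deg : D.degB = true
  bs : ∀ p ∈ BS, p.length ≤ 2 * D.m + 1
  v0 : ∀ g ∈ D.V, okGs g.2 = true
  f0 : ∀ g ∈ D.F, okGs g.2 = true
  hm : ∀ v ∈ VS, v.HM.all HmC.ok = true
  tw0 : ∀ v ∈ VS, 0 ≤ D.tw v
  M0 : 0 < D.M
  F0 : 0 < D.Fd
  MF : D.M = D.Fd ^ 2 * D.Mt
  rd0 : 0 < D.rd
  Ld0 : 0 < Ld
  Ld0' : 0 < Ld'
  inL : InL (D.p0 / D.rd) (D.p1 / D.rd) (D.p2 / D.rd)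
  outD : OutD (D.q0 / D.rd) (D.q1 / D.rd) (D.q2 / D.rd)
  lIn : LIn (D.p0 / D.rd) (D.p1 / D.rd) (D.p2 / D.rd) (Ln / Ld)
  lOut : LOut (D.q0 / D.rd) (D.q1 / D.rd) (D.q2 / D.rd) (Ln' / Ld')

variable {D : DatY} {VS : List Vy} {BS : List (List ℤ)} {Ln Ld Ln' Ld' : ℤ}

theorem Ok.null (o : D.Ok VS BS Ln Ld Ln' Ld') (s : Vy → ℝ) (τ : ℝ) : NullX τ (D.NN VS s τ) := by
  have a1 : NullX τ (fun x q η => (D.V.map fun g => pv g.1 τ *
      NGsY D.d τ (1 / ((1 + τ ^ 2 : ℝ) : ℂ)) 0 g.2 x q η).sum) :=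
    NullX.list D.V fun g hg => (nullX_GsY D.d τ _ 0 g.2 (o.v0 g hg)).const_mul (pv g.1 τ)
  have a2 : NullX τ (fun x q η => (D.F.map fun g => pv g.1 τ *
      NGsY D.d τ (1 / (1 - I * τ)) 1 g.2 x q η).sum) :=
    NullX.list D.F fun g hg => (nullX_GsY D.d τ _ 1 g.2 (o.f0 g hg)).const_mul (pv g.1 τ)
  have a3 : NullX τ (fun x q η => mn VS s (fun v => NHms v.HM (yx τ x) q η)) :=
    NullX.list VS fun v hv => (nullX_HmsY τ v.HM (o.hm v hv)).const_mul (s v)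
  exact ((((a1.add a2).const_mul (1 + τ ^ 2)).add a3).const_mul
    (1 / (D.M * (1 + τ ^ 2) ^ (D.m + 1))))

/-- the factors of the discs -/
theorem disc_ex (o : D.Ok VS BS Ln Ld Ln' Ld') {s : Vy → ℝ} {τ : ℝ}
    (hs : ∀ v ∈ VS, 0 ≤ s v) (hb : ∀ p ∈ BS, 0 ≤ pv p τ) (hR : Rep (2 * D.m + 2) VS s τ)
    {Lm Le : ℤ} {VT : List (List ℤ × Ex)} (hS : SideY D.K Lm Le BS VT) {sg r0 r1 r2 : ℤ}
    {f : Vy → Fl} {L0 L1 : CL} (h0 : ∀ t ∈ L0, t.2.1 ≤ 2) (h1 : ∀ t ∈ L1, t.2.1 ≤ 2)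
    {R : Vy → List Rm} (hVT : ∀ v ∈ VS, (v.c, D.target v sg r0 r1 r2 (f v) L0 L1 (R v)) ∈ VT) :
    ∃ B : ℝ, 0 ≤ B ∧ ∀ (x q : ℂ) (η : ℝ), η ∈ Icc (0:ℝ) π → Real.sin η * ‖x‖ ≤ 10 →
      ∀ l : ℝ, 0 ≤ l → (Le : ℝ) * l ≤ Lm →
      D.rd * (‖wx x q (Real.sin η) (Real.cos η)‖ ^ 2 - 1) +
        sg * l * rF r0 r1 r2 (wx x q (Real.sin η) (Real.cos η)) = 0 →
      ∃ k1 k2 : ℝ, 0 ≤ k1 ∧ k1 ≤ B * (1 + ‖x‖ ^ 2) ∧ 0 ≤ k2 ∧ k2 ≤ B * (1 + ‖x‖ ^ 2) ∧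
        ‖cfY D VS s τ (fun v => v.gm) * wx x q (Real.sin η) (Real.cos η) +
          cfY D VS s τ (fun v => (v.cR : ℂ) + v.cI * I) +
          (l : ℂ) * ((sg * cfY D VS s τ (fun v => ((f v).aR : ℂ) + (f v).aI * I)) *
              wx x q (Real.sin η) (Real.cos η) +
            sg * cfY D VS s τ (fun v => ((f v).bR : ℂ) + (f v).bI * I)) -
          e0 (Real.sin η) (Real.cos η)‖ ^ 2 +
          k1 * dpol τ 1 x q (Real.sin η) (Real.cos η) +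
          k2 * dpol τ (-1) x q (Real.sin η) (Real.cos η) ≤
        -(mn VS s (fun v => (v.ka : ℝ)) / (D.M * (1 + τ ^ 2) ^ D.m)) * x.re +
          (mn VS s (fun v => (v.ka : ℝ)) + pv D.nu τ) / (D.M * (1 + τ ^ 2) ^ D.m) *
            (‖x‖ ^ 2 + x.re) + D.NN VS s τ x q η +
          ((MSc L0 l (wx x q (Real.sin η) (Real.cos η)) / D.M + (τ : ℂ) *
            (MSc L1 l (wx x q (Real.sin η) (Real.cos η)) / D.M)) *
            e0 (Real.sin η) (Real.cos η) * ((1 + I * τ) / 2 * x ^ 2 + x)).re := by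
  obtain ⟨QL, hQB, hQ⟩ := hS
  obtain ⟨B, hB, hQ2⟩ := hQ (RY τ) (one_le_RY τ)
  have hM : (0:ℝ) < D.M := by exact_mod_cast o.M0
  have hN : (0:ℝ) < D.d.N := by exact_mod_cast D.d.hN
  have hZ : 0 < (1 + τ ^ 2) ^ (D.m + 1) := by positivity
  have hS0 : 0 ≤ (QL.map fun g => pv g.1 τ).sum := by
    have := (sum_bd QL (fun g => pv g.1 τ) (fun _ => (1:ℝ)) (B := 1)
      (fun g hg => hb _ (hQB g hg)) (fun _ _ => ⟨zero_le_one, le_rfl⟩)).1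
    simpa using this
  obtain ⟨S, hSe⟩ : ∃ S, S = (QL.map fun g => pv g.1 τ).sum := ⟨_, rfl⟩
  rw [← hSe] at hS0
  refine ⟨S * B * D.d.N ^ D.K / (2 * D.M * (1 + τ ^ 2) ^ (D.m + 1)) * (1 + τ ^ 2), by positivity,
    fun x q η hη hx l l0 l1 hr => ?_⟩
  obtain ⟨a1, a2⟩ := hQ2 _ (dom_ptY (2 * x + q) hη hx l0 l1 (τ := τ))
  have key := side_ptY (QL := QL.map fun g => (g.1, g.2.1 (pt7 l η (2 * x + q) (yx τ x)),
      g.2.2 (pt7 l η (2 * x + q) (yx τ x)))) (wf_iff D o.wf) o.deg o.M0 o.F0 o.MF hs o.tw0 hR h0 h1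
    (R := R) (f := f) (fun g hg => by
      obtain ⟨g', hg', rfl⟩ := List.mem_map.1 hg
      exact o.bs _ (hQB g' hg')) (fun v hv => by
      have h := a2 _ (hVT v hv)
      simp only [List.map_map, Function.comp_def] at h ⊢
      exact h) hr
  simp only [List.map_map, Function.comp_def] at key
  have e2 : (pt7 l η (2 * x + q) (yx τ x)).f ^ 2 + (pt7 l η (2 * x + q) (yx τ x)).g ^ 2 =
      ‖yx τ x‖ ^ 2 := by
    rw [← Complex.normSq_eq_norm_sq, Complex.normSq_apply]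
    show (yx τ x).re ^ 2 + (yx τ x).im ^ 2 = _
    ring
  have e3 : 1 + (pt7 l η (2 * x + q) (yx τ x)).f ^ 2 + (pt7 l η (2 * x + q) (yx τ x)).g ^ 2 =
      1 + ‖yx τ x‖ ^ 2 := by rw [add_assoc, e2]
  have hN2 : 1 + ‖yx τ x‖ ^ 2 ≤ D.d.N * Dc D.d (yx τ x).re (yx τ x).im := by
    have h := Dc_low D.d (yx τ x).re (yx τ x).im
    have e2 : ‖yx τ x‖ ^ 2 = (yx τ x).re ^ 2 + (yx τ x).im ^ 2 := by
      rw [← Complex.normSq_eq_norm_sq, Complex.normSq_apply]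
      ring
    rw [e2]
    exact h
  have ht1 : (1:ℝ) ≤ 1 + ‖yx τ x‖ ^ 2 := le_add_of_nonneg_right (sq_nonneg _)
  have htx : 1 + ‖yx τ x‖ ^ 2 ≤ (1 + τ ^ 2) * (1 + ‖x‖ ^ 2) := by
    rw [yx_nsq]
    have h0 := sq_nonneg τ
    linarith
  have fin : ∀ q' : (List ℤ × (Pnt → ℝ) × (Pnt → ℝ)) → ℝ,
      (∀ g ∈ QL, 0 ≤ q' g ∧ q' g ≤ B * (1 + ‖yx τ x‖ ^ 2) ^ (D.K + 1)) →
      0 ≤ (QL.map fun g => pv g.1 τ * q' g).sum / (2 * D.M * (1 + τ ^ 2) ^ (D.m + 1) *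
        Dc D.d (yx τ x).re (yx τ x).im ^ D.K) ∧
      (QL.map fun g => pv g.1 τ * q' g).sum / (2 * D.M * (1 + τ ^ 2) ^ (D.m + 1) *
        Dc D.d (yx τ x).re (yx τ x).im ^ D.K) ≤
      S * B * D.d.N ^ D.K / (2 * D.M * (1 + τ ^ 2) ^ (D.m + 1)) * (1 + τ ^ 2) *
        (1 + ‖x‖ ^ 2) := by
    intro q' hq'
    obtain ⟨c1, c2⟩ := sum_bd QL (fun g => pv g.1 τ) q' (fun g hg => hb _ (hQB g hg)) hq'
    rw [← hSe, ← mul_assoc] at c2
    have hD1 := Dc_pos D.d (yx τ x).re (yx τ x).im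
    have c3 := k_bdY (mul_nonneg hS0 hB) hM hZ ht1 hD1 hN2 c2
    refine ⟨div_nonneg c1 (by positivity), c3.trans ?_⟩
    rw [mul_assoc _ (1 + τ ^ 2)]
    exact mul_le_mul_of_nonneg_left htx (by positivity)
  have f1 := fin (fun g => g.2.1 (pt7 l η (2 * x + q) (yx τ x))) fun g hg => by
    have := a1 g hg
    rw [e3] at this
    exact ⟨this.1, this.2.1⟩
  have f2 := fin (fun g => g.2.2 (pt7 l η (2 * x + q) (yx τ x))) fun g hg => by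
    have := a1 g hg
    rw [e3] at this
    exact ⟨this.2.2.1, this.2.2.2⟩
  exact ⟨_, _, f1.1, f1.2, f2.1, f2.2, key⟩

/-- **the inequality in a direction** -/
theorem Ok.point (o : D.Ok VS BS Ln Ld Ln' Ld')
    (hI : SideY D.K Ln Ld BS (VS.map fun v => (v.c, D.tIn v)))
    (hO : SideY D.K Ln' Ld' BS (VS.map fun v => (v.c, D.tOut v))) {s : Vy → ℝ} {τ : ℝ}
    (hs : ∀ v ∈ VS, 0 ≤ s v) (hb : ∀ p ∈ BS, 0 ≤ pv p τ) (hR : Rep (2 * D.m + 2) VS s τ) :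
    ∃ B : ℝ, 0 ≤ B ∧ PtX τ (mn VS s (fun v => (v.ka : ℝ)) / (D.M * (1 + τ ^ 2) ^ D.m))
        ((mn VS s (fun v => (v.ka : ℝ)) + pv D.nu τ) / (D.M * (1 + τ ^ 2) ^ D.m)) 0 0 B
        (cfY D VS s τ (fun v => v.gm)) (cfY D VS s τ (fun v => (v.cR : ℂ) + v.cI * I))
        (cfY D VS s τ (fun v => (v.fi.aR : ℂ) + v.fi.aI * I))
        (cfY D VS s τ (fun v => (v.fi.bR : ℂ) + v.fi.bI * I))
        (-cfY D VS s τ (fun v => (v.fo.aR : ℂ) + v.fo.aI * I))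
        (-cfY D VS s τ (fun v => (v.fo.bR : ℂ) + v.fo.bI * I))
        (D.p0 / D.rd) (D.p1 / D.rd) (D.p2 / D.rd) (D.q0 / D.rd) (D.q1 / D.rd) (D.q2 / D.rd)
        (MqA D.M D.MI0 D.MI1 D.MO0 D.MO1 (D.p0 / D.rd) (D.p1 / D.rd) (D.p2 / D.rd)
          (D.q0 / D.rd) (D.q1 / D.rd) (D.q2 / D.rd) τ) (D.NN VS s τ) := by
  have w := wf_iff D o.wf
  have hR' : (0:ℝ) < D.rd := by exact_mod_cast o.rd0
  have hL : (0:ℝ) < Ld := by exact_mod_cast o.Ld0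
  have hL' : (0:ℝ) < Ld' := by exact_mod_cast o.Ld0'
  obtain ⟨B1, hB1, H1⟩ := disc_ex o hs hb hR hI (sg := 1) (r0 := D.p0) (r1 := D.p1) (r2 := D.p2)
    (f := fun v => v.fi) w.i0 w.i1 (R := fun v => v.RI) fun v hv =>
      List.mem_map.2 ⟨v, hv, rfl⟩
  obtain ⟨B2, hB2, H2⟩ := disc_ex o hs hb hR hO (sg := -1) (r0 := D.q0) (r1 := D.q1) (r2 := D.q2)
    (f := fun v => v.fo) w.o0 w.o1 (R := fun v => v.RO) fun v hv =>
      List.mem_map.2 ⟨v, hv, rfl⟩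
  have mon1 : ∀ t : ℝ, 0 ≤ t → B1 * t ≤ (B1 + B2) * t := fun t ht =>
    mul_le_mul_of_nonneg_right (by linarith) ht
  have mon2 : ∀ t : ℝ, 0 ≤ t → B2 * t ≤ (B1 + B2) * t := fun t ht =>
    mul_le_mul_of_nonneg_right (by linarith) ht
  refine ⟨B1 + B2, by positivity, ?_, ?_⟩
  · intro x q η hη hx _ w' hw' h1 l hl
    obtain ⟨c1, c2, c3⟩ := o.lIn.l_bd o.inL h1
    rw [← hl] at c2 c3
    have l1 : (Ld : ℝ) * l ≤ Ln := by
      rw [le_div_iff₀ hL] at c3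
      linarith
    have hr : D.rd * (‖wx x q (Real.sin η) (Real.cos η)‖ ^ 2 - 1) +
        ((1 : ℤ) : ℝ) * l * rF D.p0 D.p1 D.p2 (wx x q (Real.sin η) (Real.cos η)) = 0 := by
      rw [← hw']
      have e1 : l * rF (D.p0 / D.rd) (D.p1 / D.rd) (D.p2 / D.rd) w' = 1 - ‖w'‖ ^ 2 := by
        rw [hl, div_mul_cancel₀ _ c1.ne']
      rw [rF_div'] at e1
      have e2 : l * rF D.p0 D.p1 D.p2 w' = D.rd * (1 - ‖w'‖ ^ 2) := by
        rw [← e1]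
        field_simp
      push_cast
      rw [one_mul, e2]
      ring
    obtain ⟨k1, k2, a1, a2, a3, a4, a5⟩ := H1 x q η hη hx l c2 l1 hr
    have ht : 0 ≤ 1 + ‖x‖ ^ 2 := by positivity
    refine ⟨0, k1, k2, le_rfl, by positivity, a1, a2.trans (mon1 _ ht), a3,
      a4.trans (mon1 _ ht), ?_⟩
    rw [← hw'] at a5
    unfold MqA Mqc
    rw [if_pos h1, if_pos h1, ← hl]
    simp only [Int.cast_one, one_mul] at a5
    simp only [ofReal_zero, zero_mul, sub_zero, add_zero]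
    exact a5
  · intro x q η hη hx _ w' hw' h1 l hl
    have hOL : OutL ((D.q1 : ℝ) / D.rd + D.q2 / D.rd) (D.q0 / D.rd) (D.q1 / D.rd)
      (D.q2 / D.rd) := ⟨rfl, o.outD.pos, o.outD.pos'⟩
    obtain ⟨c1, c2, c3⟩ := o.lOut.l_bd hOL h1.le
    rw [← hl] at c2 c3
    have l1 : (Ld' : ℝ) * l ≤ Ln' := by
      rw [le_div_iff₀ hL'] at c3
      linarith
    have hr : D.rd * (‖wx x q (Real.sin η) (Real.cos η)‖ ^ 2 - 1) +
        ((-1 : ℤ) : ℝ) * l * rF D.q0 D.q1 D.q2 (wx x q (Real.sin η) (Real.cos η)) = 0 := by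
      rw [← hw']
      have e1 : l * rF (D.q0 / D.rd) (D.q1 / D.rd) (D.q2 / D.rd) w' = ‖w'‖ ^ 2 - 1 := by
        rw [hl, div_mul_cancel₀ _ c1.ne']
      rw [rF_div'] at e1
      have e2 : l * rF D.q0 D.q1 D.q2 w' = D.rd * (‖w'‖ ^ 2 - 1) := by
        rw [← e1]
        field_simp
      push_cast
      rw [neg_one_mul, neg_mul, e2]
      ring
    obtain ⟨k1, k2, a1, a2, a3, a4, a5⟩ := H2 x q η hη hx l c2 l1 hr
    have ht : 0 ≤ 1 + ‖x‖ ^ 2 := by positivity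
    refine ⟨0, k1, k2, le_rfl, by positivity, a1, a2.trans (mon2 _ ht), a3,
      a4.trans (mon2 _ ht), ?_⟩
    rw [← hw'] at a5
    unfold MqA Mqc
    rw [if_neg (not_le.2 h1), if_neg (not_le.2 h1), ← hl]
    simp only [Int.cast_neg, Int.cast_one, neg_one_mul] at a5
    simp only [ofReal_zero, zero_mul, sub_zero, add_zero]
    exact a5

end DatY

end Pool.Agent.Helper65.CKY
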