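import Pool.Agent.Helper65.CKY.Val
set_option autoImplicit false
open Complex MeasureTheory Metric Set
open scoped Real ComplexConjugate

/-!
# Project CKY: means over the vertices; the terms of the target are linear in the vertex
-/

namespace Pool.Agent.Helper65.CKY

open Pool.Sos71 Pool.EK71 Pool.Agent.Helper2.EK
open Pool.Agent.Helper52.EK hiding ee
open Pool.Agent.Helper69.EK3 (AP aev af imul_cast' iadd_cast')
open Pool.Agent.Helper99.CKC
open Pool.Agent.Helper11.CKC (CL MSc ineg_cast')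
open Pool.Agent.Helper42.CKC

/-! ### polynomials -/

/-- the value of a polynomial -/
noncomputable def pv : List ℤ → ℝ → ℝ
  | [], _ => 0
  | a :: p, t => a + t * pv p t

theorem pv_shift (p : List ℤ) (t : ℝ) : pv (0 :: p) t = t * pv p t := by
  show ((0 : ℤ) : ℝ) + t * pv p t = _
  rw [Int.cast_zero, zero_add]

theorem pv_padd (p q : List ℤ) (t : ℝ) : pv (padd p q) t = pv p t + pv q t := by
  induction p generalizing q with
  | nil => simp [padd, pv]
  | cons a p ih =>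
    cases q with
    | nil => simp [padd, pv]
    | cons b q =>
      show ((Int.add a b : ℤ) : ℝ) + t * pv (padd p q) t = (a + t * pv p t) + (b + t * pv q t)
      rw [ih, iadd_cast']
      ring

theorem pv_P1 (m : ℕ) (t : ℝ) : pv (P1 m) t = (1 + t ^ 2) ^ m := by
  induction m with
  | zero => simp [P1, pv]
  | succ m ih =>
    show pv (padd (P1 m) (0 :: 0 :: P1 m)) t = _
    rw [pv_padd, pv_shift, pv_shift, ih]
    ring

theorem length_padd (p q : List ℤ) : (padd p q).length = max p.length q.length := by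
  induction p generalizing q with
  | nil => simp [padd]
  | cons a p ih =>
    cases q with
    | nil => simp [padd]
    | cons b q =>
      show (padd p q).length + 1 = _
      rw [ih, List.length_cons, List.length_cons]
      omega

theorem length_P1 (m : ℕ) : (P1 m).length = 2 * m + 1 := by
  induction m with
  | zero => rfl
  | succ m ih =>
    show (padd (P1 m) (0 :: 0 :: P1 m)).length = _
    rw [length_padd, List.length_cons, List.length_cons, ih]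
    omega

theorem dt_drop (a : ℤ) (p c : List ℤ) (k : ℕ) :
    dt (a :: p) (c.drop k) = a * nz c k + dt p (c.drop (k + 1)) := by
  induction c generalizing k with
  | nil => cases p <;> simp [dt, nz]
  | cons b c ih =>
    cases k with
    | zero => rfl
    | succ k => exact ih k

/-! ### means -/

/-- the mean of a function of the vertex -/
noncomputable def mn (vs : List Vy) (s f : Vy → ℝ) : ℝ := (vs.map fun v => s v * f v).sum

/-- the vertices represent the monomials up to degree `n` -/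
def Rep (n : ℕ) (vs : List Vy) (s : Vy → ℝ) (τ : ℝ) : Prop :=
  ∀ j ≤ n, mn vs s (fun v => (nz v.c j : ℝ)) = τ ^ j

section mn
variable {vs : List Vy} {s : Vy → ℝ}

theorem mn_congr {f g : Vy → ℝ} (h : ∀ v ∈ vs, f v = g v) : mn vs s f = mn vs s g := by
  unfold mn
  congr 1
  exact List.map_congr_left fun v hv => by rw [h v hv]

theorem mn_add (f g : Vy → ℝ) : mn vs s (fun v => f v + g v) = mn vs s f + mn vs s g := by
  unfold mn
  induction vs with
  | nil => simp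
  | cons v vs ih =>
    rw [List.map_cons, List.sum_cons, ih, List.map_cons, List.sum_cons, List.map_cons,
      List.sum_cons]
    ring

theorem mn_mul (a : ℝ) (f : Vy → ℝ) : mn vs s (fun v => a * f v) = a * mn vs s f := by
  unfold mn
  induction vs with
  | nil => simp
  | cons v vs ih =>
    rw [List.map_cons, List.sum_cons, ih, List.map_cons, List.sum_cons]
    ring

theorem mn_zero : mn vs s (fun _ => 0) = 0 := by
  unfold mn
  induction vs with
  | nil => simp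
  | cons v vs ih =>
    rw [List.map_cons, List.sum_cons, ih]
    ring

theorem mn_mulr (a : ℝ) (f : Vy → ℝ) : mn vs s (fun v => f v * a) = mn vs s f * a := by
  rw [mul_comm, ← mn_mul]
  exact mn_congr fun v _ => mul_comm _ _

theorem mn_list {ι : Type} (L : List ι) (f : ι → Vy → ℝ) :
    mn vs s (fun v => (L.map fun g => f g v).sum) = (L.map fun g => mn vs s (f g)).sum := by
  induction L with
  | nil => simpa using mn_zero
  | cons g L ih =>
    rw [List.map_cons, List.sum_cons, ← ih, ← mn_add]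
    exact mn_congr fun v _ => by rw [List.map_cons, List.sum_cons]

theorem mn_mono (hs : ∀ v ∈ vs, 0 ≤ s v) {f g : Vy → ℝ} (h : ∀ v ∈ vs, f v ≤ g v) :
    mn vs s f ≤ mn vs s g := by
  unfold mn
  induction vs with
  | nil => simp
  | cons v vs ih =>
    rw [List.map_cons, List.sum_cons, List.map_cons, List.sum_cons]
    exact add_le_add (mul_le_mul_of_nonneg_left (h v List.mem_cons_self) (hs v List.mem_cons_self))
      (ih (fun v hv => hs v (List.mem_cons_of_mem _ hv)) fun v hv => h v (List.mem_cons_of_mem _ hv))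

theorem mn_nonneg (hs : ∀ v ∈ vs, 0 ≤ s v) {f : Vy → ℝ} (h : ∀ v ∈ vs, 0 ≤ f v) :
    0 ≤ mn vs s f := by
  have := mn_mono (f := fun _ => 0) hs h
  rwa [mn_zero] at this

theorem rep_dt_k {n : ℕ} {τ : ℝ} (h : Rep n vs s τ) (p : List ℤ) (k : ℕ)
    (hk : k + p.length ≤ n + 1) :
    mn vs s (fun v => (dt p (v.c.drop k) : ℝ)) = τ ^ k * pv p τ := by
  induction p generalizing k with
  | nil =>
    have : mn vs s (fun v => (dt [] (v.c.drop k) : ℝ)) = mn vs s (fun _ => 0) :=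
      mn_congr fun v _ => by simp [dt]
    rw [this, mn_zero]
    simp [pv]
  | cons a p ih =>
    have e : mn vs s (fun v => (dt (a :: p) (v.c.drop k) : ℝ)) =
        mn vs s (fun v => a * (nz v.c k : ℝ) + (dt p (v.c.drop (k + 1)) : ℝ)) :=
      mn_congr fun v _ => by
        rw [dt_drop]
        push_cast
        rfl
    rw [List.length_cons] at hk
    rw [e, mn_add, mn_mul, ih (k + 1) (by omega), h k (by omega)]
    show _ = τ ^ k * (a + τ * pv p τ)
    ring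

/-- the mean of a polynomial -/
theorem rep_dt {n : ℕ} {τ : ℝ} (h : Rep n vs s τ) (p : List ℤ) (hp : p.length ≤ n + 1) :
    mn vs s (fun v => (dt p v.c : ℝ)) = pv p τ := by
  have := rep_dt_k h p 0 (by omega)
  simpa using this

/-- the mean of a linear function of two numbers -/
theorem mn2 {g : ℝ → ℝ → ℝ} {A B : ℝ} (hg : ∀ a b, g a b = a * A + b * B) (α β : Vy → ℝ) :
    mn vs s (fun v => g (α v) (β v)) = g (mn vs s α) (mn vs s β) := by
  simp only [hg]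
  rw [mn_add, mn_mulr, mn_mulr]

theorem mn3 {g : ℝ → ℝ → ℝ → ℝ} {A B C : ℝ} (hg : ∀ a b c, g a b c = a * A + b * B + c * C)
    (α β γ : Vy → ℝ) :
    mn vs s (fun v => g (α v) (β v) (γ v)) = g (mn vs s α) (mn vs s β) (mn vs s γ) := by
  simp only [hg]
  rw [mn_add, mn_add, mn_mulr, mn_mulr, mn_mulr]

end mn

/-! ### linearity -/

theorem NVv_lin (d : DC) (c0 c1 : ℝ) (k : ℕ) (t : AP × BP × BP) (W y : ℂ) (η : ℝ) :
    NVv d c0 c1 k t W y η = c0 * NVv d 1 0 k t W y η + c1 * NVv d 0 1 k t W y η := by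
  unfold NVv
  rw [← re_ofReal_mul, ← re_ofReal_mul, ← add_re]
  congr 1
  simp only [map_add, map_sub, map_mul, conj_ofReal, conj_I, ofReal_one, ofReal_zero, map_one,
    map_zero]
  ring

theorem sum_lin2 {ι : Type} (L : List ι) {f g h : ι → ℝ} {a b : ℝ}
    (H : ∀ t, f t = a * g t + b * h t) :
    (L.map f).sum = a * (L.map g).sum + b * (L.map h).sum := by
  induction L with
  | nil => simp
  | cons t L ih =>
    rw [List.map_cons, List.sum_cons, ih, List.map_cons, List.sum_cons, List.map_cons,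
      List.sum_cons, H]
    ring

theorem sum_lin3 {ι : Type} (L : List ι) {f g h i : ι → ℝ} {a b c : ℝ}
    (H : ∀ t, f t = a * g t + b * h t + c * i t) :
    (L.map f).sum = a * (L.map g).sum + b * (L.map h).sum + c * (L.map i).sum := by
  induction L with
  | nil => simp
  | cons t L ih =>
    rw [List.map_cons, List.sum_cons, ih, List.map_cons, List.sum_cons, List.map_cons,
      List.sum_cons, List.map_cons, List.sum_cons, H]
    ring

theorem NVsv_lin (d : DC) (L : List GrC) (W y : ℂ) (η : ℝ) (c0 c1 : ℝ) :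
    NVsv d c0 c1 L W y η = c0 * NVsv d 1 0 L W y η + c1 * NVsv d 0 1 L W y η :=
  sum_lin2 L fun G => sum_lin2 G.l fun t => NVv_lin d c0 c1 G.k t W y η

theorem re3 (a b c : ℝ) (x y z : ℂ) :
    a * x.re + b * y.re + c * z.re = ((a : ℂ) * x + b * y + c * z).re := by
  rw [add_re, add_re, re_ofReal_mul, re_ofReal_mul, re_ofReal_mul]

theorem re2 (a b : ℝ) (x y : ℂ) : a * x.re + b * y.re = ((a : ℂ) * x + b * y).re := by
  rw [add_re, re_ofReal_mul, re_ofReal_mul]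

theorem NFv_lin (d : DC) (c0 c1 c2 : ℝ) (k : ℕ) (t : AP × BP × BP) (W y : ℂ) (η : ℝ) :
    NFv d c0 c1 c2 k t W y η = c0 * NFv d 1 0 0 k t W y η + c1 * NFv d 0 1 0 k t W y η +
      c2 * NFv d 0 0 1 k t W y η := by
  unfold NFv
  have e : ((((c0 + c2) * ‖pp W η‖ ^ 2 + c0 * ‖(Real.sin η : ℂ) * y‖ ^ 2 -
      2 * (((c0 : ℂ) + c1 * I) * pp W η * conj (Real.sin η * y)).re : ℝ)) : ℂ) =
      c0 * ((((1 + 0) * ‖pp W η‖ ^ 2 + 1 * ‖(Real.sin η : ℂ) * y‖ ^ 2 -
      2 * ((((1:ℝ) : ℂ) + ((0:ℝ) : ℂ) * I) * pp W η * conj (Real.sin η * y)).re : ℝ)) : ℂ) +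
      c1 * ((((0 + 0) * ‖pp W η‖ ^ 2 + 0 * ‖(Real.sin η : ℂ) * y‖ ^ 2 -
      2 * ((((0:ℝ) : ℂ) + ((1:ℝ) : ℂ) * I) * pp W η * conj (Real.sin η * y)).re : ℝ)) : ℂ) +
      c2 * ((((0 + 1) * ‖pp W η‖ ^ 2 + 0 * ‖(Real.sin η : ℂ) * y‖ ^ 2 -
      2 * ((((0:ℝ) : ℂ) + ((0:ℝ) : ℂ) * I) * pp W η * conj (Real.sin η * y)).re : ℝ)) : ℂ) := by
    rw [← ofReal_mul, ← ofReal_mul, ← ofReal_mul, ← ofReal_add, ← ofReal_add]
    congr 1
    have e1 : (((c0 : ℂ) + c1 * I) * pp W η * conj (Real.sin η * y)).re =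
        c0 * ((((1:ℝ) : ℂ) + ((0:ℝ) : ℂ) * I) * pp W η * conj (Real.sin η * y)).re +
        c1 * ((((0:ℝ) : ℂ) + ((1:ℝ) : ℂ) * I) * pp W η * conj (Real.sin η * y)).re +
        c2 * ((((0:ℝ) : ℂ) + ((0:ℝ) : ℂ) * I) * pp W η * conj (Real.sin η * y)).re := by
      rw [re3]
      congr 1
      push_cast
      ring
    rw [e1]
    ring
  rw [re3, e]
  congr 1
  push_cast
  ring

theorem NFsv_lin (d : DC) (L : List GrC) (W y : ℂ) (η : ℝ) (c0 c1 c2 : ℝ) :
    NFsv d c0 c1 c2 L W y η = c0 * NFsv d 1 0 0 L W y η + c1 * NFsv d 0 1 0 L W y η +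
      c2 * NFsv d 0 0 1 L W y η :=
  sum_lin3 L fun G => sum_lin3 G.l fun t => NFv_lin d c0 c1 c2 G.k t W y η

theorem MTy_lin (L : CL) (l : ℝ) (w e y : ℂ) (c0 c1 : ℝ) :
    MTy c0 c1 L l w e y = c0 * MTy 1 0 L l w e y + c1 * MTy 0 1 L l w e y := by
  unfold MTy
  rw [re2]
  congr 1
  push_cast
  ring

theorem dpy_lin (T t s' σ : ℝ) (W y : ℂ) (η : ℝ) :
    dpy T t s' σ W y η = T * dpy 1 0 0 σ W y η + t * dpy 0 1 0 σ W y η +
      s' * dpy 0 0 1 σ W y η := by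
  unfold dpy
  have e1 : (((T : ℂ) - t * I) * (Real.sin η * y) * conj (pp W η)).re =
      T * ((((1:ℝ) : ℂ) - ((0:ℝ) : ℂ) * I) * (Real.sin η * y) * conj (pp W η)).re +
      t * ((((0:ℝ) : ℂ) - ((1:ℝ) : ℂ) * I) * (Real.sin η * y) * conj (pp W η)).re +
      s' * ((((0:ℝ) : ℂ) - ((0:ℝ) : ℂ) * I) * (Real.sin η * y) * conj (pp W η)).re := by
    rw [re3]
    congr 1
    push_cast
    ring
  have e2 : (pp W η * (2 * σ * Real.sin η * (T + I * t) +
      I * Real.cos η * (T + 2 * I * t - s'))).re =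
      T * (pp W η * (2 * σ * Real.sin η * (((1:ℝ) : ℂ) + I * ((0:ℝ) : ℂ)) +
      I * Real.cos η * (((1:ℝ) : ℂ) + 2 * I * ((0:ℝ) : ℂ) - ((0:ℝ) : ℂ)))).re +
      t * (pp W η * (2 * σ * Real.sin η * (((0:ℝ) : ℂ) + I * ((1:ℝ) : ℂ)) +
      I * Real.cos η * (((0:ℝ) : ℂ) + 2 * I * ((1:ℝ) : ℂ) - ((0:ℝ) : ℂ)))).re +
      s' * (pp W η * (2 * σ * Real.sin η * (((0:ℝ) : ℂ) + I * ((0:ℝ) : ℂ)) +
      I * Real.cos η * (((0:ℝ) : ℂ) + 2 * I * ((0:ℝ) : ℂ) - ((1:ℝ) : ℂ)))).re := by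
    rw [re3]
    congr 1
    push_cast
    ring
  have e3 : ((Real.sin η * y) * (2 * σ * Real.sin η * T + I * Real.cos η * (T + I * t))).re =
      T * ((Real.sin η * y) * (2 * σ * Real.sin η * ((1:ℝ) : ℂ) +
        I * Real.cos η * (((1:ℝ) : ℂ) + I * ((0:ℝ) : ℂ)))).re +
      t * ((Real.sin η * y) * (2 * σ * Real.sin η * ((0:ℝ) : ℂ) +
        I * Real.cos η * (((0:ℝ) : ℂ) + I * ((1:ℝ) : ℂ)))).re +
      s' * ((Real.sin η * y) * (2 * σ * Real.sin η * ((0:ℝ) : ℂ) +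
        I * Real.cos η * (((0:ℝ) : ℂ) + I * ((0:ℝ) : ℂ)))).re := by
    rw [re3]
    congr 1
    push_cast
    ring
  rw [e1, e2, e3]
  ring

/-! ### the parameter `τ` -/

theorem yx_re (τ : ℝ) (x : ℂ) : (1 + τ ^ 2) * x.re = (yx τ x).re + τ * (yx τ x).im := by
  unfold yx
  simp only [mul_re, mul_im, add_re, add_im, one_re, one_im, I_re, I_im, ofReal_re, ofReal_im]
  ring

theorem yx_nsq (τ : ℝ) (x : ℂ) : ‖yx τ x‖ ^ 2 = (1 + τ ^ 2) * ‖x‖ ^ 2 := by
  unfold yx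
  rw [norm_mul, mul_pow]
  congr 1
  rw [← Complex.normSq_eq_norm_sq, Complex.normSq_apply]
  simp
  ring

theorem one_sub_ne (τ : ℝ) : (1 : ℂ) - I * τ ≠ 0 := by
  intro h
  have := congrArg Complex.re h
  simp at this

theorem fac_eq (τ : ℝ) : ((1 : ℂ) + I * τ) * (1 - I * τ) = ((1 + τ ^ 2 : ℝ) : ℂ) := by
  push_cast
  linear_combination (-(τ : ℂ) ^ 2) * I_sq

theorem pos_fac (τ : ℝ) : 0 < 1 + τ ^ 2 := by positivity

/-- `S C q` -/
theorem pp_q (x q : ℂ) (η : ℝ) : ((Real.sin (η / 2) * Real.cos (η / 2) : ℝ) : ℂ) * q =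
    pp (2 * x + q) η - Real.sin η * x := by
  unfold pp
  have h := sin_half η
  have h2 : (Real.sin η : ℂ) = 2 * ((Real.sin (η / 2) * Real.cos (η / 2) : ℝ) : ℂ) := by
    rw [h]
    push_cast
    ring
  rw [h2]
  ring

theorem sx_y (τ : ℝ) (x : ℂ) (η : ℝ) : (1 + I * (τ : ℂ)) * (Real.sin η * x) =
    Real.sin η * yx τ x := by
  unfold yx
  ring

theorem NVv_tau (d : DC) (τ : ℝ) (k : ℕ) (t : AP × BP × BP) (x q : ℂ) (η : ℝ) :
    NVv d 1 τ k t (2 * x + q) (yx τ x) η =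
      (1 + τ ^ 2) * NPotY d τ (1 / ((1 + τ ^ 2 : ℝ) : ℂ)) 0 k t x q η := by
  unfold NVv NPotY NPY
  have hz : ((1 + τ ^ 2 : ℝ) : ℂ) ≠ 0 := by exact_mod_cast (pos_fac τ).ne'
  have e1 : ((1 : ℝ) + τ * I) * pp (2 * x + q) η - (1 : ℝ) * (Real.sin η * yx τ x) =
      (1 + I * (τ : ℂ)) * (((Real.sin (η / 2) * Real.cos (η / 2) : ℝ) : ℂ) * q) := by
    rw [pp_q, mul_sub, sx_y]
    push_cast
    ring
  rw [e1, ← re_ofReal_mul, aC_eq]
  congr 1
  have e2 : ∀ Z : ℂ, conj ((1 + I * (τ : ℂ)) * (((Real.sin (η / 2) * Real.cos (η / 2) : ℝ) : ℂ) *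
      q) * Z) = (1 - I * τ) * (((Real.sin (η / 2) * Real.cos (η / 2) : ℝ) : ℂ) *
      conj (q * Z)) := by
    intro Z
    simp only [map_mul, map_add, map_one, conj_I, conj_ofReal]
    ring
  rw [e2]
  generalize ((1 + τ ^ 2 : ℝ) : ℂ) = z at *
  generalize conj (q * (1 + yx τ x)) = Q
  push_cast
  field_simp

theorem NFv_tau (d : DC) (τ : ℝ) (k : ℕ) (t : AP × BP × BP) (x q : ℂ) (η : ℝ) :
    NFv d 1 τ (τ ^ 2) k t (2 * x + q) (yx τ x) η =
      (1 + τ ^ 2) * NPotY d τ (1 / (1 - I * τ)) 1 k t x q η := by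
  unfold NFv NPotY NPY
  have hz := one_sub_ne τ
  obtain ⟨u, hu⟩ : ∃ u : ℂ, u = ((Real.sin (η / 2) * Real.cos (η / 2) : ℝ) : ℂ) * q := ⟨_, rfl⟩
  have hP : pp (2 * x + q) η = u + Real.sin η * x := by
    rw [hu, pp_q]
    ring
  have e1 : ((1 : ℝ) - ((τ ^ 2 : ℝ) : ℂ) + 2 * τ * I) * pp (2 * x + q) η -
      ((1 : ℝ) + τ * I) * (Real.sin η * yx τ x) = (1 + I * (τ : ℂ)) ^ 2 * u := by
    rw [← sx_y, hP]
    push_cast
    linear_combination (-(τ : ℂ) ^ 2 * (u + Complex.sin η * x)) * I_sq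
  have e2 : ((1 + τ ^ 2) * ‖pp (2 * x + q) η‖ ^ 2 + 1 * ‖(Real.sin η : ℂ) * yx τ x‖ ^ 2 -
      2 * ((((1:ℝ) : ℂ) + τ * I) * pp (2 * x + q) η * conj (Real.sin η * yx τ x)).re : ℝ) =
      (1 + τ ^ 2) * ‖u‖ ^ 2 := by
    have e3 : (((1:ℝ) : ℂ) + τ * I) * pp (2 * x + q) η * conj (Real.sin η * yx τ x) =
        ((1 + τ ^ 2 : ℝ) : ℂ) * (pp (2 * x + q) η * conj (Real.sin η * x)) := by
      rw [← sx_y, ← fac_eq]
      simp only [map_mul, map_add, map_one, conj_I, conj_ofReal]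
      push_cast
      ring
    rw [e3, re_ofReal_mul, norm_mul _ (yx τ x), mul_pow, yx_nsq, hP]
    have e4 : ‖u + Real.sin η * x‖ ^ 2 = ‖u‖ ^ 2 + ‖(Real.sin η : ℂ)‖ ^ 2 * ‖x‖ ^ 2 +
        2 * (u * conj (Real.sin η * x)).re := by
      rw [← mul_pow, ← norm_mul]
      simp only [← Complex.normSq_eq_norm_sq]
      exact Complex.normSq_add _ _
    have e5 : ((u + Real.sin η * x) * conj (Real.sin η * x)).re =
        (u * conj (Real.sin η * x)).re + ‖(Real.sin η : ℂ)‖ ^ 2 * ‖x‖ ^ 2 := by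
      rw [add_mul, add_re, Complex.mul_conj, ofReal_re, Complex.normSq_eq_norm_sq, norm_mul,
        mul_pow]
    rw [e4, e5]
    ring
  rw [e1, e2, ← re_ofReal_mul, aC_eq, aC1_eq]
  congr 1
  have e6 : ((‖u‖ ^ 2 : ℝ) : ℂ) = ((Real.sin (η / 2) * Real.cos (η / 2) : ℝ) : ℂ) ^ 2 *
      (q * conj q) := by
    rw [← Complex.normSq_eq_norm_sq, ← Complex.mul_conj, hu, map_mul, conj_ofReal]
    ring
  rw [ofReal_mul _ (‖u‖ ^ 2), e6, hu, map_mul conj q, ← fac_eq]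
  push_cast
  field_simp

theorem NVsv_tau (d : DC) (τ : ℝ) (L : List GrC) (x q : ℂ) (η : ℝ) :
    NVsv d 1 τ L (2 * x + q) (yx τ x) η =
      (1 + τ ^ 2) * NGsY d τ (1 / ((1 + τ ^ 2 : ℝ) : ℂ)) 0 L x q η := by
  unfold NVsv NGsY
  simp only [NVv_tau, map_mul_l]

theorem NFsv_tau (d : DC) (τ : ℝ) (L : List GrC) (x q : ℂ) (η : ℝ) :
    NFsv d 1 τ (τ ^ 2) L (2 * x + q) (yx τ x) η =
      (1 + τ ^ 2) * NGsY d τ (1 / (1 - I * τ)) 1 L x q η := by
  unfold NFsv NGsY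
  simp only [NFv_tau, map_mul_l]

theorem MTy_tau (τ : ℝ) (L : CL) (l : ℝ) (w e x : ℂ) : MTy 1 τ L l w e (yx τ x) =
    2 * (1 + τ ^ 2) * (MSc L l w * e * ((1 + I * τ) / 2 * x ^ 2 + x)).re := by
  unfold MTy yx
  have e2 : 2 * (1 + τ ^ 2) * (MSc L l w * e * ((1 + I * τ) / 2 * x ^ 2 + x)).re =
      (((2 * (1 + τ ^ 2) : ℝ) : ℂ) * (MSc L l w * e * ((1 + I * τ) / 2 * x ^ 2 + x))).re := by
    rw [re_ofReal_mul]
  rw [e2, ofReal_mul, ← fac_eq]
  congr 1
  push_cast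
  ring

theorem dpy_tau (τ σ : ℝ) (x q : ℂ) (η : ℝ) : dpy 1 τ (τ ^ 2) σ (2 * x + q) (yx τ x) η =
    dpol τ σ x q (Real.sin η) (Real.cos η) := by
  have hs : (Real.sin η : ℂ) * q = 2 * pp (2 * x + q) η - 2 * (Real.sin η * x) := by
    unfold pp
    have h := sin_half η
    have h2 : (Real.sin η : ℂ) = 2 * ((Real.sin (η / 2) * Real.cos (η / 2) : ℝ) : ℂ) := by
      rw [h]
      push_cast
      ring
    rw [h2]
    ring
  unfold dpy dpol
  have hY : (Real.sin η : ℂ) * q + 2 * σ * Real.sin η * x =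
      2 * pp (2 * x + q) η - ((2 - 2 * σ : ℝ) : ℂ) * (Real.sin η * x) := by
    rw [hs]
    push_cast
    ring
  rw [hY]
  generalize pp (2 * x + q) η = P
  have e1 : (1 + τ ^ 2) * ‖2 * P - ((2 - 2 * σ : ℝ) : ℂ) * (Real.sin η * x)‖ ^ 2 =
      4 * (1 + τ ^ 2) * ‖P‖ ^ 2 - 4 * (2 - 2 * σ) *
      ((((1:ℝ) : ℂ) - τ * I) * (Real.sin η * yx τ x) * conj P).re +
      (2 - 2 * σ) ^ 2 * 1 * ‖(Real.sin η : ℂ) * yx τ x‖ ^ 2 := by
    have e3 : (((1:ℝ) : ℂ) - τ * I) * (Real.sin η * yx τ x) * conj P =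
        ((1 + τ ^ 2 : ℝ) : ℂ) * (Real.sin η * x * conj P) := by
      rw [← sx_y, ← fac_eq]
      push_cast
      ring
    have e4 : ‖2 * P - ((2 - 2 * σ : ℝ) : ℂ) * (Real.sin η * x)‖ ^ 2 = 4 * ‖P‖ ^ 2 +
        (2 - 2 * σ) ^ 2 * (‖(Real.sin η : ℂ)‖ ^ 2 * ‖x‖ ^ 2) -
        2 * (2 * (2 - 2 * σ)) * (Real.sin η * x * conj P).re := by
      rw [← mul_pow ‖(Real.sin η : ℂ)‖, ← norm_mul]
      simp only [← Complex.normSq_eq_norm_sq]
      generalize (Real.sin η : ℂ) * x = X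
      simp only [Complex.normSq_apply, sub_re, sub_im, mul_re, mul_im, conj_re, conj_im,
        ofReal_re, ofReal_im, re_ofNat, im_ofNat]
      ring
    rw [e3, re_ofReal_mul, norm_mul _ (yx τ x), mul_pow _ ‖yx τ x‖, yx_nsq, e4]
    ring
  have e2 : ((2 * P - ((2 - 2 * σ : ℝ) : ℂ) * (Real.sin η * x)) *
      (2 * σ * Real.sin η * (1 + I * τ) + I * Real.cos η * (1 + I * τ) ^ 2)).re =
      2 * (P * (2 * σ * Real.sin η * (((1:ℝ) : ℂ) + I * τ) +
        I * Real.cos η * (((1:ℝ) : ℂ) + 2 * I * τ - ((τ ^ 2 : ℝ) : ℂ)))).re -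
      (2 - 2 * σ) * ((Real.sin η * yx τ x) * (2 * σ * Real.sin η * ((1:ℝ) : ℂ) +
        I * Real.cos η * (((1:ℝ) : ℂ) + I * τ))).re := by
    have e5 : ∀ a b : ℂ, ∀ s : ℝ, 2 * a.re - s * b.re = (2 * a - (s : ℂ) * b).re := by
      intro a b s
      rw [sub_re, re_ofReal_mul, mul_re, re_ofNat, im_ofNat, zero_mul, sub_zero]
    rw [e5, ← sx_y]
    congr 1
    push_cast
    linear_combination (2 * P * I * Complex.cos η * (τ : ℂ) ^ 2) * I_sq
  rw [e1, e2]
  ring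

end Pool.Agent.Helper65.CKY
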