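import Pool.Agent.Helper65.CKY.Ray
set_option autoImplicit false

/-!
# Project CKY: helpers for the final files of a certificate
-/

namespace Pool.Agent.Helper65.CKY

open Pool.Sos71
open Pool.Agent.Helper42.CKC (Goods)

theorem all3 {P : Vy → Prop} {v0 v1 v2 : Vy} (h0 : P v0) (h1 : P v1) (h2 : P v2) :
    ∀ v ∈ [v0, v1, v2], P v := by
  intro v hv
  simp only [List.mem_cons, List.mem_nil_iff, or_false] at hv
  rcases hv with rfl | rfl | rfl
  exacts [h0, h1, h2]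

theorem all4 {P : Vy → Prop} {v0 v1 v2 v3 : Vy} (h0 : P v0) (h1 : P v1) (h2 : P v2)
    (h3 : P v3) : ∀ v ∈ [v0, v1, v2, v3], P v := by
  intro v hv
  simp only [List.mem_cons, List.mem_nil_iff, or_false] at hv
  rcases hv with rfl | rfl | rfl | rfl
  exacts [h0, h1, h2, h3]

theorem all5 {P : Vy → Prop} {v0 v1 v2 v3 v4 : Vy} (h0 : P v0) (h1 : P v1) (h2 : P v2)
    (h3 : P v3) (h4 : P v4) : ∀ v ∈ [v0, v1, v2, v3, v4], P v := by
  intro v hv
  simp only [List.mem_cons, List.mem_nil_iff, or_false] at hv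
  rcases hv with rfl | rfl | rfl | rfl | rfl
  exacts [h0, h1, h2, h3, h4]

/-- **one side from the certificates of the vertices** -/
theorem side_ofV {K : ℕ} {Ln Ld : ℤ} (hd : 0 < Ld) (DL : List (List ℤ × Blk × Blk)) {s : ℕ}
    {VS : List Vy} {T : Vy → Ex} (H : ∀ v ∈ VS, CertY Ln Ld s DL (v.c, T v))
    (hi : ∀ q ∈ DL, Pool.Agent.Helper42.CKC.Bdd.itb (K + 1) q.2.1.its = true ∧
      Pool.Agent.Helper42.CKC.Bdd.itb (K + 1) q.2.2.its = true) :
    SideY K Ln Ld (DL.map Prod.fst) (VS.map fun v => (v.c, T v)) := by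
  refine side_ofY (s := s) hd (fun vt hvt => ?_) hi
  obtain ⟨v, hv, rfl⟩ := List.mem_map.1 hvt
  exact H v hv

theorem side_ofV0 {K : ℕ} {Ln Ld : ℤ} (hd : 0 < Ld) (BS : List (List ℤ)) {s : ℕ}
    {VS : List Vy} {T : Vy → Ex} (H : ∀ v ∈ VS, CertY Ln Ld s [] (v.c, T v)) :
    SideY K Ln Ld BS (VS.map fun v => (v.c, T v)) := by
  refine side_ofY0 (s := s) hd (fun vt hvt => ?_) BS
  obtain ⟨v, hv, rfl⟩ := List.mem_map.1 hvt
  exact H v hv

/-- all checks which are decided on the data -/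
def okB (D : DatY) (VS : List Vy) (BS : List (List ℤ)) (kA kB kD : ℤ) : Bool :=
  and (and (and D.wf D.degB) (BS.all fun p => Nat.ble p.length (2 * D.m + 1)))
    (and (and (and (D.V.all fun g => Pool.Agent.Helper99.CKC.okGs g.2)
        (D.F.all fun g => Pool.Agent.Helper99.CKC.okGs g.2))
      (VS.all fun v => and (v.HM.all Pool.Agent.Helper99.CKC.HmC.ok)
        (and (decide (0 ≤ D.tw v)) (numY D kA kB kD v))))
      (and (and (decide (0 < D.M)) (decide (0 < D.Fd)))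
        (and (decide (D.M = D.Fd ^ 2 * D.Mt)) (decide (0 < D.rd)))))

open Pool.Agent.Helper20.EK7 (InL OutL OutD)
open Pool.Agent.Helper71.CK (LIn LOut)

/-- **`Ok` from the decided checks** -/
theorem ok_of {D : DatY} {VS : List Vy} {BS : List (List ℤ)} {kA kB kD Ln Ld Ln' Ld' : ℤ}
    (h : okB D VS BS kA kB kD = true) (hL : 0 < Ld) (hL' : 0 < Ld')
    (inL : InL (D.p0 / D.rd) (D.p1 / D.rd) (D.p2 / D.rd))
    (outD : OutD (D.q0 / D.rd) (D.q1 / D.rd) (D.q2 / D.rd))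
    (lIn : LIn (D.p0 / D.rd) (D.p1 / D.rd) (D.p2 / D.rd) (Ln / Ld))
    (lOut : LOut (D.q0 / D.rd) (D.q1 / D.rd) (D.q2 / D.rd) (Ln' / Ld')) :
    D.Ok VS BS Ln Ld Ln' Ld' ∧ ∀ v ∈ VS, numY D kA kB kD v = true := by
  simp only [okB, Bool.and_eq_true, decide_eq_true_eq, List.all_eq_true, Nat.ble_eq] at h
  obtain ⟨⟨⟨h1, h2⟩, h3⟩, ⟨⟨h4, h5⟩, h6⟩, ⟨h7, h8⟩, h9, h10⟩ := h
  refine ⟨⟨h1, h2, h3, h4, h5, fun v hv => ?_, fun v hv => (h6 v hv).2.1, h7, h8, h9, h10, hL, hL',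
    inL, outD, lIn, lOut⟩, fun v hv => (h6 v hv).2.2⟩
  rw [List.all_eq_true]
  exact (h6 v hv).1

end Pool.Agent.Helper65.CKY
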