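import Pool.Agent.Helper65.CKY.Dat
set_option autoImplicit false
open Complex MeasureTheory Metric Set
open scoped Real ComplexConjugate

/-!
# Project CKY: the null Lagrangians in the coordinate `y = (1 + i τ) x`
-/

namespace Pool.Agent.Helper65.CKY

open Pool.Sos71 Pool.EK71
open Pool.Agent.Helper52.EK Pool.Agent.Helper69.EK3 Pool.Agent.Helper69.EK7
open Pool.Agent.Helper69.CKC Pool.Agent.Helper99.CKC
open Pool.Agent.Helper42.CKC

/-- `y` -/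
noncomputable def yx (τ : ℝ) (x : ℂ) : ℂ := (1 + I * τ) * x

/-- composition with a linear map -/
theorem c1x_lin {H H1 H2 : ℂ → ℂ} (h : C1x H H1 H2) (c b : ℂ) :
    C1x (fun x => c * H (b * x))
      (fun x => c * (H1 (b * x) * (b.re : ℂ) + H2 (b * x) * (b.im : ℂ)))
      (fun x => c * (H2 (b * x) * (b.re : ℂ) - H1 (b * x) * (b.im : ℂ))) := by
  have ca : Continuous fun x : ℂ => b * x := by fun_prop
  have c1 := h.cx.comp ca
  have c2 := h.cy.comp ca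
  refine ⟨fun x => ?_, ?_, ?_⟩
  · have h0 : HasFDerivAt (fun x : ℂ => b * x) (b • ContinuousLinearMap.id ℝ ℂ) x :=
      (hasFDerivAt_id x).const_mul b
    have h1 := ((h.hd (b * x)).comp x h0).const_mul c
    refine h1.congr_fderiv ?_
    ext v
    simp only [_root_.add_apply, ContinuousLinearMap.smulRight_apply, reCLM_apply, imCLM_apply,
      _root_.smul_apply, ContinuousLinearMap.comp_apply,
      ContinuousLinearMap.id_apply, smul_eq_mul, real_smul, mul_re, mul_im, ofReal_sub,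
      ofReal_add, ofReal_mul]
    ring
  · exact continuous_const.mul ((c1.mul continuous_const).add (c2.mul continuous_const))
  · exact continuous_const.mul ((c2.mul continuous_const).sub (c1.mul continuous_const))

/-- the integrand of a potential in `y`, with a factor -/
noncomputable def NPY (τ : ℝ) (c : ℂ) (j : ℕ) (a a₁ : ℝ) (H H1 H2 : ℂ) (y q : ℂ) : ℝ :=
  (c * q ^ j * (I * (1 + I * τ) * a₁ * H +
    a * (1 - I * τ) * (H1 + I * H2) * conj (q * (1 + y)))).re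

theorem NPY_eq (τ : ℝ) (c : ℂ) (j : ℕ) (a a₁ : ℝ) (H H1 H2 x q : ℂ) :
    NP τ j a a₁ (c * H) (c * (H1 * ((1 + I * (τ : ℂ)).re : ℂ) + H2 * ((1 + I * (τ : ℂ)).im : ℂ)))
      (c * (H2 * ((1 + I * (τ : ℂ)).re : ℂ) - H1 * ((1 + I * (τ : ℂ)).im : ℂ))) x q =
      NPY τ c j a a₁ H H1 H2 (yx τ x) q := by
  have e1 : (1 + I * (τ : ℂ)).re = 1 := by simp
  have e2 : (1 + I * (τ : ℂ)).im = τ := by simp
  unfold NP NPY yx
  rw [e1, e2]
  congr 1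
  push_cast
  linear_combination (q ^ j * (a : ℂ) * c * H2 * τ * conj (q * (1 + (1 + I * τ) * x))) * I_sq

/-- **the null Lagrangian of a potential in `y`** -/
theorem nullX_PY {H H1 H2 : ℂ → ℂ} (hH : C1x H H1 H2) (τ : ℝ) (c : ℂ) (j : ℕ) {a a₁ : ℝ → ℝ}
    (g1 : ∀ η, HasDerivAt a (a₁ η) η) (g1c : Continuous a₁) (f1 : a 0 = 0) (f2 : a π = 0) {C : ℝ}
    (hC : ∀ (x q : ℂ) (η : ℝ), η ∈ Icc (0:ℝ) π → Real.sin η * ‖x‖ ≤ 10 →
      Real.sin η * ‖q‖ ≤ 38 → |a η| * ‖H (yx τ x)‖ * ‖q‖ ^ j ≤ C * Real.sin η * (1 + ‖x‖ ^ 2)) :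
    NullX τ (fun x q η => NPY τ c j (a η) (a₁ η) (H (yx τ x)) (H1 (yx τ x)) (H2 (yx τ x))
      (yx τ x) q) := by
  have h := isNull_P (c1x_lin hH c (1 + I * τ)) τ j g1 g1c f1 f2 (C := ‖c‖ * C) (by
    intro x q η hη hx hq
    have h1 := hC x q η hη hx hq
    rw [norm_mul]
    have h2 := mul_le_mul_of_nonneg_left h1 (norm_nonneg c)
    unfold yx at h2
    calc |a η| * (‖c‖ * ‖H ((1 + I * τ) * x)‖) * ‖q‖ ^ j =
        ‖c‖ * (|a η| * ‖H ((1 + I * τ) * x)‖ * ‖q‖ ^ j) := by ring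
      _ ≤ ‖c‖ * (C * Real.sin η * (1 + ‖x‖ ^ 2)) := h2
      _ = ‖c‖ * C * Real.sin η * (1 + ‖x‖ ^ 2) := by ring)
  refine NullX.congr (N := fun x q η => NP τ j (a η) (a₁ η) (c * H ((1 + I * τ) * x))
    (c * (H1 ((1 + I * τ) * x) * ((1 + I * (τ : ℂ)).re : ℂ) +
      H2 ((1 + I * τ) * x) * ((1 + I * (τ : ℂ)).im : ℂ)))
    (c * (H2 ((1 + I * τ) * x) * ((1 + I * (τ : ℂ)).re : ℂ) -
      H1 ((1 + I * τ) * x) * ((1 + I * (τ : ℂ)).im : ℂ))) x q) h fun x q η => ?_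
  exact (NPY_eq τ c j (a η) (a₁ η) (H (yx τ x)) (H1 (yx τ x)) (H2 (yx τ x)) x q).symm

/-! ### growth -/

theorem norm_yx (τ : ℝ) (x : ℂ) : ‖yx τ x‖ = ‖(1 : ℂ) + I * τ‖ * ‖x‖ := by
  unfold yx
  rw [norm_mul]

theorem one_le_fac (τ : ℝ) : 1 ≤ ‖(1 : ℂ) + I * τ‖ := by
  have h := abs_re_le_norm ((1 : ℂ) + I * τ)
  have e : ((1 : ℂ) + I * τ).re = 1 := by simp
  rw [e, abs_one] at h
  exact h

theorem HD_grg' (d : DC) (k : ℕ) (M1 M2 : BP) (g : AP) (h : okC k (g, M1, M2) = true) {Λ : ℝ}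
    (hΛ : 1 ≤ Λ) :
    ∃ C : ℝ, 0 ≤ C ∧ ∀ (x : ℂ) (η : ℝ), η ∈ Icc (0:ℝ) π → Real.sin η * ‖x‖ ≤ 10 * Λ →
      |af g η| * ‖HD d k M1 M2 x‖ ≤ C * (1 + ‖x‖ ^ 2) := by
  have hΛ0 : 0 < Λ := by linarith
  induction g with
  | nil =>
    refine ⟨0, le_rfl, fun x η hη _ => ?_⟩
    simp [af, aev]
  | cons t g ih =>
    obtain ⟨c, i, j⟩ := t
    simp only [okC, List.all_cons, Bool.and_eq_true] at h
    obtain ⟨⟨a1, a2⟩, a3⟩ := h
    obtain ⟨C₁, h1, k1⟩ := ih (by simpa only [okC] using a3)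
    obtain ⟨C₂, h2, k2⟩ := HD_gr d k (min i j) M1 M2 a1 a2
    refine ⟨|(c : ℝ)| * (Λ ^ (min i j) * C₂) + C₁, by positivity, fun x η hη hX => ?_⟩
    obtain ⟨s0, s1, c0, c1⟩ := half_bd hη
    have k3 := k1 x η hη hX
    have e2 := two_sc η
    have hsc0 : 0 ≤ Real.sin (η / 2) * Real.cos (η / 2) := mul_nonneg s0 c0
    have hsc1 : Real.sin (η / 2) * Real.cos (η / 2) ≤ 1 := mul_le_one₀ s1 c0 c1
    have k4 := k2 x (Real.sin (η / 2) * Real.cos (η / 2) / Λ) (div_nonneg hsc0 hΛ0.le)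
      ((div_le_one hΛ0).2 (hsc1.trans hΛ)) (by
        have h5 : 2 * (Real.sin (η / 2) * Real.cos (η / 2)) * ‖x‖ ≤ 10 * Λ := by rw [e2]; exact hX
        have h6 : 0 ≤ Real.sin (η / 2) * Real.cos (η / 2) * ‖x‖ := mul_nonneg hsc0 (norm_nonneg x)
        rw [div_mul_eq_mul_div, div_le_iff₀ hΛ0]
        linarith)
    have k5 : (Real.sin (η / 2) * Real.cos (η / 2)) ^ (min i j) * ‖HD d k M1 M2 x‖ ≤
        Λ ^ (min i j) * C₂ * (1 + ‖x‖ ^ 2) := by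
      have h7 := mul_le_mul_of_nonneg_left k4 (pow_nonneg hΛ0.le (min i j))
      rw [div_pow] at h7
      have e3 : Λ ^ (min i j) * ((Real.sin (η / 2) * Real.cos (η / 2)) ^ (min i j) /
          Λ ^ (min i j) * ‖HD d k M1 M2 x‖) =
          (Real.sin (η / 2) * Real.cos (η / 2)) ^ (min i j) * ‖HD d k M1 M2 x‖ := by
        have : Λ ^ (min i j) ≠ 0 := (pow_pos hΛ0 _).ne'
        field_simp
      rw [e3] at h7
      linarith
    have hn := norm_nonneg (HD d k M1 M2 x)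
    have e1 : |af ((c, i, j) :: g) η| ≤
        |(c : ℝ)| * (Real.sin (η / 2) * Real.cos (η / 2)) ^ (min i j) + |af g η| := by
      unfold af
      rw [aev]
      refine (abs_add_le _ _).trans (add_le_add ?_ le_rfl)
      rw [abs_mul, abs_of_nonneg (mul_nonneg (pow_nonneg s0 i) (pow_nonneg c0 j))]
      exact mul_le_mul_of_nonneg_left (pow_min_le s0 s1 c0 c1 i j) (abs_nonneg _)
    have h3 := mul_le_mul_of_nonneg_right e1 hn
    refine h3.trans ?_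
    rw [add_mul, add_mul, mul_assoc, mul_assoc]
    exact add_le_add (mul_le_mul_of_nonneg_left k5 (abs_nonneg _)) k3

/-- the integrand of one potential of the data, with the factor `c` -/
noncomputable def NPotY (d : DC) (τ : ℝ) (c : ℂ) (j k : ℕ) (t : AP × BP × BP) (x q : ℂ)
    (η : ℝ) : ℝ :=
  NPY τ c j (aC j t.1 η) (aC1 j t.1 η) (HD d k t.2.1 t.2.2 (yx τ x))
    (HD d (k + 1) (qcX d k t.2.1) (qcX d k t.2.2) (yx τ x))
    (HD d (k + 1) (qcY d k t.2.1) (qcY d k t.2.2) (yx τ x)) (yx τ x) q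

theorem nullX_PotY (d : DC) (τ : ℝ) (c : ℂ) (j k : ℕ) (t : AP × BP × BP) (h : okC k t = true) :
    NullX τ (NPotY d τ c j k t) := by
  obtain ⟨g, M1, M2⟩ := t
  have hf := one_le_fac τ
  obtain ⟨C, hC0, hC⟩ := HD_grg' d k M1 M2 g h hf
  refine nullX_PY (c1x_HD d k M1 M2) τ c j (hd_aC j g) (af_cont _) (aC_zero j g) (aC_pi j g)
    (C := 38 ^ j * (C * ‖(1 : ℂ) + I * τ‖ ^ 2)) ?_
  intro x q η hη hx hq
  obtain ⟨s0, s1, c0, c1⟩ := half_bd hη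
  have hy : Real.sin η * ‖yx τ x‖ ≤ 10 * ‖(1 : ℂ) + I * τ‖ := by
    rw [norm_yx]
    calc Real.sin η * (‖(1 : ℂ) + I * τ‖ * ‖x‖) = Real.sin η * ‖x‖ * ‖(1 : ℂ) + I * τ‖ := by ring
      _ ≤ 10 * ‖(1 : ℂ) + I * τ‖ := mul_le_mul_of_nonneg_right hx (norm_nonneg _)
  have k1 := hC (yx τ x) η hη hy
  have hnx : 1 + ‖yx τ x‖ ^ 2 ≤ ‖(1 : ℂ) + I * τ‖ ^ 2 * (1 + ‖x‖ ^ 2) := by
    rw [norm_yx, mul_pow]
    have : 1 ≤ ‖(1 : ℂ) + I * τ‖ ^ 2 := one_le_pow₀ hf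
    nlinarith [sq_nonneg ‖x‖]
  have k2 : |af g η| * ‖HD d k M1 M2 (yx τ x)‖ ≤ C * ‖(1 : ℂ) + I * τ‖ ^ 2 * (1 + ‖x‖ ^ 2) := by
    refine k1.trans ((mul_le_mul_of_nonneg_left hnx hC0).trans (le_of_eq ?_))
    ring
  have e2 := two_sc η
  have hsc0 : 0 ≤ Real.sin (η / 2) * Real.cos (η / 2) := mul_nonneg s0 c0
  have hs := sin_nn' hη
  have hq2 : Real.sin (η / 2) * Real.cos (η / 2) * ‖q‖ ≤ 38 := by
    have h5 : 2 * (Real.sin (η / 2) * Real.cos (η / 2)) * ‖q‖ ≤ 38 := by rw [e2]; exact hq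
    nlinarith [mul_nonneg hsc0 (norm_nonneg q)]
  have hq3 : (Real.sin (η / 2) * Real.cos (η / 2) * ‖q‖) ^ j ≤ 38 ^ j :=
    pow_le_pow_left₀ (mul_nonneg hsc0 (norm_nonneg q)) hq2 j
  rw [aC_eq, abs_mul, abs_of_nonneg (by positivity :
    (0:ℝ) ≤ 2 * (Real.sin (η / 2) * Real.cos (η / 2)) ^ (j + 1))]
  have e3 : 2 * (Real.sin (η / 2) * Real.cos (η / 2)) ^ (j + 1) * |af g η| *
      ‖HD d k M1 M2 (yx τ x)‖ * ‖q‖ ^ j = Real.sin η *
      ((Real.sin (η / 2) * Real.cos (η / 2) * ‖q‖) ^ j *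
        (|af g η| * ‖HD d k M1 M2 (yx τ x)‖)) := by
    rw [← e2, mul_pow _ ‖q‖, pow_succ]
    ring
  rw [e3]
  have h7 : 0 ≤ |af g η| * ‖HD d k M1 M2 (yx τ x)‖ := by positivity
  calc Real.sin η * ((Real.sin (η / 2) * Real.cos (η / 2) * ‖q‖) ^ j *
        (|af g η| * ‖HD d k M1 M2 (yx τ x)‖)) ≤
        Real.sin η * (38 ^ j * (C * ‖(1 : ℂ) + I * τ‖ ^ 2 * (1 + ‖x‖ ^ 2))) :=
      mul_le_mul_of_nonneg_left (mul_le_mul hq3 k2 h7 (by positivity)) hs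
    _ = 38 ^ j * (C * ‖(1 : ℂ) + I * τ‖ ^ 2) * Real.sin η * (1 + ‖x‖ ^ 2) := by ring

/-- the sum over groups -/
noncomputable def NGsY (d : DC) (τ : ℝ) (c : ℂ) (j : ℕ) (L : List GrC) (x q : ℂ) (η : ℝ) : ℝ :=
  (L.map fun G => (G.l.map fun t => NPotY d τ c j G.k t x q η).sum).sum

theorem nullX_GsY (d : DC) (τ : ℝ) (c : ℂ) (j : ℕ) (L : List GrC) (h : okGs L = true) :
    NullX τ (NGsY d τ c j L) := by
  simp only [okGs, List.all_eq_true] at h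
  exact NullX.list L fun G hG => NullX.list G.l fun t ht => nullX_PotY d τ c j G.k t (h G hG t ht)

/-! ### harmonic terms -/

theorem nullX_HmY (τ : ℝ) (t : HmC) (h : t.ok = true) : NullX τ (fun x _ η => NHm t (yx τ x) η) := by
  simp only [HmC.ok, Bool.and_eq_true, decide_eq_true_eq, Nat.ble_eq] at h
  refine (nullX_Hm τ ((((t.cR : ℝ) : ℂ) + I * ((t.cI : ℝ) : ℂ)) * (1 + I * τ) ^ t.n) h.1
    (af_cont (ader t.P)) (int_ader t.P h.2)).congr fun x q η => ?_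
  unfold NHm yx
  rw [mul_pow]
  congr 2
  ring

theorem nullX_HmsY (τ : ℝ) (L : List HmC) (h : L.all HmC.ok = true) :
    NullX τ (fun x q η => NHms L (yx τ x) q η) := by
  simp only [List.all_eq_true] at h
  exact NullX.list L fun t ht => nullX_HmY τ t (h t ht)

end Pool.Agent.Helper65.CKY
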