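import Pool.Agent.Helper65.CKY.Tgt
set_option autoImplicit false
open Complex MeasureTheory Metric Set
open scoped Real ComplexConjugate

/-!
# Project CKY: from the inequalities of the vertices at a point to the inequality in a direction
-/

namespace Pool.Agent.Helper65.CKY

open Pool.Sos71 Pool.EK71 Pool.Agent.Helper2.EK
open Pool.Agent.Helper52.EK hiding ee
open Pool.Agent.Helper69.EK3 (AP aev af imul_cast' iadd_cast' rF)
open Pool.Agent.Helper99.CKC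
open Pool.Agent.Helper11.CKC (CL MSc)
open Pool.Agent.Helper42.CKC

/-- Cauchy-Schwarz for a list -/
theorem jen {ι : Type} (L : List ι) (a : ι → ℝ) (z : ι → ℂ) (ha : ∀ v ∈ L, 0 ≤ a v) :
    ‖(L.map fun v => (a v : ℂ) * z v).sum‖ ^ 2 ≤
      (L.map a).sum * (L.map fun v => a v * ‖z v‖ ^ 2).sum ∧ 0 ≤ (L.map a).sum ∧
      0 ≤ (L.map fun v => a v * ‖z v‖ ^ 2).sum := by
  induction L with
  | nil => simp
  | cons v L ih =>
    obtain ⟨h1, h2, h3⟩ := ih fun w hw => ha w (List.mem_cons_of_mem _ hw)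
    have hv := ha v List.mem_cons_self
    rw [List.map_cons, List.sum_cons, List.map_cons, List.sum_cons, List.map_cons, List.sum_cons]
    generalize (L.map fun v => (a v : ℂ) * z v).sum = Z at *
    generalize (L.map a).sum = A at *
    generalize (L.map fun v => a v * ‖z v‖ ^ 2).sum = S at *
    have hn := norm_nonneg (z v)
    have hZ := norm_nonneg Z
    refine ⟨?_, by positivity, by positivity⟩
    have k1 : ‖(a v : ℂ) * z v + Z‖ ≤ a v * ‖z v‖ + ‖Z‖ := by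
      refine (norm_add_le _ _).trans ?_
      rw [norm_mul, norm_real, Real.norm_of_nonneg hv]
    have k2 := pow_le_pow_left₀ (norm_nonneg _) k1 2
    refine k2.trans ?_
    have k3 : 2 * (‖z v‖ * ‖Z‖) ≤ A * ‖z v‖ ^ 2 + S := by
      refine abs_le_of_sq_le_sq' ?_ (by positivity) |>.2
      have k4 : ‖z v‖ ^ 2 * ‖Z‖ ^ 2 ≤ ‖z v‖ ^ 2 * (A * S) :=
        mul_le_mul_of_nonneg_left h1 (sq_nonneg _)
      nlinarith [sq_nonneg (A * ‖z v‖ ^ 2 - S)]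
    have k5 := mul_le_mul_of_nonneg_left k3 hv
    nlinarith [k5, h1]

/-- the complex mean of the fields -/
noncomputable def cfY (D : DatY) (vs : List Vy) (s : Vy → ℝ) (τ : ℝ) (g : Vy → ℂ) : ℂ :=
  (vs.map fun v => ((s v * D.tw v : ℝ) : ℂ) * g v).sum / (D.Fd * ((1 + τ ^ 2) ^ (D.m + 1) : ℝ))

theorem sumC_lin (vs : List Vy) (a : Vy → ℂ) (g1 g2 g3 g4 : Vy → ℂ) (w e l : ℂ) :
    (vs.map fun v => a v * (g1 v * w + g2 v + l * (g3 v * w + g4 v) - e)).sum =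
      (vs.map fun v => a v * g1 v).sum * w + (vs.map fun v => a v * g2 v).sum +
      l * ((vs.map fun v => a v * g3 v).sum * w + (vs.map fun v => a v * g4 v).sum) -
      (vs.map a).sum * e := by
  induction vs with
  | nil => simp
  | cons v vs ih =>
    simp only [List.map_cons, List.sum_cons]
    rw [ih]
    ring

theorem sum_ofReal' (vs : List Vy) (a : Vy → ℝ) :
    (vs.map fun v => ((a v : ℝ) : ℂ)).sum = (((vs.map a).sum : ℝ) : ℂ) := by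
  induction vs with
  | nil => simp
  | cons v vs ih =>
    rw [List.map_cons, List.sum_cons, ih, List.map_cons, List.sum_cons]
    push_cast
    rfl

namespace DatY
variable {D : DatY} {vs : List Vy} {s : Vy → ℝ} {τ : ℝ}

/-- the mean of the fields -/
theorem bf_mean (hs : ∀ v ∈ vs, 0 ≤ s v) (htw : ∀ v ∈ vs, 0 ≤ D.tw v) (hF : 0 < D.Fd)
    (hR : Rep (2 * D.m + 2) vs s τ) (sg : ℤ) (f : Vy → Fl) (l : ℝ) (w e : ℂ) :
    (D.Fd : ℝ) ^ 2 * ((1 + τ ^ 2) ^ (D.m + 1) *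
      ‖cfY D vs s τ (fun v => v.gm) * w + cfY D vs s τ (fun v => (v.cR : ℂ) + v.cI * I) +
        (l : ℂ) * ((sg * cfY D vs s τ (fun v => ((f v).aR : ℂ) + (f v).aI * I)) * w +
          sg * cfY D vs s τ (fun v => ((f v).bR : ℂ) + (f v).bI * I)) - e‖ ^ 2) ≤
      mn vs s (fun v => D.tw v * ‖Bf sg v.gm v.cR v.cI (f v) l w - D.Fd * e‖ ^ 2) := by
  have hQ : 0 < (1 + τ ^ 2) ^ (D.m + 1) := by positivity
  have hmt := mean_tw hR
  obtain ⟨k1, k2, k3⟩ := jen vs (fun v => s v * D.tw v)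
    (fun v => Bf sg v.gm v.cR v.cI (f v) l w - D.Fd * e) fun v hv =>
      mul_nonneg (hs v hv) (by exact_mod_cast htw v hv)
  have e1 : (vs.map fun v => s v * (D.tw v : ℝ)).sum = (1 + τ ^ 2) ^ (D.m + 1) := hmt
  rw [e1] at k1
  have e2 : (vs.map fun v => s v * (D.tw v : ℝ) * ‖Bf sg v.gm v.cR v.cI (f v) l w - D.Fd * e‖ ^ 2
      ).sum = mn vs s (fun v => D.tw v * ‖Bf sg v.gm v.cR v.cI (f v) l w - D.Fd * e‖ ^ 2) := by
    unfold mn
    congr 1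
    exact List.map_congr_left fun v _ => by ring
  rw [e2] at k1
  have e3 : (vs.map fun v => ((s v * D.tw v : ℝ) : ℂ) *
      (Bf sg v.gm v.cR v.cI (f v) l w - D.Fd * e)).sum =
      (vs.map fun v => ((s v * D.tw v : ℝ) : ℂ) * ((v.gm : ℂ) * w + ((v.cR : ℂ) + v.cI * I) +
        ((sg : ℂ) * l) * ((((f v).aR : ℂ) + (f v).aI * I) * w +
          (((f v).bR : ℂ) + (f v).bI * I)) - D.Fd * e)).sum := by
    congr 1
  rw [e3, sumC_lin, sum_ofReal' vs (fun v => s v * D.tw v), e1] at k1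
  have hFc : (D.Fd : ℂ) ≠ 0 := by exact_mod_cast hF.ne'
  have hQc : ((((1 + τ ^ 2) ^ (D.m + 1) : ℝ)) : ℂ) ≠ 0 := by exact_mod_cast hQ.ne'
  have hn : ‖(D.Fd : ℂ)‖ = D.Fd := by
    have : (D.Fd : ℂ) = ((D.Fd : ℝ) : ℂ) := by push_cast; rfl
    rw [this, norm_real, Real.norm_eq_abs, abs_of_pos (by exact_mod_cast hF)]
  have hn2 : ‖((((1 + τ ^ 2) ^ (D.m + 1) : ℝ)) : ℂ)‖ = (1 + τ ^ 2) ^ (D.m + 1) := by
    rw [norm_real, Real.norm_of_nonneg hQ.le]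
  unfold cfY
  generalize (vs.map fun v => ((s v * D.tw v : ℝ) : ℂ) * (v.gm : ℂ)).sum = g1 at *
  generalize (vs.map fun v => ((s v * D.tw v : ℝ) : ℂ) * ((v.cR : ℂ) + v.cI * I)).sum = g2 at *
  generalize (vs.map fun v => ((s v * D.tw v : ℝ) : ℂ) * (((f v).aR : ℂ) + (f v).aI * I)).sum =
    g3 at *
  generalize (vs.map fun v => ((s v * D.tw v : ℝ) : ℂ) * (((f v).bR : ℂ) + (f v).bI * I)).sum =
    g4 at *
  have e5 : g1 * w + g2 + (sg : ℂ) * l * (g3 * w + g4) -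
      ((((1 + τ ^ 2) ^ (D.m + 1) : ℝ)) : ℂ) * (D.Fd * e) =
      D.Fd * ((((1 + τ ^ 2) ^ (D.m + 1) : ℝ)) : ℂ) *
      (g1 / (D.Fd * ((((1 + τ ^ 2) ^ (D.m + 1) : ℝ)) : ℂ)) * w +
        g2 / (D.Fd * ((((1 + τ ^ 2) ^ (D.m + 1) : ℝ)) : ℂ)) +
        (l : ℂ) * ((sg * (g3 / (D.Fd * ((((1 + τ ^ 2) ^ (D.m + 1) : ℝ)) : ℂ)))) * w +
          sg * (g4 / (D.Fd * ((((1 + τ ^ 2) ^ (D.m + 1) : ℝ)) : ℂ)))) - e) := by
    generalize ((((1 + τ ^ 2) ^ (D.m + 1) : ℝ)) : ℂ) = Q at *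
    field_simp
  rw [e5, norm_mul, norm_mul, hn, hn2, mul_pow, mul_pow] at k1
  generalize ‖g1 / (D.Fd * ((((1 + τ ^ 2) ^ (D.m + 1) : ℝ)) : ℂ)) * w +
        g2 / (D.Fd * ((((1 + τ ^ 2) ^ (D.m + 1) : ℝ)) : ℂ)) +
        (l : ℂ) * ((sg * (g3 / (D.Fd * ((((1 + τ ^ 2) ^ (D.m + 1) : ℝ)) : ℂ)))) * w +
          sg * (g4 / (D.Fd * ((((1 + τ ^ 2) ^ (D.m + 1) : ℝ)) : ℂ)))) - e‖ ^ 2 = T at *
  generalize (1 + τ ^ 2) ^ (D.m + 1) = Q at *
  refine le_of_mul_le_mul_left (le_trans (le_of_eq ?_) k1) hQ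
  ring

/-- the mean of the targets -/
theorem mean_FF (hdeg : D.degB = true) (hM : 0 < D.M) (hR : Rep (2 * D.m + 2) vs s τ) (sg : ℤ)
    (f : Vy → Fl) (L0 L1 : CL) (l : ℝ) (x q : ℂ) (η : ℝ) :
    mn vs s (fun v => D.FF v sg (f v) L0 L1 l (2 * x + q) (yx τ x) η) =
      2 * D.M * (1 + τ ^ 2) ^ (D.m + 1) *
        (-(mn vs s (fun v => (v.ka : ℝ)) / (D.M * (1 + τ ^ 2) ^ D.m)) * x.re +
          (mn vs s (fun v => (v.ka : ℝ)) + pv D.nu τ) / (D.M * (1 + τ ^ 2) ^ D.m) *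
            (‖x‖ ^ 2 + x.re) + D.NN vs s τ x q η +
          ((MSc L0 l (wx x q (Real.sin η) (Real.cos η)) / D.M + (τ : ℂ) *
          (MSc L1 l (wx x q (Real.sin η) (Real.cos η)) / D.M)) * e0 (Real.sin η) (Real.cos η) *
          ((1 + I * τ) / 2 * x ^ 2 + x)).re) -
      2 * D.Mt * mn vs s (fun v => D.tw v * ‖Bf sg v.gm v.cR v.cI (f v) l
        (wx x q (Real.sin η) (Real.cos η)) - D.Fd * e0 (Real.sin η) (Real.cos η)‖ ^ 2) := by
  simp only [degB, Bool.and_eq_true, Nat.ble_eq, List.all_eq_true] at hdeg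
  obtain ⟨d1, d2, d3⟩ := hdeg
  have hM' : (D.M : ℝ) ≠ 0 := by exact_mod_cast hM.ne'
  have hMc : (D.M : ℂ) ≠ 0 := by exact_mod_cast hM.ne'
  have hZ := (pos_fac τ).ne'
  rw [wx_wW]
  have e1 : mn vs s (fun v => D.FF v sg (f v) L0 L1 l (2 * x + q) (yx τ x) η) =
      -2 * D.Mt * mn vs s (fun v => D.tw v * ‖Bf sg v.gm v.cR v.cI (f v) l (wW (2 * x + q) η) -
        D.Fd * e0 (Real.sin η) (Real.cos η)‖ ^ 2) +
      2 * mn vs s (fun v => NHms v.HM (yx τ x) q η) +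
      2 * (mn vs s (fun v => VsV D.d v.c D.V (2 * x + q) (yx τ x) η) +
        mn vs s (fun v => VsF D.d v.c D.F (2 * x + q) (yx τ x) η)) +
      mn vs s (fun v => MTy (dt (P1 D.m) v.c) (dt (0 :: P1 D.m) v.c) L0 l (wW (2 * x + q) η)
          (e0 (Real.sin η) (Real.cos η)) (yx τ x) +
        MTy (dt (0 :: P1 D.m) v.c) (dt (0 :: 0 :: P1 D.m) v.c) L1 l (wW (2 * x + q) η)
          (e0 (Real.sin η) (Real.cos η)) (yx τ x)) +
      2 * mn vs s (fun v => (v.ka + dt D.nu v.c) * ‖yx τ x‖ ^ 2 +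
        (dt D.nu v.c * (yx τ x).re + dt (0 :: D.nu) v.c * (yx τ x).im)) := by
    unfold FF
    rw [mn_add, mn_add, mn_add, mn_add, mn_mul, mn_mul, mn_mul, mn_mul,
      mn_add (fun v => VsV D.d v.c D.V (2 * x + q) (yx τ x) η)]
    rfl
  rw [e1, mean_V hR d2, mean_F hR d3, mean_M hR, mean_lin hR d1]
  have e2 : (MSc L0 l (wW (2 * x + q) η) + (τ : ℂ) * MSc L1 l (wW (2 * x + q) η)) *
      e0 (Real.sin η) (Real.cos η) * ((1 + I * τ) / 2 * x ^ 2 + x) = ((D.M : ℝ) : ℂ) *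
      ((MSc L0 l (wW (2 * x + q) η) / D.M + (τ : ℂ) * (MSc L1 l (wW (2 * x + q) η) / D.M)) *
      e0 (Real.sin η) (Real.cos η) * ((1 + I * τ) / 2 * x ^ 2 + x)) := by
    push_cast
    field_simp
  rw [e2, re_ofReal_mul]
  generalize ((MSc L0 l (wW (2 * x + q) η) / D.M + (τ : ℂ) * (MSc L1 l (wW (2 * x + q) η) /
      D.M)) * e0 (Real.sin η) (Real.cos η) * ((1 + I * τ) / 2 * x ^ 2 + x)).re = MM
  unfold NN
  generalize (D.V.map fun g => pv g.1 τ *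
    NGsY D.d τ (1 / ((1 + τ ^ 2 : ℝ) : ℂ)) 0 g.2 x q η).sum = sV
  generalize (D.F.map fun g => pv g.1 τ * NGsY D.d τ (1 / (1 - I * τ)) 1 g.2 x q η).sum = sF
  generalize mn vs s (fun v => NHms v.HM (yx τ x) q η) = sH
  generalize mn vs s (fun v => (v.ka : ℝ)) = ka
  generalize pv D.nu τ = nu
  generalize mn vs s _ = mT
  rw [pow_succ]
  have hZm : (1 + τ ^ 2) ^ D.m ≠ 0 := pow_ne_zero _ hZ
  generalize (1 + τ ^ 2) ^ D.m = Zm at *
  generalize 1 + τ ^ 2 = Z at *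
  field_simp
  ring

/-- the mean of the discs -/
theorem mean_QL (hR : Rep (2 * D.m + 2) vs s τ) {QL : List (List ℤ × ℝ × ℝ)}
    (hp : ∀ g ∈ QL, g.1.length ≤ 2 * D.m + 1) (l : ℝ) (x q : ℂ) (η : ℝ) :
    mn vs s (fun v => (QL.map fun g =>
      g.2.1 * (eDv 1 g.1 v.c).re (pt7 l η (2 * x + q) (yx τ x)) +
      g.2.2 * (eDv (-1) g.1 v.c).re (pt7 l η (2 * x + q) (yx τ x))).sum) =
    (QL.map fun g => pv g.1 τ * g.2.1).sum * dpol τ 1 x q (Real.sin η) (Real.cos η) +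
      (QL.map fun g => pv g.1 τ * g.2.2).sum * dpol τ (-1) x q (Real.sin η) (Real.cos η) := by
  rw [mn_list]
  induction QL with
  | nil => simp
  | cons g QL ih =>
    have h1 := hp g List.mem_cons_self
    rw [List.map_cons, List.sum_cons, ih fun g hg => hp g (List.mem_cons_of_mem _ hg), mn_add,
      mn_mul, mn_mul, mean_disc hR h1, mean_disc hR h1]
    simp only [List.map_cons, List.sum_cons]
    push_cast
    ring

/-- **one side at a point** -/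
theorem side_ptY (w : D.Wf) (hdeg : D.degB = true) (hM : 0 < D.M) (hF : 0 < D.Fd)
    (hMF : D.M = D.Fd ^ 2 * D.Mt) (hs : ∀ v ∈ vs, 0 ≤ s v) (htw : ∀ v ∈ vs, 0 ≤ D.tw v)
    (hR : Rep (2 * D.m + 2) vs s τ) {sg r0 r1 r2 : ℤ} {f : Vy → Fl} {L0 L1 : CL}
    (h0 : ∀ t ∈ L0, t.2.1 ≤ 2) (h1 : ∀ t ∈ L1, t.2.1 ≤ 2) {R : Vy → List Rm}
    {QL : List (List ℤ × ℝ × ℝ)} (hp : ∀ g ∈ QL, g.1.length ≤ 2 * D.m + 1) {l : ℝ} {x q : ℂ}
    {η : ℝ}
    (hQ : ∀ v ∈ vs, (QL.map fun g =>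
      g.2.1 * (eDv 1 g.1 v.c).re (pt7 l η (2 * x + q) (yx τ x)) +
      g.2.2 * (eDv (-1) g.1 v.c).re (pt7 l η (2 * x + q) (yx τ x))).sum ≤
      (D.target v sg r0 r1 r2 (f v) L0 L1 (R v)).re (pt7 l η (2 * x + q) (yx τ x)))
    (hr : D.rd * (‖wx x q (Real.sin η) (Real.cos η)‖ ^ 2 - 1) +
      sg * l * rF r0 r1 r2 (wx x q (Real.sin η) (Real.cos η)) = 0) :
    ‖cfY D vs s τ (fun v => v.gm) * wx x q (Real.sin η) (Real.cos η) +
        cfY D vs s τ (fun v => (v.cR : ℂ) + v.cI * I) +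
        (l : ℂ) * ((sg * cfY D vs s τ (fun v => ((f v).aR : ℂ) + (f v).aI * I)) *
            wx x q (Real.sin η) (Real.cos η) +
          sg * cfY D vs s τ (fun v => ((f v).bR : ℂ) + (f v).bI * I)) -
        e0 (Real.sin η) (Real.cos η)‖ ^ 2 +
        (QL.map fun g => pv g.1 τ * g.2.1).sum / (2 * D.M * (1 + τ ^ 2) ^ (D.m + 1) *
          Dc D.d (yx τ x).re (yx τ x).im ^ D.K) * dpol τ 1 x q (Real.sin η) (Real.cos η) +
        (QL.map fun g => pv g.1 τ * g.2.2).sum / (2 * D.M * (1 + τ ^ 2) ^ (D.m + 1) *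
          Dc D.d (yx τ x).re (yx τ x).im ^ D.K) * dpol τ (-1) x q (Real.sin η) (Real.cos η) ≤
      -(mn vs s (fun v => (v.ka : ℝ)) / (D.M * (1 + τ ^ 2) ^ D.m)) * x.re +
        (mn vs s (fun v => (v.ka : ℝ)) + pv D.nu τ) / (D.M * (1 + τ ^ 2) ^ D.m) *
          (‖x‖ ^ 2 + x.re) + D.NN vs s τ x q η +
        ((MSc L0 l (wx x q (Real.sin η) (Real.cos η)) / D.M + (τ : ℂ) *
          (MSc L1 l (wx x q (Real.sin η) (Real.cos η)) / D.M)) * e0 (Real.sin η) (Real.cos η) *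
          ((1 + I * τ) / 2 * x ^ 2 + x)).re := by
  have hr' : D.rd * (‖wW (2 * x + q) η‖ ^ 2 - 1) + sg * l * rF r0 r1 r2 (wW (2 * x + q) η) = 0 := by
    rw [← wx_wW]
    exact hr
  have k1 := mn_mono hs hQ
  rw [mean_QL hR hp] at k1
  have e1 : mn vs s (fun v => (D.target v sg r0 r1 r2 (f v) L0 L1 (R v)).re
      (pt7 l η (2 * x + q) (yx τ x))) = Dc D.d (yx τ x).re (yx τ x).im ^ D.K *
      mn vs s (fun v => D.FF v sg (f v) L0 L1 l (2 * x + q) (yx τ x) η) := by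
    rw [← mn_mul]
    exact mn_congr fun v _ => target_re l η (2 * x + q) (yx τ x) w v sg r0 r1 r2 (f v) h0 h1 (R v)
      hr'
  rw [e1, mean_FF hdeg hM hR] at k1
  have k2 := bf_mean hs htw hF hR sg f l (wx x q (Real.sin η) (Real.cos η))
    (e0 (Real.sin η) (Real.cos η))
  have hD : 0 < Dc D.d (yx τ x).re (yx τ x).im ^ D.K := pow_pos (Dc_pos _ _ _) _
  have hM' : (0:ℝ) < D.M := by exact_mod_cast hM
  have hF' : (0:ℝ) < D.Fd := by exact_mod_cast hF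
  have hMF' : (D.M : ℝ) = D.Fd ^ 2 * D.Mt := by exact_mod_cast hMF
  have hQp : 0 < (1 + τ ^ 2) ^ (D.m + 1) := by positivity
  have hMt : (0:ℝ) < D.Mt := by
    by_contra hc
    have : (D.Fd : ℝ) ^ 2 * D.Mt ≤ 0 := mul_nonpos_of_nonneg_of_nonpos (by positivity) (not_lt.1 hc)
    linarith
  have k3 := mul_le_mul_of_nonneg_left k2 hMt.le
  generalize ‖cfY D vs s τ (fun v => v.gm) * wx x q (Real.sin η) (Real.cos η) +
        cfY D vs s τ (fun v => (v.cR : ℂ) + v.cI * I) +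
        (l : ℂ) * ((sg * cfY D vs s τ (fun v => ((f v).aR : ℂ) + (f v).aI * I)) *
            wx x q (Real.sin η) (Real.cos η) +
          sg * cfY D vs s τ (fun v => ((f v).bR : ℂ) + (f v).bI * I)) -
        e0 (Real.sin η) (Real.cos η)‖ ^ 2 = T at *
  generalize mn vs s (fun v => D.tw v * ‖Bf sg v.gm v.cR v.cI (f v) l
        (wx x q (Real.sin η) (Real.cos η)) - D.Fd * e0 (Real.sin η) (Real.cos η)‖ ^ 2) = mT at *
  generalize -(mn vs s (fun v => (v.ka : ℝ)) / (D.M * (1 + τ ^ 2) ^ D.m)) * x.re +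
        (mn vs s (fun v => (v.ka : ℝ)) + pv D.nu τ) / (D.M * (1 + τ ^ 2) ^ D.m) *
          (‖x‖ ^ 2 + x.re) + D.NN vs s τ x q η +
        ((MSc L0 l (wx x q (Real.sin η) (Real.cos η)) / D.M + (τ : ℂ) *
          (MSc L1 l (wx x q (Real.sin η) (Real.cos η)) / D.M)) * e0 (Real.sin η) (Real.cos η) *
          ((1 + I * τ) / 2 * x ^ 2 + x)).re = RH at *
  generalize (QL.map fun g => pv g.1 τ * g.2.1).sum = q1 at *
  generalize (QL.map fun g => pv g.1 τ * g.2.2).sum = q2 at *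
  generalize dpol τ 1 x q (Real.sin η) (Real.cos η) = d1 at *
  generalize dpol τ (-1) x q (Real.sin η) (Real.cos η) = d2 at *
  generalize Dc D.d (yx τ x).re (yx τ x).im ^ D.K = DK at *
  generalize (1 + τ ^ 2) ^ (D.m + 1) = Q at *
  have hden : 0 < 2 * (D.M : ℝ) * Q * DK := by positivity
  have e7 : q1 / (2 * D.M * Q * DK) * d1 + q2 / (2 * D.M * Q * DK) * d2 =
      (q1 * d1 + q2 * d2) / (2 * D.M * Q * DK) := by ring
  have k4 : 2 * (D.M : ℝ) * Q * T ≤ 2 * D.Mt * mT := by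
    rw [hMF']
    linarith
  have k5 : q1 * d1 + q2 * d2 ≤ DK * (2 * D.M * Q * (RH - T)) := by
    refine k1.trans (mul_le_mul_of_nonneg_left ?_ hD.le)
    linarith
  have k6 : (q1 * d1 + q2 * d2) / (2 * D.M * Q * DK) ≤ RH - T := by
    rw [div_le_iff₀ hden]
    refine k5.trans (le_of_eq ?_)
    ring
  linarith

end DatY

end Pool.Agent.Helper65.CKY
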