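import Pool.Agent.Helper65.CKY.Fin
set_option autoImplicit false
open Complex MeasureTheory Metric Set
open scoped Real ComplexConjugate

/-!
# Project CKY: the rays and arcs of directions from the data
-/

namespace Pool.Agent.Helper65.CKY

open Pool.Sos71 Pool.EK71 Pool.Agent.Helper2.EK
open Pool.Agent.Helper52.EK hiding ee
open Pool.Agent.Helper20.EK7 (InL OutL OutD)
open Pool.Agent.Helper20.CK (ROk)
open Pool.Agent.Helper99.CKC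
open Pool.Agent.Helper82.CKC (wu)
open Pool.Agent.Helper69.CK (MOk)
open Pool.Agent.Helper11.CKC (CL MSc MqA HChk covH rayB mOk_ray FChk covB arcB)
open Pool.Agent.Helper42.CKC
open Pool.Agent.Helper65.CKC (DirX SecI secI_of_DirX mOk_arcI arc_of)
open Pool.Agent.Helper33.CKC (Low low)
open Pool.Agent.Helper58.CKC (SigC)

/-! ### numbers -/

/-- the numbers of a vertex -/
def numY (D : DatY) (kA kB kD : ℤ) (v : Vy) : Bool :=
  and (and (decide (0 ≤ Int.add v.ka (dt D.nu v.c))) (decide (dt D.nu v.c ≤ 0)))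
    (decide (Int.mul v.ka kD < Int.mul (Int.mul 2 D.M) (Int.add (Int.mul kA (dt (P1 D.m) v.c))
      (Int.mul kB (dt (0 :: 0 :: P1 D.m) v.c)))))

theorem mn_lt_or {vs : List Vy} {s f g : Vy → ℝ} (hs : ∀ v ∈ vs, 0 ≤ s v)
    (h : ∀ v ∈ vs, f v < g v) : mn vs s f < mn vs s g ∨ ∀ v ∈ vs, s v = 0 := by
  induction vs with
  | nil => exact Or.inr fun v hv => absurd hv List.not_mem_nil
  | cons v vs ih =>
    have hs' : ∀ u ∈ vs, 0 ≤ s u := fun u hu => hs u (List.mem_cons_of_mem _ hu)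
    have h' : ∀ u ∈ vs, f u < g u := fun u hu => h u (List.mem_cons_of_mem _ hu)
    have e : ∀ F : Vy → ℝ, mn (v :: vs) s F = s v * F v + mn vs s F := fun F => by
      unfold mn
      rw [List.map_cons, List.sum_cons]
    rw [e, e]
    have hle : mn vs s f ≤ mn vs s g := mn_mono hs' fun u hu => (h' u hu).le
    have hv := h v List.mem_cons_self
    rcases eq_or_lt_of_le (hs v List.mem_cons_self) with h0 | h0
    · rcases ih hs' h' with h1 | h1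
      · left
        rw [← h0, zero_mul, zero_mul, zero_add, zero_add]
        exact h1
      · right
        intro u hu
        rcases List.mem_cons.1 hu with rfl | hu
        · exact h0.symm
        · exact h1 u hu
    · left
      have := mul_lt_mul_of_pos_left hv h0
      linarith

theorem mn_lt {vs : List Vy} {s f g : Vy → ℝ} (hs : ∀ v ∈ vs, 0 ≤ s v)
    (h : ∀ v ∈ vs, f v < g v) {F : Vy → ℝ} (hF : mn vs s F ≠ 0) : mn vs s f < mn vs s g := by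
  rcases mn_lt_or hs h with h1 | h1
  · exact h1
  · exfalso
    apply hF
    rw [← mn_zero (vs := vs) (s := s)]
    unfold mn
    congr 1
    exact List.map_congr_left fun v hv => by rw [h1 v hv, zero_mul, zero_mul]

section
variable {D : DatY} {VS : List Vy} {BS : List (List ℤ)} {Ln Ld Ln' Ld' : ℤ}

theorem num_Y {kA kB kD : ℤ} (hnum : ∀ v ∈ VS, numY D kA kB kD v = true) (hM : 0 < D.M)
    (hk : 0 < kD) (hnu : D.nu.length ≤ 2 * D.m + 2) {s : Vy → ℝ} {τ : ℝ}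
    (hs : ∀ v ∈ VS, 0 ≤ s v) (hR : Rep (2 * D.m + 2) VS s τ) :
    0 ≤ (mn VS s (fun v => (v.ka : ℝ)) + pv D.nu τ) / (D.M * (1 + τ ^ 2) ^ D.m) ∧
    (mn VS s (fun v => (v.ka : ℝ)) + pv D.nu τ) / (D.M * (1 + τ ^ 2) ^ D.m) ≤
      mn VS s (fun v => (v.ka : ℝ)) / (D.M * (1 + τ ^ 2) ^ D.m) ∧
    mn VS s (fun v => (v.ka : ℝ)) / (D.M * (1 + τ ^ 2) ^ D.m) <
      2 * ((kA : ℝ) / kD + kB / kD * τ ^ 2) := by
  have hM' : (0:ℝ) < D.M := by exact_mod_cast hM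
  have hk' : (0:ℝ) < kD := by exact_mod_cast hk
  have hZ : 0 < (1 + τ ^ 2) ^ D.m := by positivity
  have hden : 0 < (D.M : ℝ) * (1 + τ ^ 2) ^ D.m := by positivity
  obtain ⟨a1, a2, a3⟩ := DatY.len_P D
  have hn : ∀ v ∈ VS, (0 : ℝ) ≤ v.ka + dt D.nu v.c ∧ (dt D.nu v.c : ℝ) ≤ 0 ∧
      (kD : ℝ) * v.ka < 2 * D.M * (kA * dt (P1 D.m) v.c + kB * dt (0 :: 0 :: P1 D.m) v.c) := by
    intro v hv
    have h := hnum v hv
    simp only [numY, Bool.and_eq_true, decide_eq_true_eq] at h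
    obtain ⟨⟨h1, h2⟩, h3⟩ := h
    refine ⟨?_, by exact_mod_cast h2, ?_⟩
    · have h4 : (0 : ℤ) ≤ v.ka + dt D.nu v.c := h1
      exact_mod_cast h4
    · have h4 : v.ka * kD < (2 * D.M) * (kA * dt (P1 D.m) v.c +
        kB * dt (0 :: 0 :: P1 D.m) v.c) := h3
      rw [mul_comm] at h4
      exact_mod_cast h4
  have e1 : mn VS s (fun v => (v.ka : ℝ)) + pv D.nu τ =
      mn VS s (fun v => (v.ka : ℝ) + dt D.nu v.c) := by
    rw [mn_add, rep_dt hR _ (by omega)]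
  have e2 : pv D.nu τ ≤ 0 := by
    rw [← rep_dt hR _ (by omega)]
    have := mn_mono hs fun v hv => (hn v hv).2.1
    rwa [mn_zero] at this
  refine ⟨?_, ?_, ?_⟩
  · rw [e1]
    exact div_nonneg (mn_nonneg hs fun v hv => (hn v hv).1) hden.le
  · exact div_le_div_of_nonneg_right (by linarith) hden.le
  · have h1 := mn_lt hs (fun v hv => (hn v hv).2.2) (F := fun v => (D.tw v : ℝ)) (by
      rw [DatY.mean_tw hR]
      positivity)
    rw [mn_mul, mn_mul, mn_add, mn_mul, mn_mul, rep_dt hR _ a1, rep_dt hR _ a3, pv_shift,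
      pv_shift, pv_P1] at h1
    rw [div_lt_iff₀ hden]
    have e3 : 2 * ((kA : ℝ) / kD + kB / kD * τ ^ 2) * (D.M * (1 + τ ^ 2) ^ D.m) =
        (2 * D.M * (kA * (1 + τ ^ 2) ^ D.m + kB * (τ * (τ * (1 + τ ^ 2) ^ D.m)))) / kD := by
      field_simp
    rw [e3, lt_div_iff₀ hk', mul_comm]
    exact h1

/-- **one direction** -/
theorem dirY (o : D.Ok VS BS Ln Ld Ln' Ld')
    (hI : SideY D.K Ln Ld BS (VS.map fun v => (v.c, D.tIn v)))
    (hO : SideY D.K Ln' Ld' BS (VS.map fun v => (v.c, D.tOut v))) {kA kB kD : ℤ}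
    (hnum : ∀ v ∈ VS, numY D kA kB kD v = true) (hk : 0 < kD) {s : Vy → ℝ} {τ : ℝ}
    (hs : ∀ v ∈ VS, 0 ≤ s v) (hb : ∀ p ∈ BS, 0 ≤ pv p τ) (hR : Rep (2 * D.m + 2) VS s τ)
    {p0 p1 p2 q0 q1 q2 : ℝ} (e0 : D.p0 / D.rd = p0) (e1 : D.p1 / D.rd = p1)
    (e2 : D.p2 / D.rd = p2) (e3 : D.q0 / D.rd = q0) (e4 : D.q1 / D.rd = q1)
    (e5 : D.q2 / D.rd = q2)
    (hM : ∃ (Mb : ℝ) (M' : ℂ → ℂ) (Lm ε₀ : ℝ), Mb < 2 * ((kA : ℝ) / kD + kB / kD * τ ^ 2) ∧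
      0 < ε₀ ∧ MOk (fun m => conj (ud τ) ^ 2 * ((1 + (τ : ℂ) * I) / 2) *
        MqA D.M D.MI0 D.MI1 D.MO0 D.MO1 p0 p1 p2 q0 q1 q2 τ (wu (ud τ) m)) M' Mb Lm ε₀) :
    DirX ((kA : ℝ) / kD + kB / kD * τ ^ 2) τ p0 p1 p2 q0 q1 q2 := by
  subst e0 e1 e2 e3 e4 e5
  obtain ⟨B, hB, hX⟩ := o.point hI hO hs hb hR
  have hdeg := o.deg
  simp only [DatY.degB, Bool.and_eq_true, Nat.ble_eq] at hdeg
  obtain ⟨k0, k1, k2⟩ := num_Y hnum o.M0 hk hdeg.1 hs hR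
  obtain ⟨Mb, M', Lm, ε₀, hMb, hε, hMO⟩ := hM
  exact ⟨_, _, B, Mb, Lm, ε₀, _, _, _, _, _, _, _, M', _, hB, k0, k1, k2, hMb, hε,
    o.null s τ, hMO, hX⟩

/-! ### weights -/

/-- the representation of the monomials by the vertices `ic` with the weights `wt` -/
def RepL (n : ℕ) (wt : ℕ → ℝ → ℝ) (ic : List (ℕ × List ℤ)) (τ : ℝ) : Prop :=
  ∀ j ≤ n, (ic.map fun t => wt t.1 τ * (nz t.2 j : ℝ)).sum = τ ^ j

theorem RepL.rep {n : ℕ} {wt : ℕ → ℝ → ℝ} {ic : List (ℕ × List ℤ)} {τ : ℝ}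
    (h : RepL n wt ic τ) (e : (VS.map fun v => (v.id, v.c)) = ic) :
    Rep n VS (fun v => wt v.id τ) τ := by
  intro j hj
  rw [← h j hj, ← e, List.map_map]
  rfl

theorem wt_nonneg {wt : ℕ → ℝ → ℝ} {ic : List (ℕ × List ℤ)} {τ : ℝ}
    (h : ∀ t ∈ ic, 0 ≤ wt t.1 τ) (e : (VS.map fun v => (v.id, v.c)) = ic) :
    ∀ v ∈ VS, 0 ≤ wt v.id τ := by
  intro v hv
  refine h (v.id, v.c) ?_
  rw [← e]
  exact List.mem_map.2 ⟨v, hv, rfl⟩

/-- the cone `τ ≥ p/q`, degree 2 -/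
def cone2 (p q : ℤ) : List (ℕ × List ℤ) :=
  [(0, [q ^ 2, q * p, p ^ 2]), (1, [0, q, 2 * p]), (2, [0, 0, 1])]

/-- the cone `τ ≥ p/q`, degree 4 -/
def cone4 (p q : ℤ) : List (ℕ × List ℤ) :=
  [(0, [q ^ 4, q ^ 3 * p, q ^ 2 * p ^ 2, q * p ^ 3, p ^ 4]),
    (1, [0, q ^ 3, 2 * (q ^ 2 * p), 3 * (q * p ^ 2), 4 * p ^ 3]),
    (2, [0, 0, q ^ 2, 3 * (q * p), 6 * p ^ 2]), (3, [0, 0, 0, q, 4 * p]), (4, [0, 0, 0, 0, 1])]

/-- the weights of a cone -/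
noncomputable def wtC (n : ℕ) (p q : ℤ) (k : ℕ) (τ : ℝ) : ℝ := (q * τ - p) ^ k / (q : ℝ) ^ n

theorem wtC_nonneg {n : ℕ} {p q : ℤ} (hq : 0 < q) {τ : ℝ} (h : (p : ℝ) ≤ q * τ) (k : ℕ) :
    0 ≤ wtC n p q k τ := by
  have hq' : (0:ℝ) < q := by exact_mod_cast hq
  exact div_nonneg (pow_nonneg (by linarith) _) (pow_nonneg hq'.le _)

theorem cone2_rep {p q : ℤ} (hq : 0 < q) (τ : ℝ) : RepL 2 (wtC 2 p q) (cone2 p q) τ := by
  have hq' : (q : ℝ) ≠ 0 := by exact_mod_cast hq.ne'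
  intro j hj
  unfold cone2 wtC
  interval_cases j <;>
  · simp only [List.map_cons, List.map_nil, List.sum_cons, List.sum_nil, nz]
    push_cast
    field_simp
    ring

theorem cone4_rep {p q : ℤ} (hq : 0 < q) (τ : ℝ) : RepL 4 (wtC 4 p q) (cone4 p q) τ := by
  have hq' : (q : ℝ) ≠ 0 := by exact_mod_cast hq.ne'
  intro j hj
  unfold cone4 wtC
  interval_cases j <;>
  · simp only [List.map_cons, List.map_nil, List.sum_cons, List.sum_nil, nz]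
    push_cast
    field_simp
    ring

/-- the polynomials `1, q τ - p, (q τ - p)²` of the discs -/
def bs1 : List (List ℤ) := [[1]]
def bs3 (p q : ℤ) : List (List ℤ) := [[1], [-p, q], [p ^ 2, -(2 * (p * q)), q ^ 2]]

theorem bs1_nonneg (τ : ℝ) : ∀ g ∈ bs1, 0 ≤ pv g τ := by
  intro g hg
  simp only [bs1, List.mem_singleton] at hg
  subst hg
  simp [pv]

theorem bs3_nonneg {p q : ℤ} {τ : ℝ} (h : (p : ℝ) ≤ q * τ) : ∀ g ∈ bs3 p q, 0 ≤ pv g τ := by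
  intro g hg
  simp only [bs3, List.mem_cons, List.mem_nil_iff, or_false] at hg
  rcases hg with rfl | rfl | rfl
  · simp [pv]
  · simp only [pv]
    push_cast
    linarith
  · simp only [pv]
    push_cast
    nlinarith [sq_nonneg ((q : ℝ) * τ - p)]

/-- Bernstein weights of an arc `[p/q, p'/q']`, degree 2 -/
def arc2 (p q p' q' : ℤ) : List (ℕ × List ℤ) :=
  [(0, [q ^ 2, q * p, p ^ 2]), (1, [2 * (q * q'), q * p' + p * q', 2 * (p * p')]),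
    (2, [q' ^ 2, q' * p', p' ^ 2])]

/-- the weights of an arc of degree `n` -/
noncomputable def wtB (n : ℕ) (p q p' q' : ℤ) (k : ℕ) (τ : ℝ) : ℝ :=
  (q * τ - p) ^ k * (p' - q' * τ) ^ (n - k) / (q * p' - p * q' : ℝ) ^ n

theorem wtB_nonneg {n : ℕ} {p q p' q' : ℤ} (hd : p * q' < q * p') {τ : ℝ} (h : (p : ℝ) ≤ q * τ)
    (h' : q' * τ ≤ (p' : ℝ)) (k : ℕ) : 0 ≤ wtB n p q p' q' k τ := by
  have hq' : (p : ℝ) * q' < q * p' := by exact_mod_cast hd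
  exact div_nonneg (mul_nonneg (pow_nonneg (by linarith) _) (pow_nonneg (by linarith) _))
    (pow_nonneg (by linarith) _)

theorem arc2_rep {p q p' q' : ℤ} (hd : p * q' < q * p') (τ : ℝ) :
    RepL 2 (wtB 2 p q p' q') (arc2 p q p' q') τ := by
  have hq' : (p : ℝ) * q' < q * p' := by exact_mod_cast hd
  have hne : ((q : ℝ) * p' - p * q') ^ 2 ≠ 0 := by
    have : (0:ℝ) < q * p' - p * q' := by linarith
    positivity
  obtain ⟨i, hi⟩ : ∃ i : ℝ, i = (((q : ℝ) * p' - p * q') ^ 2)⁻¹ := ⟨_, rfl⟩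
  have hi1 : ((q : ℝ) * p' - p * q') ^ 2 * i = 1 := by
    rw [hi]
    exact mul_inv_cancel₀ hne
  intro j hj
  unfold arc2 wtB
  simp only [div_eq_mul_inv, ← hi, List.map_cons, List.map_nil, List.sum_cons, List.sum_nil]
  interval_cases j
  · simp only [nz]
    push_cast
    linear_combination hi1
  · simp only [nz]
    push_cast
    linear_combination τ * hi1
  · simp only [nz]
    push_cast
    linear_combination τ ^ 2 * hi1

/-! ### the ray -/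

/-- all arcs `[T₀, T₁]` -/
def SecU (a b T₀ : ℝ) : Prop := ∀ T₁ : ℝ, SecI a b T₀ T₁

/-- **the ray `τ ≥ Tn / Td`** -/
theorem secU_ray (o : D.Ok VS BS Ln Ld Ln' Ld')
    (hI : SideY D.K Ln Ld BS (VS.map fun v => (v.c, D.tIn v)))
    (hO : SideY D.K Ln' Ld' BS (VS.map fun v => (v.c, D.tOut v))) {kA kB kD : ℤ}
    (hnum : ∀ v ∈ VS, numY D kA kB kD v = true) (hk : 0 < kD) (hA : kD ≤ kA) (hB : 0 ≤ kB)
    {p0 p1 p2 q0 q1 q2 : ℝ} (e0 : D.p0 / D.rd = p0) (e1 : D.p1 / D.rd = p1)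
    (e2 : D.p2 / D.rd = p2) (e3 : D.q0 / D.rd = q0) (e4 : D.q1 / D.rd = q1)
    (e5 : D.q2 / D.rd = q2) {Tn Td : ℤ} (hTd : 0 < Td)
    {wt : ℕ → ℝ → ℝ} {ic : List (ℕ × List ℤ)} (hic : (VS.map fun v => (v.id, v.c)) = ic)
    (hw : ∀ τ : ℝ, (Tn : ℝ) ≤ Td * τ → (∀ t ∈ ic, 0 ≤ wt t.1 τ) ∧ (∀ p ∈ BS, 0 ≤ pv p τ) ∧
      RepL (2 * D.m + 2) wt ic τ) {r r0 r1 r2 s s0 s1 s2 : ℤ} (hr : ROk r r0 r1 r2 p0 p1 p2)
    (hr' : ROk s s0 s1 s2 q0 q1 q2) {cs : List HChk} (hcov : covH Tn Td cs = true)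
    (harc : rayB D.M D.MI0 D.MI1 D.MO0 D.MO1 r r0 r1 r2 s s0 s1 s2 kA kB kD cs = true)
    (hbox : ∀ c ∈ cs, c.okI = true ∧ c.okO = true) :
    SecU ((kA : ℝ) / kD) ((kB : ℝ) / kD) ((Tn : ℝ) / Td) := by
  have hk0 : (0:ℝ) < kD := by exact_mod_cast hk
  have hA0 : (kD : ℝ) ≤ kA := by exact_mod_cast hA
  have hB0 : (0:ℝ) ≤ kB := by exact_mod_cast hB
  have hT0 : (0:ℝ) < Td := by exact_mod_cast hTd
  have hp : InL p0 p1 p2 := by
    rw [← e0, ← e1, ← e2]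
    exact o.inL
  have hq : OutD q0 q1 q2 := by
    rw [← e3, ← e4, ← e5]
    exact o.outD
  intro T₁
  refine secI_of_DirX (p0 := p0) (p1 := p1) (p2 := p2) (q0 := q0) (q1 := q1) (q2 := q2)
    ((one_le_div hk0).2 hA0) (div_nonneg hB0 hk0.le) hp hq fun τ h0 _ => ?_
  have h0' : (Tn : ℝ) ≤ Td * τ := by
    rw [mul_comm]
    exact (div_le_iff₀ hT0).1 h0
  obtain ⟨w1, w2, w3⟩ := hw τ h0'
  exact dirY o hI hO hnum hk (wt_nonneg w1 hic) w2 (w3.rep hic) e0 e1 e2 e3 e4 e5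
    (mOk_ray hp hq hr hr' hTd (hk.le.trans hA) hB hk hcov harc hbox h0')

/-- **the arc `An / Ad ≤ τ ≤ Tn / Td`** -/
theorem secI_Y (o : D.Ok VS BS Ln Ld Ln' Ld')
    (hI : SideY D.K Ln Ld BS (VS.map fun v => (v.c, D.tIn v)))
    (hO : SideY D.K Ln' Ld' BS (VS.map fun v => (v.c, D.tOut v))) {kA kB kD : ℤ}
    (hnum : ∀ v ∈ VS, numY D kA kB kD v = true) (hk : 0 < kD) (hA : kD ≤ kA) (hB : 0 ≤ kB)
    {p0 p1 p2 q0 q1 q2 : ℝ} (e0 : D.p0 / D.rd = p0) (e1 : D.p1 / D.rd = p1)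
    (e2 : D.p2 / D.rd = p2) (e3 : D.q0 / D.rd = q0) (e4 : D.q1 / D.rd = q1)
    (e5 : D.q2 / D.rd = q2) {An Ad Tn Td : ℤ} (hAd : 0 < Ad) (hTd : 0 < Td)
    {wt : ℕ → ℝ → ℝ} {ic : List (ℕ × List ℤ)} (hic : (VS.map fun v => (v.id, v.c)) = ic)
    (hw : ∀ τ : ℝ, (An : ℝ) ≤ Ad * τ → (Td : ℝ) * τ ≤ Tn → (∀ t ∈ ic, 0 ≤ wt t.1 τ) ∧
      (∀ p ∈ BS, 0 ≤ pv p τ) ∧ RepL (2 * D.m + 2) wt ic τ) {r r0 r1 r2 s s0 s1 s2 : ℤ}
    (hr : ROk r r0 r1 r2 p0 p1 p2) (hr' : ROk s s0 s1 s2 q0 q1 q2) {cs : List FChk}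
    (hne : cs ≠ []) (hcov : covB Tn Td An Ad cs = true)
    (harc : arcB D.M D.MI0 D.MI1 D.MO0 D.MO1 r r0 r1 r2 s s0 s1 s2 kA kB kD cs = true)
    (hbox : ∀ c ∈ cs, c.okI = true ∧ c.okO = true) :
    SecI ((kA : ℝ) / kD) ((kB : ℝ) / kD) ((An : ℝ) / Ad) ((Tn : ℝ) / Td) := by
  have hk0 : (0:ℝ) < kD := by exact_mod_cast hk
  have hA0 : (kD : ℝ) ≤ kA := by exact_mod_cast hA
  have hB0 : (0:ℝ) ≤ kB := by exact_mod_cast hB
  have hT0 : (0:ℝ) < Td := by exact_mod_cast hTd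
  have hT1 : (0:ℝ) < Ad := by exact_mod_cast hAd
  have hp : InL p0 p1 p2 := by
    rw [← e0, ← e1, ← e2]
    exact o.inL
  have hq : OutD q0 q1 q2 := by
    rw [← e3, ← e4, ← e5]
    exact o.outD
  refine secI_of_DirX (p0 := p0) (p1 := p1) (p2 := p2) (q0 := q0) (q1 := q1) (q2 := q2)
    ((one_le_div hk0).2 hA0) (div_nonneg hB0 hk0.le) hp hq fun τ h0 h1 => ?_
  have h0' := (div_le_iff₀ hT1).1 h0
  have h1' := (le_div_iff₀ hT0).1 h1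
  obtain ⟨w1, w2, w3⟩ := hw τ (by rw [mul_comm]; exact h0') (by rw [mul_comm]; exact h1')
  exact dirY o hI hO hnum hk (wt_nonneg w1 hic) w2 (w3.rep hic) e0 e1 e2 e3 e4 e5
    (mOk_arcI hp hq hr hr' hne hAd hTd hB hk hcov harc hbox h0' h1')

end

/-! ### the region of a ray -/

theorem SecU.mono {a b a' b' T₀ T₂ : ℝ} (h : SecU a b T₀) (ha : a ≤ a') (hb : b ≤ b')
    (h0 : T₀ ≤ T₂) : SecU a' b' T₂ := fun T₁ =>
  (h T₁).mono ha hb h0 le_rfl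

theorem secU_union {a b T₀ T₁ : ℝ} (h : SecI a b T₀ T₁) (h' : SecU a b T₁) : SecU a b T₀ :=
  fun T₂ => Pool.Agent.Helper65.CKC.secI_union h (h' T₂)

/-- all directions of a ray and of its reflection -/
theorem ray_of {a b T₀ : ℝ} (hb : 0 < b) (H : SecU a b T₀) :
    ∀ t : ℂ, t ≠ 0 → T₀ ^ 2 * (‖t‖ - t.re) ≤ ‖t‖ + t.re →
      a * (‖t‖ - t.re) + b * (‖t‖ + t.re) ≤ ‖t‖ * (‖t‖ - t.re) →
      ∀ e : ℝ, 0 < e → SigC t (‖t‖ - 1 + e) := by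
  intro t ht h1 h2
  have hn : 0 < ‖t‖ := norm_pos_iff.2 ht
  have hre : t.re ≤ ‖t‖ := Complex.re_le_norm t
  have hd : 0 < ‖t‖ - t.re := by
    rcases hre.lt_or_eq with h | h
    · linarith
    · exfalso
      rw [h, sub_self, mul_zero, mul_zero, zero_add] at h2
      have : 0 < b * (‖t‖ + ‖t‖) := by positivity
      linarith
  have h3 : 0 ≤ (‖t‖ + t.re) / (‖t‖ - t.re) := by
    have := (abs_le.1 (Complex.abs_re_le_norm t)).1
    exact div_nonneg (by linarith) hd.le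
  refine arc_of (T₀ := T₀) (T₁ := Real.sqrt ((‖t‖ + t.re) / (‖t‖ - t.re)))
    (Real.sqrt_nonneg _) (H _) t ht h1 ?_ h2
  rw [Real.sq_sqrt h3, div_mul_cancel₀ _ hd.ne']

/-- the region of a ray -/
def Ray (a b T₀ : ℝ) (t : ℂ) : Prop :=
  T₀ ^ 2 * (‖t‖ - t.re) ≤ ‖t‖ + t.re ∧
    a * (‖t‖ - t.re) + b * (‖t‖ + t.re) ≤ ‖t‖ * (‖t‖ - t.re)

/-- **upper and lower bound in the region of a ray** -/
theorem ray_all {a b T₀ : ℝ} (ha : 1 < a) (hb : 0 < b) (H : SecU a b T₀) {t : ℂ} (ht : t ≠ 0)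
    (h : Ray a b T₀ t) : (∀ e : ℝ, 0 < e → SigC t (‖t‖ - 1 + e)) ∧ Low t := by
  obtain ⟨h1, h2⟩ := h
  refine ⟨ray_of hb H t ht h1 h2, ?_⟩
  have hn : 0 < ‖t‖ := norm_pos_iff.2 ht
  have hre : t.re ≤ ‖t‖ := Complex.re_le_norm t
  have hre2 : -‖t‖ ≤ t.re := (abs_le.1 (Complex.abs_re_le_norm t)).1
  have hlt : t.re < ‖t‖ := by
    rcases hre.lt_or_eq with h | h
    · exact h
    · exfalso
      rw [h, sub_self, mul_zero, mul_zero, zero_add] at h2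
      have : 0 < b * (‖t‖ + ‖t‖) := by positivity
      linarith
  refine low ?_ hlt
  have hd : 0 < ‖t‖ - t.re := by linarith
  have hb' : 0 ≤ b * (‖t‖ + t.re) := mul_nonneg hb.le (by linarith)
  have h3 : a * (‖t‖ - t.re) ≤ ‖t‖ * (‖t‖ - t.re) := by linarith
  have h4 := le_of_mul_le_mul_right h3 hd
  linarith

end Pool.Agent.Helper65.CKY
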