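import Pool.Agent.Helper65.CKY.Lin
set_option autoImplicit false
open Complex MeasureTheory Metric Set
open scoped Real ComplexConjugate

/-!
# Project CKY: the value of the target of a vertex and its mean
-/

namespace Pool.Agent.Helper65.CKY

open Pool.Sos71 Pool.EK71 Pool.Agent.Helper2.EK
open Pool.Agent.Helper52.EK hiding ee
open Pool.Agent.Helper69.EK3 (AP aev af imul_cast' iadd_cast' rF)
open Pool.Agent.Helper99.CKC
open Pool.Agent.Helper11.CKC (CL MSc ineg_cast')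
open Pool.Agent.Helper42.CKC

/-! ### sums of potentials -/

noncomputable def VsV (d : DC) (c : List ℤ) (V : List (List ℤ × List GrC)) (W y : ℂ) (η : ℝ) : ℝ :=
  (V.map fun g => NVsv d (dt g.1 c) (dt (0 :: g.1) c) g.2 W y η).sum

noncomputable def VsF (d : DC) (c : List ℤ) (V : List (List ℤ × List GrC)) (W y : ℂ) (η : ℝ) : ℝ :=
  (V.map fun g => NFsv d (dt g.1 c) (dt (0 :: g.1) c) (dt (0 :: 0 :: g.1) c) g.2 W y η).sum

/-- all potentials have order below `K` -/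
def kOk (K : ℕ) (V : List (List ℤ × List GrC)) : Bool :=
  V.all fun g => g.2.all fun G => Nat.ble (G.k + 1) K

section val
variable (l η : ℝ) (W y : ℂ)

theorem sumV_re (c : List ℤ) (d : DC) (K : ℕ) {V : List (List ℤ × List GrC)}
    (h : kOk K V = true) (e : Ex) : (sumV c d K V e).re (pt7 l η W y) =
      Dc d y.re y.im ^ K * VsV d c V W y η + e.re (pt7 l η W y) := by
  unfold VsV
  induction V with
  | nil => simp [sumV]
  | cons g V ih =>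
    simp only [kOk, List.all_cons, Bool.and_eq_true] at h
    obtain ⟨h1, h2⟩ := h
    simp only [List.all_eq_true, Nat.ble_eq] at h1
    show (sumX (EV (dt g.1 c) (dt (0 :: g.1) c) d K) (sumV c d K V e) g.2).re (pt7 l η W y) = _
    rw [sumX_re, ih (by simpa only [kOk] using h2), List.map_cons, List.sum_cons,
      List.map_congr_left fun G hG => EV_re l η W y (dt g.1 c) (dt (0 :: g.1) c) d (h1 G hG),
      map_mul_l]
    unfold NVsv
    ring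

theorem sumF_re (c : List ℤ) (d : DC) (K : ℕ) {V : List (List ℤ × List GrC)}
    (h : kOk K V = true) (e : Ex) : (sumF c d K V e).re (pt7 l η W y) =
      Dc d y.re y.im ^ K * VsF d c V W y η + e.re (pt7 l η W y) := by
  unfold VsF
  induction V with
  | nil => simp [sumF]
  | cons g V ih =>
    simp only [kOk, List.all_cons, Bool.and_eq_true] at h
    obtain ⟨h1, h2⟩ := h
    simp only [List.all_eq_true, Nat.ble_eq] at h1
    show (sumX (EF (dt g.1 c) (dt (0 :: g.1) c) (dt (0 :: 0 :: g.1) c) d K)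
      (sumF c d K V e) g.2).re (pt7 l η W y) = _
    rw [sumX_re, ih (by simpa only [kOk] using h2), List.map_cons, List.sum_cons,
      List.map_congr_left fun G hG => EF_re l η W y (dt g.1 c) (dt (0 :: g.1) c)
        (dt (0 :: 0 :: g.1) c) d (h1 G hG), map_mul_l]
    unfold NFsv
    ring

end val

namespace DatY
variable (D : DatY)

/-- `T` weight of a vertex -/
def tw (v : Vy) : ℤ := Int.add (dt (P1 D.m) v.c) (dt (0 :: 0 :: P1 D.m) v.c)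

/-- `2 M (1 + τ²)^(m + 1) F` at a vertex -/
noncomputable def FF (v : Vy) (s : ℤ) (f : Fl) (L0 L1 : CL) (l : ℝ) (W y : ℂ) (η : ℝ) : ℝ :=
  -2 * D.Mt * (D.tw v * ‖Bf s v.gm v.cR v.cI f l (wW W η) -
      D.Fd * e0 (Real.sin η) (Real.cos η)‖ ^ 2) + 2 * NHms v.HM y W η +
    2 * (VsV D.d v.c D.V W y η + VsF D.d v.c D.F W y η) +
    (MTy (dt (P1 D.m) v.c) (dt (0 :: P1 D.m) v.c) L0 l (wW W η)
        (e0 (Real.sin η) (Real.cos η)) y +
      MTy (dt (0 :: P1 D.m) v.c) (dt (0 :: 0 :: P1 D.m) v.c) L1 l (wW W η)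
        (e0 (Real.sin η) (Real.cos η)) y) +
    2 * ((v.ka + dt D.nu v.c) * ‖y‖ ^ 2 + (dt D.nu v.c * y.re + dt (0 :: D.nu) v.c * y.im))

/-- conditions on the data -/
structure Wf : Prop where
  v0 : kOk D.K D.V = true
  f0 : kOk D.K D.F = true
  i0 : ∀ t ∈ D.MI0, t.2.1 ≤ 2
  i1 : ∀ t ∈ D.MI1, t.2.1 ≤ 2
  o0 : ∀ t ∈ D.MO0, t.2.1 ≤ 2
  o1 : ∀ t ∈ D.MO1, t.2.1 ≤ 2

def wf : Bool :=
  kOk D.K D.V && kOk D.K D.F &&
    D.MI0.all (fun t => Nat.ble t.2.1 2) && D.MI1.all (fun t => Nat.ble t.2.1 2) &&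
    D.MO0.all (fun t => Nat.ble t.2.1 2) && D.MO1.all (fun t => Nat.ble t.2.1 2)

theorem wf_iff (h : D.wf = true) : D.Wf := by
  simp only [wf, Bool.and_eq_true, Nat.ble_eq, List.all_eq_true] at h
  obtain ⟨⟨⟨⟨⟨h1, h2⟩, h3⟩, h4⟩, h5⟩, h6⟩ := h
  exact ⟨h1, h2, h3, h4, h5, h6⟩

variable {D}
section
variable (l η : ℝ) (W y : ℂ)

theorem eLin_re (v : Vy) : (D.eLin v).re (pt7 l η W y) = Dc D.d y.re y.im ^ D.K *
    (2 * ((v.ka + dt D.nu v.c) * ‖y‖ ^ 2 + (dt D.nu v.c * y.re +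
      dt (0 :: D.nu) v.c * y.im))) := by
  have e : (D.eLin v).re (pt7 l η W y) = xo.re (pt7 l η W y) ^ D.h * ev2 y.re y.im
      (mu2 [[0, Int.mul 2 (dt (0 :: D.nu) v.c), Int.mul 2 (Int.add v.ka (dt D.nu v.c))],
    [Int.mul 2 (dt D.nu v.c)], [Int.mul 2 (Int.add v.ka (dt D.nu v.c))]] (Dk D.d D.K)) := rfl
  have e2 : ‖y‖ ^ 2 = y.re ^ 2 + y.im ^ 2 := by
    rw [← Complex.normSq_eq_norm_sq, Complex.normSq_apply]
    ring
  rw [e, v_xo, one_pow, one_mul, ev2_mu, Dk_ev, e2]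
  simp only [ev2, ev1, imul_cast', iadd_cast']
  push_cast
  ring

theorem NHms_eq (L : List HmC) (d : DC) (K : ℕ) :
    (L.map fun t => (EHm d K t).re (pt7 l η W y)).sum = Dc d y.re y.im ^ K * NHms L y W η := by
  simp only [EHm_re, map_mul_l]
  rfl

theorem eMain_re (w : D.Wf) (v : Vy) (s : ℤ) (f : Fl) {L0 L1 : CL} (h0 : ∀ t ∈ L0, t.2.1 ≤ 2)
    (h1 : ∀ t ∈ L1, t.2.1 ≤ 2) : (D.eMain v s f L0 L1).re (pt7 l η W y) =
      Dc D.d y.re y.im ^ D.K * D.FF v s f L0 L1 l W y η := by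
  have e : (D.eMain v s f L0 L1).re (pt7 l η W y) =
      ((Int.mul (-2) (Int.mul (D.tw v) D.Mt) : ℤ) : ℝ) *
        (CX.nsq (cGv0 D.Fd s v.gm v.cR v.cI f)).re (pt7 l η W y) *
        (xo.re (pt7 l η W y) ^ (D.h - 2) * ev2 y.re y.im (Dk D.d D.K)) +
      (((2 : ℤ) : ℝ) * (sumX (EHm D.d D.K) (Ex.mul (Ex.pow xo D.h) (Ex.lit 0))
          v.HM).re (pt7 l η W y) +
        (((2 : ℤ) : ℝ) * (sumV v.c D.d D.K D.V
          (sumF v.c D.d D.K D.F (Ex.mul (Ex.pow xo D.h) (Ex.lit 0)))).re (pt7 l η W y) +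
        (sumX (EMy (dt (P1 D.m) v.c) (dt (0 :: P1 D.m) v.c) D.d D.K D.h)
          (sumX (EMy (dt (0 :: P1 D.m) v.c) (dt (0 :: 0 :: P1 D.m) v.c) D.d D.K D.h)
            (D.eLin v) L1) L0).re (pt7 l η W y))) := rfl
  rw [e, CX.v_nsq, v_cGv0, v_xo, one_pow, Dk_ev, sumX_re, lit0_re, NHms_eq,
    sumV_re l η W y _ _ _ w.v0, sumF_re l η W y _ _ _ w.f0, lit0_re, sumX_re, sumX_re,
    EMys_re l η W y _ _ _ _ _ h0, EMys_re l η W y _ _ _ _ _ h1, eLin_re, imul_cast', imul_cast']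
  unfold FF
  push_cast
  ring

theorem target_re (w : D.Wf) (v : Vy) (s r0 r1 r2 : ℤ) (f : Fl) {L0 L1 : CL}
    (h0 : ∀ t ∈ L0, t.2.1 ≤ 2) (h1 : ∀ t ∈ L1, t.2.1 ≤ 2) (R : List Rm)
    (hr : D.rd * (‖wW W η‖ ^ 2 - 1) + s * l * rF r0 r1 r2 (wW W η) = 0) :
    (D.target v s r0 r1 r2 f L0 L1 R).re (pt7 l η W y) =
      Dc D.d y.re y.im ^ D.K * D.FF v s f L0 L1 l W y η := by
  have e : (D.target v s r0 r1 r2 f L0 L1 R).re (pt7 l η W y) =
      (D.eMain v s f L0 L1).re (pt7 l η W y) + (eCn0 D.rd s r0 r1 r2).re (pt7 l η W y) *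
      (sumX (eRm D.d (D.K - D.kL)) (Ex.mul (Ex.pow xo (D.h - 2)) (Ex.lit 0)) R).re
        (pt7 l η W y) := rfl
  rw [e, eCn0_re, hr, zero_mul, add_zero, eMain_re l η W y w v s f h0 h1]

end

/-! ### the mean -/

/-- degrees of the data: `n = 2 m + 2` -/
def degB (D : DatY) : Bool :=
  Nat.ble D.nu.length (2 * D.m + 2) && (D.V.all (fun g => Nat.ble g.1.length (2 * D.m + 2)) &&
    D.F.all (fun g => Nat.ble g.1.length (2 * D.m + 1)))

/-- the null Lagrangian -/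
noncomputable def NN (D : DatY) (vs : List Vy) (s : Vy → ℝ) (τ : ℝ) (x q : ℂ) (η : ℝ) : ℝ :=
  1 / (D.M * (1 + τ ^ 2) ^ (D.m + 1)) *
    ((1 + τ ^ 2) * ((D.V.map fun g => pv g.1 τ *
        NGsY D.d τ (1 / ((1 + τ ^ 2 : ℝ) : ℂ)) 0 g.2 x q η).sum +
      (D.F.map fun g => pv g.1 τ * NGsY D.d τ (1 / (1 - I * τ)) 1 g.2 x q η).sum) +
    mn vs s (fun v => NHms v.HM (yx τ x) q η))

variable {vs : List Vy} {s : Vy → ℝ} {τ : ℝ}

theorem mean_V (hR : Rep (2 * D.m + 2) vs s τ) {V : List (List ℤ × List GrC)}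
    (hV : ∀ g ∈ V, g.1.length ≤ 2 * D.m + 2) (x q : ℂ) (η : ℝ) :
    mn vs s (fun v => VsV D.d v.c V (2 * x + q) (yx τ x) η) =
      (1 + τ ^ 2) * (V.map fun g => pv g.1 τ *
        NGsY D.d τ (1 / ((1 + τ ^ 2 : ℝ) : ℂ)) 0 g.2 x q η).sum := by
  unfold VsV
  rw [mn_list, ← map_mul_l]
  congr 1
  refine List.map_congr_left fun g hg => ?_
  have h1 := hV g hg
  rw [mn2 (NVsv_lin D.d g.2 (2 * x + q) (yx τ x) η) (fun v => (dt g.1 v.c : ℝ))
    (fun v => (dt (0 :: g.1) v.c : ℝ)), rep_dt hR _ (by omega),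
    rep_dt hR _ (by rw [List.length_cons]; omega), pv_shift]
  have h2 := NVsv_tau D.d τ g.2 x q η
  have h3 := NVsv_lin D.d g.2 (2 * x + q) (yx τ x) η
  rw [h3] at h2 ⊢
  linear_combination pv g.1 τ * h2

theorem mean_F (hR : Rep (2 * D.m + 2) vs s τ) {V : List (List ℤ × List GrC)}
    (hV : ∀ g ∈ V, g.1.length ≤ 2 * D.m + 1) (x q : ℂ) (η : ℝ) :
    mn vs s (fun v => VsF D.d v.c V (2 * x + q) (yx τ x) η) =
      (1 + τ ^ 2) * (V.map fun g => pv g.1 τ *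
        NGsY D.d τ (1 / (1 - I * τ)) 1 g.2 x q η).sum := by
  unfold VsF
  rw [mn_list, ← map_mul_l]
  congr 1
  refine List.map_congr_left fun g hg => ?_
  have h1 := hV g hg
  rw [mn3 (NFsv_lin D.d g.2 (2 * x + q) (yx τ x) η) (fun v => (dt g.1 v.c : ℝ))
    (fun v => (dt (0 :: g.1) v.c : ℝ)) (fun v => (dt (0 :: 0 :: g.1) v.c : ℝ)),
    rep_dt hR _ (by omega), rep_dt hR _ (by rw [List.length_cons]; omega),
    rep_dt hR _ (by rw [List.length_cons, List.length_cons]; omega)]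
  simp only [pv_shift]
  have h2 := NFsv_tau D.d τ g.2 x q η
  have h3 := NFsv_lin D.d g.2 (2 * x + q) (yx τ x) η
  rw [h3] at h2 ⊢
  linear_combination pv g.1 τ * h2

theorem len_P (D : DatY) : (P1 D.m).length ≤ 2 * D.m + 2 + 1 ∧
    (0 :: P1 D.m).length ≤ 2 * D.m + 2 + 1 ∧ (0 :: 0 :: P1 D.m).length ≤ 2 * D.m + 2 + 1 := by
  simp only [List.length_cons, length_P1]
  omega

theorem mean_M (hR : Rep (2 * D.m + 2) vs s τ) (L0 L1 : CL) (l : ℝ) (w e x : ℂ) :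
    mn vs s (fun v => MTy (dt (P1 D.m) v.c) (dt (0 :: P1 D.m) v.c) L0 l w e (yx τ x) +
      MTy (dt (0 :: P1 D.m) v.c) (dt (0 :: 0 :: P1 D.m) v.c) L1 l w e (yx τ x)) =
    2 * (1 + τ ^ 2) ^ (D.m + 1) * ((MSc L0 l w + (τ : ℂ) * MSc L1 l w) * e *
      ((1 + I * τ) / 2 * x ^ 2 + x)).re := by
  obtain ⟨a1, a2, a3⟩ := len_P D
  rw [mn_add, mn2 (MTy_lin L0 l w e (yx τ x)) (fun v => (dt (P1 D.m) v.c : ℝ))
    (fun v => (dt (0 :: P1 D.m) v.c : ℝ)), mn2 (MTy_lin L1 l w e (yx τ x))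
    (fun v => (dt (0 :: P1 D.m) v.c : ℝ)) (fun v => (dt (0 :: 0 :: P1 D.m) v.c : ℝ)),
    rep_dt hR _ a1, rep_dt hR _ a2, rep_dt hR _ a3]
  simp only [pv_shift, pv_P1]
  have h2 := MTy_tau τ L0 l w e x
  have h3 := MTy_tau τ L1 l w e x
  have h4 := MTy_lin L0 l w e (yx τ x)
  have h5 := MTy_lin L1 l w e (yx τ x)
  rw [h4] at h2 ⊢
  rw [h5] at h3 ⊢
  have e6 : ((MSc L0 l w + (τ : ℂ) * MSc L1 l w) * e * ((1 + I * τ) / 2 * x ^ 2 + x)).re =
      (MSc L0 l w * e * ((1 + I * τ) / 2 * x ^ 2 + x)).re +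
      τ * (MSc L1 l w * e * ((1 + I * τ) / 2 * x ^ 2 + x)).re := by
    rw [← re_ofReal_mul, ← add_re]
    congr 1
    ring
  rw [e6]
  linear_combination (1 + τ ^ 2) ^ D.m * h2 + τ * (1 + τ ^ 2) ^ D.m * h3

theorem mean_tw (hR : Rep (2 * D.m + 2) vs s τ) :
    mn vs s (fun v => (D.tw v : ℝ)) = (1 + τ ^ 2) ^ (D.m + 1) := by
  obtain ⟨a1, -, a3⟩ := len_P D
  have e : ∀ v : Vy, (D.tw v : ℝ) = dt (P1 D.m) v.c + dt (0 :: 0 :: P1 D.m) v.c := by
    intro v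
    unfold tw
    rw [iadd_cast']
  rw [mn_congr fun v _ => e v, mn_add, rep_dt hR _ a1, rep_dt hR _ a3, pv_shift, pv_shift, pv_P1]
  ring

theorem mean_disc (hR : Rep (2 * D.m + 2) vs s τ) {p : List ℤ} (hp : p.length ≤ 2 * D.m + 1)
    (z : ℤ) (l : ℝ) (x q : ℂ) (η : ℝ) :
    mn vs s (fun v => (eDv z p v.c).re (pt7 l η (2 * x + q) (yx τ x))) =
      pv p τ * dpol τ z x q (Real.sin η) (Real.cos η) := by
  have e : ∀ v : Vy, (eDv z p v.c).re (pt7 l η (2 * x + q) (yx τ x)) =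
      dpy (dt p v.c) (dt (0 :: p) v.c) (dt (0 :: 0 :: p) v.c) z (2 * x + q) (yx τ x) η := by
    intro v
    unfold eDv
    rw [eDy_re]
  have lin : ∀ a b c : ℝ, dpy a b c z (2 * x + q) (yx τ x) η =
      a * dpy 1 0 0 z (2 * x + q) (yx τ x) η + b * dpy 0 1 0 z (2 * x + q) (yx τ x) η +
      c * dpy 0 0 1 z (2 * x + q) (yx τ x) η := fun a b c => dpy_lin a b c z _ _ η
  rw [mn_congr fun v _ => e v, mn3 (g := fun a b c => dpy a b c z (2 * x + q) (yx τ x) η) lin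
    (fun v => (dt p v.c : ℝ)) (fun v => (dt (0 :: p) v.c : ℝ))
    (fun v => (dt (0 :: 0 :: p) v.c : ℝ)), rep_dt hR _ (by omega),
    rep_dt hR _ (by rw [List.length_cons]; omega),
    rep_dt hR _ (by rw [List.length_cons, List.length_cons]; omega)]
  simp only [pv_shift]
  rw [← dpy_tau, lin, lin 1 τ (τ ^ 2)]
  ring

/-- the mean of the linear part -/
theorem mean_lin (hR : Rep (2 * D.m + 2) vs s τ) (hn : D.nu.length ≤ 2 * D.m + 2) (x : ℂ) :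
    mn vs s (fun v => (v.ka + dt D.nu v.c) * ‖yx τ x‖ ^ 2 + (dt D.nu v.c * (yx τ x).re +
      dt (0 :: D.nu) v.c * (yx τ x).im)) =
    (1 + τ ^ 2) * ((mn vs s (fun v => (v.ka : ℝ)) + pv D.nu τ) * ‖x‖ ^ 2 + pv D.nu τ * x.re) := by
  rw [mn_add, mn_mulr, mn_add, mn_add, mn_mulr, mn_mulr, rep_dt hR _ (by omega),
    rep_dt hR _ (by rw [List.length_cons]; omega), pv_shift, yx_nsq]
  have h := yx_re τ x
  linear_combination (-pv D.nu τ) * h

end DatY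

end Pool.Agent.Helper65.CKY
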