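import Pool.Agent.Helper65.CKY.Null
set_option autoImplicit false
open Complex MeasureTheory Metric Set
open scoped Real ComplexConjugate

/-!
# Project CKY: values of the expressions at `pt7 l η W y`
-/

namespace Pool.Agent.Helper65.CKY

open Pool.Sos71 Pool.EK71 Pool.Agent.Helper2.EK
open Pool.Agent.Helper52.EK hiding ee
open Pool.Agent.Helper69.EK3 (AP aev af apE apE_re ader ash imul_cast' iadd_cast' ofNat_cast' rF
  rF_eq)
open Pool.Agent.Helper99.CKC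
open Pool.Agent.Helper11.CKC (CL MSc ineg_cast')
open Pool.Agent.Helper42.CKC

/-! ### real functions -/

/-- the value of `w` -/
noncomputable def wW (W : ℂ) (η : ℝ) : ℂ := wx 0 W (Real.sin η) (Real.cos η)

theorem wx_wW (x q : ℂ) (η : ℝ) : wx x q (Real.sin η) (Real.cos η) = wW (2 * x + q) η := by
  unfold wW wx
  ring

/-- the integrand of a potential, j = 0, for the pair  (c₀, c₁) -/
noncomputable def NVv (d : DC) (c0 c1 : ℝ) (k : ℕ) (t : AP × BP × BP) (W y : ℂ) (η : ℝ) : ℝ :=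
  (I * (c0 + c1 * I) * aC1 0 t.1 η * HD d k t.2.1 t.2.2 y +
    2 * af t.1 η * (HD d (k + 1) (qcX d k t.2.1) (qcX d k t.2.2) y +
      I * HD d (k + 1) (qcY d k t.2.1) (qcY d k t.2.2) y) *
      conj (((c0 + c1 * I) * pp W η - c0 * (Real.sin η * y)) * (1 + y))).re

/-- the integrand of a potential, j = 1, for  (c₀, c₁, c₂) -/
noncomputable def NFv (d : DC) (c0 c1 c2 : ℝ) (k : ℕ) (t : AP × BP × BP) (W y : ℂ) (η : ℝ) : ℝ :=
  (I * ((c0 - c2 + 2 * c1 * I) * pp W η - (c0 + c1 * I) * (Real.sin η * y)) *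
      af (adC 1 t.1) η * HD d k t.2.1 t.2.2 y +
    2 * af t.1 η * (((c0 + c2) * ‖pp W η‖ ^ 2 + c0 * ‖(Real.sin η : ℂ) * y‖ ^ 2 -
      2 * ((c0 + c1 * I) * pp W η * conj (Real.sin η * y)).re : ℝ) : ℂ) *
      (HD d (k + 1) (qcX d k t.2.1) (qcX d k t.2.2) y +
      I * HD d (k + 1) (qcY d k t.2.1) (qcY d k t.2.2) y) * conj (1 + y)).re

noncomputable def NVsv (d : DC) (c0 c1 : ℝ) (L : List GrC) (W y : ℂ) (η : ℝ) : ℝ :=
  (L.map fun G => (G.l.map fun t => NVv d c0 c1 G.k t W y η).sum).sum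

noncomputable def NFsv (d : DC) (c0 c1 c2 : ℝ) (L : List GrC) (W y : ℂ) (η : ℝ) : ℝ :=
  (L.map fun G => (G.l.map fun t => NFv d c0 c1 c2 G.k t W y η).sum).sum

/-- the multiplier term -/
noncomputable def MTy (c0 c1 : ℝ) (L : CL) (l : ℝ) (w e y : ℂ) : ℝ :=
  ((c0 - c1 * I) * MSc L l w * e * (y ^ 2 + 2 * y)).re

/-- the polynomial of a disc -/
noncomputable def dpy (T t s' σ : ℝ) (W y : ℂ) (η : ℝ) : ℝ :=
  4 * (T + s') - (4 * (T + s') * ‖pp W η‖ ^ 2 - 4 * (2 - 2 * σ) *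
      ((T - t * I) * (Real.sin η * y) * conj (pp W η)).re +
      (2 - 2 * σ) ^ 2 * T * ‖(Real.sin η : ℂ) * y‖ ^ 2) -
    4 * (pp W η * (2 * σ * Real.sin η * (T + I * t) +
      I * Real.cos η * (T + 2 * I * t - s'))).re +
    2 * (2 - 2 * σ) * ((Real.sin η * y) * (2 * σ * Real.sin η * T +
      I * Real.cos η * (T + I * t))).re -
    4 * T * Real.sin η ^ 2 - Real.cos η ^ 2 * (T + s') + 4 * σ * t * Real.sin η * Real.cos η

section val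
variable (l η : ℝ) (W y : ℂ)

theorem v_cAy : CX.v (pt7 l η W y) cAy = Real.sin η * y := by
  unfold cAy
  have e : (Ex.sc 2 xSC).re (pt7 l η W y) = Real.sin η := by
    show ((2 : ℤ) : ℝ) * (Real.sin (η / 2) * Real.cos (η / 2)) = _
    rw [sin_half η]
    push_cast
    ring
  rw [CX.v_rm, v_cx, e]

theorem v_cY1 : CX.v (pt7 l η W y) cY1 = 1 + y := by
  unfold cY1
  rw [CX.v_add, v_cZ, v_cx]
  push_cast
  ring

theorem v_cW0 : CX.v (pt7 l η W y) cW0 = wt W 0 η := by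
  unfold cW0 wt
  rw [CX.v_add, CX.v_sc, v_cE, v_cP]
  push_cast
  ring

theorem wW_eq : wW W η = ee η * wt W 0 η := by
  unfold wW
  rw [← ww_wx, ww_wt]

theorem v_cRz (z0 z1 : ℤ) : CX.v (pt7 l η W y) (cRz z0 z1) =
    (z0 + z1 * I) * pp W η - z0 * (Real.sin η * y) := by
  unfold cRz
  rw [CX.v_add, CX.v_sc2, CX.v_sc, v_cAy, v_cP]
  push_cast
  ring

theorem v_cR2 (z0 z1 z2 : ℤ) : CX.v (pt7 l η W y) (cR2 z0 z1 z2) =
    (z0 - z2 + 2 * z1 * I) * pp W η - (z0 + z1 * I) * (Real.sin η * y) := by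
  unfold cR2
  rw [CX.v_add, CX.v_sc2, CX.v_sc2, v_cAy, v_cP]
  have e1 : Int.add z0 (Int.neg z2) = z0 - z2 := rfl
  have e2 : Int.mul 2 z1 = 2 * z1 := rfl
  have e3 : ∀ z : ℤ, Int.neg z = -z := fun z => rfl
  rw [e1, e2, e3, e3]
  push_cast
  ring

theorem eRR_re (z0 z1 z2 : ℤ) : (eRR z0 z1 z2).re (pt7 l η W y) =
    (z0 + z2) * ‖pp W η‖ ^ 2 + z0 * ‖(Real.sin η : ℂ) * y‖ ^ 2 -
      2 * ((z0 + z1 * I) * pp W η * conj (Real.sin η * y)).re := by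
  have e : (eRR z0 z1 z2).re (pt7 l η W y) = ((Int.add z0 z2 : ℤ) : ℝ) *
      (CX.nsq cP).re (pt7 l η W y) + z0 * (CX.nsq cAy).re (pt7 l η W y) +
      ((-2 : ℤ) : ℝ) * (CX.v (pt7 l η W y) (CX.mul (CX.sc2 z0 z1 cP) (CX.cj cAy))).re := rfl
  rw [e, CX.v_nsq, CX.v_nsq, CX.v_mul, CX.v_sc2, CX.v_cj, v_cAy, v_cP, iadd_cast']
  push_cast
  ring

theorem v_sumM (d : DC) {K : ℕ} {G : GrC} (hk : G.k ≤ K) (j : ℕ) :
    CX.v (pt7 l η W y) (CX.sum (fun t => CX.rm (apE (adC j t.1)) (hM d K G.k t)) G.l) =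
      ((Dc d y.re y.im ^ K : ℝ) : ℂ) * (G.l.map fun t =>
        (af (adC j t.1) η : ℂ) * HD d G.k t.2.1 t.2.2 y).sum := by
  rw [CX.v_sum, ← v_mapC]
  congr 1
  refine List.map_congr_left fun t _ => ?_
  rw [CX.v_rm, ap_re, v_hM l η W y d hk]
  ring

theorem v_sumN (d : DC) {K : ℕ} {G : GrC} (hk : G.k + 1 ≤ K) :
    CX.v (pt7 l η W y) (CX.sum (fun t => CX.rm (Ex.sc 2 (apE t.1)) (hN d K G.k t)) G.l) =
      ((Dc d y.re y.im ^ K : ℝ) : ℂ) * (G.l.map fun t => 2 * (af t.1 η : ℂ) *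
        (HD d (G.k + 1) (qcX d G.k t.2.1) (qcX d G.k t.2.2) y +
        I * HD d (G.k + 1) (qcY d G.k t.2.1) (qcY d G.k t.2.2) y)).sum := by
  rw [CX.v_sum, ← v_mapC]
  congr 1
  refine List.map_congr_left fun t _ => ?_
  have e3 : (Ex.sc 2 (apE t.1)).re (pt7 l η W y) = 2 * af t.1 η := by
    show ((2 : ℤ) : ℝ) * (apE t.1).re (pt7 l η W y) = _
    rw [ap_re]
    push_cast
    ring
  rw [CX.v_rm, e3, v_hN l η W y d hk]
  push_cast
  ring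

/-- the real part of a sum of two sums -/
theorem sum2_re {ι : Type} (L : List ι) (f g : ι → ℂ) (a b : ℂ) :
    (L.map fun t => (a * f t + b * g t).re).sum = (a * (L.map f).sum + b * (L.map g).sum).re := by
  induction L with
  | nil => simp
  | cons t L ih =>
    rw [List.map_cons, List.sum_cons, ih, List.map_cons, List.sum_cons, List.map_cons,
      List.sum_cons, ← add_re]
    congr 1
    ring

theorem EV_re (z0 z1 : ℤ) (d : DC) {K : ℕ} {G : GrC} (hk : G.k + 1 ≤ K) :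
    (EV z0 z1 d K G).re (pt7 l η W y) = Dc d y.re y.im ^ K *
      (G.l.map fun t => NVv d z0 z1 G.k t W y η).sum := by
  have e : (EV z0 z1 d K G).re (pt7 l η W y) = (CX.v (pt7 l η W y)
    (CX.add (CX.mI (CX.sc2 z0 z1 (CX.sum (fun t => CX.rm (apE (adC 0 t.1)) (hM d K G.k t)) G.l)))
    (CX.mul (CX.cj (CX.mul (cRz z0 z1) cY1))
      (CX.sum (fun t => CX.rm (Ex.sc 2 (apE t.1)) (hN d K G.k t)) G.l)))).re := rfl
  have e4 : ∀ t ∈ G.l, NVv d z0 z1 G.k t W y η =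
      ((I * (z0 + z1 * I)) * ((af (adC 0 t.1) η : ℂ) * HD d G.k t.2.1 t.2.2 y) +
      conj ((((z0 : ℂ) + z1 * I) * pp W η - z0 * (Real.sin η * y)) * (1 + y)) *
        (2 * (af t.1 η : ℂ) * (HD d (G.k + 1) (qcX d G.k t.2.1) (qcX d G.k t.2.2) y +
        I * HD d (G.k + 1) (qcY d G.k t.2.1) (qcY d G.k t.2.2) y))).re := by
    intro t _
    unfold NVv
    rw [aC1_eq, pow_zero, one_mul]
    congr 1
    push_cast
    ring
  rw [e, CX.v_add, CX.v_mI, CX.v_sc2, CX.v_mul, CX.v_cj, CX.v_mul, v_cRz, v_cY1,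
    v_sumM l η W y d (by omega), v_sumN l η W y d hk, List.map_congr_left e4, sum2_re,
    ← re_ofReal_mul]
  congr 1
  ring

theorem EF_re (z0 z1 z2 : ℤ) (d : DC) {K : ℕ} {G : GrC} (hk : G.k + 1 ≤ K) :
    (EF z0 z1 z2 d K G).re (pt7 l η W y) = Dc d y.re y.im ^ K *
      (G.l.map fun t => NFv d z0 z1 z2 G.k t W y η).sum := by
  have e : (EF z0 z1 z2 d K G).re (pt7 l η W y) = (CX.v (pt7 l η W y)
    (CX.add (CX.mul (CX.mI (cR2 z0 z1 z2))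
      (CX.sum (fun t => CX.rm (apE (adC 1 t.1)) (hM d K G.k t)) G.l))
    (CX.mul (CX.rm (eRR z0 z1 z2) (CX.cj cY1))
      (CX.sum (fun t => CX.rm (Ex.sc 2 (apE t.1)) (hN d K G.k t)) G.l)))).re := rfl
  obtain ⟨r, hr⟩ : ∃ r : ℝ, r = (z0 + z2) * ‖pp W η‖ ^ 2 + z0 * ‖(Real.sin η : ℂ) * y‖ ^ 2 -
      2 * (((z0 : ℂ) + z1 * I) * pp W η * conj (Real.sin η * y)).re := ⟨_, rfl⟩
  have e4 : ∀ t ∈ G.l, NFv d z0 z1 z2 G.k t W y η =
      ((I * (((z0 : ℂ) - z2 + 2 * z1 * I) * pp W η - (z0 + z1 * I) * (Real.sin η * y))) *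
        ((af (adC 1 t.1) η : ℂ) * HD d G.k t.2.1 t.2.2 y) +
      ((r : ℂ) * conj (1 + y)) *
        (2 * (af t.1 η : ℂ) * (HD d (G.k + 1) (qcX d G.k t.2.1) (qcX d G.k t.2.2) y +
        I * HD d (G.k + 1) (qcY d G.k t.2.1) (qcY d G.k t.2.2) y))).re := by
    intro t _
    rw [hr]
    unfold NFv
    congr 1
    push_cast
    ring
  rw [e, CX.v_add, CX.v_mul, CX.v_mI, CX.v_mul, CX.v_rm, CX.v_cj, v_cR2, v_cY1, eRR_re, ← hr,
    v_sumM l η W y d (by omega), v_sumN l η W y d hk, List.map_congr_left e4, sum2_re,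
    ← re_ofReal_mul]
  congr 1
  ring

theorem v_cMw0 {j : ℕ} (hj : j ≤ 2) : CX.v (pt7 l η W y) (cMw0 j) =
    conj (wW W η) ^ j * e0 (Real.sin η) (Real.cos η) := by
  unfold cMw0
  rw [CX.v_mul, CX.v_pw, CX.v_pw, CX.v_cj, v_cE, v_cW0, wW_eq, ← ee_sq, map_mul]
  have h := ee_conj η
  generalize conj (ee η) = f at *
  generalize ee η = e at *
  generalize conj (wt W 0 η) = z
  interval_cases j
  · simp
  · simp only [pow_one]
    linear_combination (-e * z) * h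
  · simp only [pow_two, pow_zero, Nat.sub_self]
    linear_combination (-(z ^ 2) - z ^ 2 * (f * e)) * h

theorem EMy_re (z0 z1 : ℤ) (d : DC) (K h : ℕ) (t : ℕ × ℕ × ℤ × ℤ) (ht : t.2.1 ≤ 2) :
    (EMy z0 z1 d K h t).re (pt7 l η W y) = Dc d y.re y.im ^ K *
      ((((z0 : ℂ) - z1 * I) * (((t.2.2.1 : ℂ) + (t.2.2.2 : ℂ) * I) * ((l : ℂ) ^ t.1 *
        conj (wW W η) ^ t.2.1))) * e0 (Real.sin η) (Real.cos η) * (y ^ 2 + 2 * y)).re := by
  have e : (EMy z0 z1 d K h t).re (pt7 l η W y) = (l ^ t.1 * (CX.v (pt7 l η W y)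
      (CX.mul (CX.sc2 z0 (Int.neg z1) (CX.sc2 t.2.2.1 t.2.2.2 (cMw0 t.2.1)))
      (CX.mul cx (CX.add (cZ 2 0) cx)))).re) *
      (xo.re (pt7 l η W y) ^ (h - 2) * ev2 y.re y.im (Dk d K)) := rfl
  have e2 : Int.neg z1 = -z1 := rfl
  rw [e, CX.v_mul, CX.v_sc2, CX.v_sc2, v_cMw0 l η W y ht, CX.v_mul, CX.v_add, v_cZ, v_cx, v_xo,
    one_pow, Dk_ev, one_mul, e2]
  have e5 : (((z0 : ℂ) - z1 * I) * (((t.2.2.1 : ℂ) + (t.2.2.2 : ℂ) * I) * ((l : ℂ) ^ t.1 *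
        conj (wW W η) ^ t.2.1))) * e0 (Real.sin η) (Real.cos η) * (y ^ 2 + 2 * y) =
      ((l ^ t.1 : ℝ) : ℂ) *
      (((z0 : ℂ) + ((-z1 : ℤ) : ℂ) * I) * (((t.2.2.1 : ℂ) + (t.2.2.2 : ℂ) * I) *
        (conj (wW W η) ^ t.2.1 * e0 (Real.sin η) (Real.cos η))) *
        (y * ((((2 : ℤ) : ℂ) + I * ((0 : ℤ) : ℂ)) + y))) := by
    push_cast
    ring
  rw [e5, re_ofReal_mul]
  ring

theorem EMys_re (z0 z1 : ℤ) (d : DC) (K h : ℕ) {L : CL} (hL : ∀ t ∈ L, t.2.1 ≤ 2) :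
    (L.map fun t => (EMy z0 z1 d K h t).re (pt7 l η W y)).sum = Dc d y.re y.im ^ K *
      MTy z0 z1 L l (wW W η) (e0 (Real.sin η) (Real.cos η)) y := by
  rw [List.map_congr_left fun t ht => EMy_re l η W y z0 z1 d K h t (hL t ht), map_mul_l]
  congr 1
  unfold MTy MSc
  generalize wW W η = w
  generalize e0 (Real.sin η) (Real.cos η) = e
  have e3 : (((z0 : ℝ) : ℂ) - ((z1 : ℝ) : ℂ) * I) = (z0 : ℂ) - z1 * I := by push_cast; rfl
  rw [e3]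
  generalize (z0 : ℂ) - z1 * I = Z
  generalize y ^ 2 + 2 * y = V
  clear hL
  induction L with
  | nil => simp
  | cons t L ih =>
    rw [List.map_cons, List.sum_cons, ih, List.map_cons, List.sum_cons, ← add_re]
    congr 1
    ring

theorem v_cGv0 (Fd s gm cR cI : ℤ) (fl : Fl) : ‖CX.v (pt7 l η W y) (cGv0 Fd s gm cR cI fl)‖ ^ 2 =
    ‖Bf s gm cR cI fl l (wW W η) - Fd * e0 (Real.sin η) (Real.cos η)‖ ^ 2 := by
  have h1 : ee η * CX.v (pt7 l η W y) (cGv0 Fd s gm cR cI fl) =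
      Bf s gm cR cI fl l (wW W η) - Fd * e0 (Real.sin η) (Real.cos η) := by
    unfold cGv0 Bf
    rw [CX.v_add, CX.v_add, CX.v_add, CX.v_sc, CX.v_sc2, CX.v_sc, CX.v_rm, CX.v_add, CX.v_sc2,
      CX.v_sc2, CX.v_cj, v_cE, v_cW0, wW_eq, ← ee_sq]
    have h := ee_conj η
    have e1 : (Ex.sc s (Ex.va 0)).re (pt7 l η W y) = s * l := rfl
    rw [e1]
    generalize conj (ee η) = f at *
    generalize ee η = e at *
    push_cast
    linear_combination ((cR : ℂ) + cI * I + s * l * (fl.bR + fl.bI * I)) * h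
  rw [← h1, norm_mul, ee_norm, one_mul]

theorem eCn0_re (rd s r0 r1 r2 : ℤ) : (eCn0 rd s r0 r1 r2).re (pt7 l η W y) =
    rd * (‖wW W η‖ ^ 2 - 1) + s * l * rF r0 r1 r2 (wW W η) := by
  have e : (eCn0 rd s r0 r1 r2).re (pt7 l η W y) = rd * ((CX.nsq cW0).re (pt7 l η W y) +
      ((-1 : ℤ) : ℝ) * xo.re (pt7 l η W y) ^ 2) + (s * l) * (r0 * xo.re (pt7 l η W y) ^ 2 +
      (r1 * (CX.nsq (CX.add cW0 (CX.cj cE))).re (pt7 l η W y) +
        r2 * (CX.nsq cW0).re (pt7 l η W y))) := rfl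
  have e2 : ‖wt W 0 η + conj (ee η)‖ ^ 2 = ‖wW W η + 1‖ ^ 2 := by
    have h1 : wW W η + 1 = ee η * (wt W 0 η + conj (ee η)) := by
      rw [wW_eq]
      linear_combination (-1 : ℂ) * ee_conj η
    rw [h1, norm_mul, ee_norm, one_mul]
  have e3 : ‖wt W 0 η‖ = ‖wW W η‖ := by
    rw [wW_eq, norm_mul, ee_norm, one_mul]
  rw [e, CX.v_nsq, CX.v_nsq, CX.v_add, CX.v_cj, v_cE, v_cW0, v_xo, e2, e3]
  unfold rF
  push_cast
  ring

theorem eDy_re (s c0 c1 c2 : ℤ) : (eDy s c0 c1 c2).re (pt7 l η W y) = dpy c0 c1 c2 s W y η := by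
  have hA : (Ex.sc 2 xSC).re (pt7 l η W y) = Real.sin η := by
    show ((2 : ℤ) : ℝ) * (Real.sin (η / 2) * Real.cos (η / 2)) = _
    rw [sin_half η]
    push_cast
    ring
  have hB : cE.i.re (pt7 l η W y) = Real.cos η := by
    show Real.cos (η / 2) ^ 2 + ((-1 : ℤ) : ℝ) * Real.sin (η / 2) ^ 2 = _
    rw [cos_half η]
    push_cast
    ring
  obtain ⟨U, hU⟩ : ∃ U : CX, U = ⟨Ex.add (Ex.sc (Int.mul (Int.mul 2 s) c0) (Ex.sc 2 xSC))
      (Ex.sc (Int.mul (-2) c1) cE.i), Ex.add (Ex.sc (Int.mul (Int.mul 2 s) c1) (Ex.sc 2 xSC))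
      (Ex.sc (Int.add c0 (Int.neg c2)) cE.i)⟩ := ⟨_, rfl⟩
  obtain ⟨V, hV⟩ : ∃ V : CX, V = ⟨Ex.add (Ex.sc (Int.mul (Int.mul 2 s) c0) (Ex.sc 2 xSC))
      (Ex.sc (Int.neg c1) cE.i), Ex.sc c0 cE.i⟩ := ⟨_, rfl⟩
  obtain ⟨g, hg⟩ : ∃ g : ℤ, g = Int.add 2 (Int.mul (-2) s) := ⟨_, rfl⟩
  have e : (eDy s c0 c1 c2).re (pt7 l η W y) = ((Int.mul 4 (Int.add c0 c2) : ℤ) : ℝ) *
      xo.re (pt7 l η W y) ^ 2 + ((-1 : ℤ) : ℝ) * ((((Int.mul 4 (Int.add c0 c2) : ℤ) : ℝ) *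
      (CX.nsq cP).re (pt7 l η W y) + (((Int.mul (-4) g : ℤ) : ℝ) * (CX.v (pt7 l η W y)
        (CX.mul (CX.sc2 c0 (Int.neg c1) cAy) (CX.cj cP))).re +
        ((Int.mul (Int.mul g g) c0 : ℤ) : ℝ) * (CX.nsq cAy).re (pt7 l η W y))) +
      ((((4 : ℤ) : ℝ) * (CX.v (pt7 l η W y) (CX.mul cP U)).re + ((Int.mul (-2) g : ℤ) : ℝ) *
        (CX.v (pt7 l η W y) (CX.mul cAy V)).re) +
      (((Int.mul 4 c0 : ℤ) : ℝ) * (Ex.sc 2 xSC).re (pt7 l η W y) ^ 2 +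
      (((Int.add c0 c2 : ℤ) : ℝ) * cE.i.re (pt7 l η W y) ^ 2 +
      ((Int.mul (Int.mul (-4) s) c1 : ℤ) : ℝ) * ((Ex.sc 2 xSC).re (pt7 l η W y) *
        cE.i.re (pt7 l η W y)))))) := by
    rw [hU, hV, hg]
    rfl
  have vU : CX.v (pt7 l η W y) U = 2 * (s : ℝ) * (Real.sin η : ℂ) * ((c0 : ℝ) + I * (c1 : ℝ)) +
      I * (Real.cos η : ℂ) * ((c0 : ℝ) + 2 * I * (c1 : ℝ) - (c2 : ℝ)) := by
    rw [hU]
    apply Complex.ext
    · show ((Int.mul (Int.mul 2 s) c0 : ℤ) : ℝ) * (Ex.sc 2 xSC).re (pt7 l η W y) +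
        ((Int.mul (-2) c1 : ℤ) : ℝ) * cE.i.re (pt7 l η W y) = _
      rw [hA, hB, imul_cast', imul_cast', imul_cast']
      simp only [add_re, mul_re, mul_im, sub_re, add_im, sub_im, ofReal_re, ofReal_im, I_re, I_im,
        re_ofNat, im_ofNat]
      push_cast
      ring
    · show ((Int.mul (Int.mul 2 s) c1 : ℤ) : ℝ) * (Ex.sc 2 xSC).re (pt7 l η W y) +
        ((Int.add c0 (Int.neg c2) : ℤ) : ℝ) * cE.i.re (pt7 l η W y) = _
      rw [hA, hB, imul_cast', imul_cast', iadd_cast', ineg_cast']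
      simp only [add_re, mul_re, mul_im, sub_re, add_im, sub_im, ofReal_re, ofReal_im, I_re, I_im,
        re_ofNat, im_ofNat]
      push_cast
      ring
  have vV : CX.v (pt7 l η W y) V = 2 * (s : ℝ) * (Real.sin η : ℂ) * (c0 : ℝ) +
      I * (Real.cos η : ℂ) * ((c0 : ℝ) + I * (c1 : ℝ)) := by
    rw [hV]
    apply Complex.ext
    · show ((Int.mul (Int.mul 2 s) c0 : ℤ) : ℝ) * (Ex.sc 2 xSC).re (pt7 l η W y) +
        ((Int.neg c1 : ℤ) : ℝ) * cE.i.re (pt7 l η W y) = _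
      rw [hA, hB, imul_cast', imul_cast', ineg_cast']
      simp only [add_re, mul_re, mul_im, add_im, ofReal_re, ofReal_im, I_re, I_im,
        re_ofNat, im_ofNat]
      push_cast
      ring
    · show (c0 : ℝ) * cE.i.re (pt7 l η W y) = _
      rw [hB]
      simp only [add_re, mul_re, mul_im, add_im, ofReal_re, ofReal_im, I_re, I_im,
        re_ofNat, im_ofNat]
      push_cast
      ring
  have hg' : (g : ℝ) = 2 - 2 * s := by
    rw [hg, iadd_cast', imul_cast']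
    push_cast
    ring
  rw [e, hA, hB, v_xo, CX.v_nsq, CX.v_nsq, CX.v_mul, CX.v_mul, CX.v_mul, CX.v_sc2, CX.v_cj,
    v_cAy, v_cP, vU, vV]
  simp only [imul_cast', iadd_cast', ineg_cast', hg']
  unfold dpy
  have e9 : ((Int.neg c1 : ℤ) : ℂ) = -(c1 : ℂ) := by
    show (((-c1 : ℤ)) : ℂ) = _
    push_cast
    ring
  rw [e9]
  push_cast
  ring_nf

end val

end Pool.Agent.Helper65.CKY
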